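import Pool.Agent.Lib_MP_a95293_gv.Defs

/-!
# THEOREM G, piece BdA: calculus of bounds for polynomials

`Bd B D c P`: total degree `≤ D`, sum of the absolute values of the coefficients (`l1` norm) `≤ B ^ c`. The `l1` norm is subadditive and submultiplicative
(`P = ∑ monomial m (coeff m P)`; prove `l1 (P + Q) ≤ l1 P + l1 Q`, `l1 (∑) ≤ ∑ l1`, `l1 (monomial m a * Q) = |a| l1 Q`, all via
`∑ m ∈ P.support, |coeff m P| = ∑ m ∈ T, |coeff m P|` for any finite `T ⊇ P.support`), `l1 (pderiv i P) ≤ totalDegree P * l1 P` (`pderiv_monomial`), `totalDegree (pderiv i P) ≤ totalDegree P`.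
-/

namespace Pool.MP_a95293_nt.GV

open MvPolynomial

variable {v B : ℕ}

private def l1 (P : MvPolynomial (Fin v) ℤ) : ℤ := ∑ m ∈ P.support, |coeff m P|

private theorem l1_eq (P : MvPolynomial (Fin v) ℤ) (T : Finset (Fin v →₀ ℕ))
    (h : P.support ⊆ T) : l1 P = ∑ m ∈ T, |coeff m P| := by
  unfold l1
  refine Finset.sum_subset h (fun m _ hm => ?_)
  rw [notMem_support_iff.1 hm, abs_zero]

private theorem l1_nonneg (P : MvPolynomial (Fin v) ℤ) : 0 ≤ l1 P :=
  Finset.sum_nonneg fun _ _ => abs_nonneg _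

private theorem l1_add (P Q : MvPolynomial (Fin v) ℤ) : l1 (P + Q) ≤ l1 P + l1 Q := by
  classical
  have hT : (P + Q).support ⊆ P.support ∪ Q.support := support_add
  rw [l1_eq _ _ hT, l1_eq P (P.support ∪ Q.support) Finset.subset_union_left,
    l1_eq Q (P.support ∪ Q.support) Finset.subset_union_right, ← Finset.sum_add_distrib]
  refine Finset.sum_le_sum fun m _ => ?_
  rw [coeff_add]
  exact abs_add_le _ _

private theorem l1_neg (P : MvPolynomial (Fin v) ℤ) : l1 (-P) = l1 P := by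
  unfold l1
  rw [support_neg]
  refine Finset.sum_congr rfl fun m _ => ?_
  rw [coeff_neg, abs_neg]

private theorem l1_sum {ι : Type*} (s : Finset ι) (f : ι → MvPolynomial (Fin v) ℤ) :
    l1 (∑ i ∈ s, f i) ≤ ∑ i ∈ s, l1 (f i) := by
  classical
  induction s using Finset.induction_on with
  | empty => simp [l1]
  | insert a s ha ih =>
    rw [Finset.sum_insert ha, Finset.sum_insert ha]
    exact (l1_add _ _).trans (by linarith)

private theorem l1_monomial_le (s : Fin v →₀ ℕ) (b : ℤ) : l1 (monomial s b) ≤ |b| := by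
  classical
  by_cases hb : b = 0
  · simp [l1, hb]
  · rw [l1, support_monomial, if_neg hb, Finset.sum_singleton, coeff_monomial, if_pos rfl]

private theorem l1_monomial_mul (m : Fin v →₀ ℕ) (a : ℤ) (Q : MvPolynomial (Fin v) ℤ) :
    l1 (monomial m a * Q) ≤ |a| * l1 Q := by
  classical
  have hT : (monomial m a * Q).support ⊆ Q.support.image (fun k => m + k) := by
    intro k hk
    rw [mem_support_iff, coeff_monomial_mul'] at hk
    by_cases hmk : m ≤ k
    · rw [if_pos hmk] at hk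
      exact Finset.mem_image.2 ⟨k - m, mem_support_iff.2 (right_ne_zero_of_mul hk),
        add_tsub_cancel_of_le hmk⟩
    · rw [if_neg hmk] at hk
      exact absurd rfl hk
  rw [l1_eq _ _ hT, Finset.sum_image (fun x _ y _ h => add_left_cancel h), l1, Finset.mul_sum]
  refine Finset.sum_le_sum fun k _ => ?_
  rw [coeff_monomial_mul, abs_mul]

private theorem l1_mul (P Q : MvPolynomial (Fin v) ℤ) : l1 (P * Q) ≤ l1 P * l1 Q := by
  have h : P * Q = ∑ m ∈ P.support, monomial m (coeff m P) * Q := by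
    rw [← Finset.sum_mul, support_sum_monomial_coeff]
  have h2 : l1 P * l1 Q = ∑ m ∈ P.support, |coeff m P| * l1 Q := by
    unfold l1
    rw [Finset.sum_mul]
  rw [h, h2]
  exact (l1_sum _ _).trans (Finset.sum_le_sum fun m _ => l1_monomial_mul _ _ _)

private theorem le_deg (m : Fin v →₀ ℕ) (i : Fin v) : m i ≤ m.sum fun _ e => e := by
  by_cases h : m i = 0
  · rw [h]
    exact Nat.zero_le _
  · exact Finset.single_le_sum (f := fun j => m j) (fun _ _ => Nat.zero_le _)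
      (Finsupp.mem_support_iff.2 h)

private theorem pderiv_eq (P : MvPolynomial (Fin v) ℤ) (i : Fin v) :
    pderiv i P = ∑ m ∈ P.support, monomial (m - Finsupp.single i 1) (coeff m P * m i) := by
  conv_lhs => rw [← support_sum_monomial_coeff P]
  rw [map_sum]
  exact Finset.sum_congr rfl fun m _ => pderiv_monomial

private theorem totalDegree_pderiv_le (P : MvPolynomial (Fin v) ℤ) (i : Fin v) :
    (pderiv i P).totalDegree ≤ P.totalDegree := by
  rw [pderiv_eq]
  refine totalDegree_finsetSum_le fun m hm => ?_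
  refine (totalDegree_monomial_le _ _).trans (le_trans ?_ (le_totalDegree hm))
  rw [Finsupp.sum_fintype _ _ (fun _ => rfl), Finsupp.sum_fintype _ _ (fun _ => rfl)]
  refine Finset.sum_le_sum fun j _ => ?_
  simp only [id, Finsupp.coe_tsub, Pi.sub_apply]
  exact Nat.sub_le _ _

private theorem l1_pderiv (P : MvPolynomial (Fin v) ℤ) (i : Fin v) :
    l1 (pderiv i P) ≤ (P.totalDegree : ℤ) * l1 P := by
  rw [pderiv_eq]
  refine (l1_sum _ _).trans ?_
  unfold l1
  rw [Finset.mul_sum]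
  refine Finset.sum_le_sum fun m hm => ?_
  refine (l1_monomial_le _ _).trans ?_
  rw [abs_mul, mul_comm, Nat.abs_cast]
  have h1 : (m i : ℤ) ≤ (P.totalDegree : ℤ) := by
    exact_mod_cast (le_deg m i).trans (le_totalDegree hm)
  exact mul_le_mul_of_nonneg_right h1 (abs_nonneg _)

theorem Bd.mono {D D' c c' : ℕ} {P : MvPolynomial (Fin v) ℤ} (h : Bd B D c P) (hB : 1 ≤ B)
    (hD : D ≤ D') (hc : c ≤ c') : Bd B D' c' P := by
  obtain ⟨h1, h2⟩ := h
  refine ⟨h1.trans hD, h2.trans ?_⟩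
  exact pow_le_pow_right₀ (by exact_mod_cast hB) hc

theorem Bd.add {D c : ℕ} {P Q : MvPolynomial (Fin v) ℤ} (hB : 2 ≤ B) (hP : Bd B D c P)
    (hQ : Bd B D c Q) : Bd B D (c + 1) (P + Q) := by
  obtain ⟨h1, h2⟩ := hP
  obtain ⟨h3, h4⟩ := hQ
  refine ⟨(totalDegree_add _ _).trans (max_le h1 h3), ?_⟩
  have h5 : l1 (P + Q) ≤ l1 P + l1 Q := l1_add P Q
  have h6 : l1 P ≤ (B : ℤ) ^ c := h2
  have h7 : l1 Q ≤ (B : ℤ) ^ c := h4
  have h8 : (2 : ℤ) ≤ B := by exact_mod_cast hB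
  have h9 : (0 : ℤ) ≤ (B : ℤ) ^ c := by positivity
  have h10 : l1 (P + Q) ≤ (B : ℤ) ^ (c + 1) := by
    rw [pow_succ]
    nlinarith
  exact h10

theorem Bd.sub {D c : ℕ} {P Q : MvPolynomial (Fin v) ℤ} (hB : 2 ≤ B) (hP : Bd B D c P)
    (hQ : Bd B D c Q) : Bd B D (c + 1) (P - Q) := by
  have h : Bd B D c (-Q) := by
    obtain ⟨h3, h4⟩ := hQ
    refine ⟨by rw [totalDegree_neg]; exact h3, ?_⟩
    have h5 : l1 (-Q) ≤ (B : ℤ) ^ c := by
      rw [l1_neg]
      exact h4
    exact h5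
  rw [sub_eq_add_neg]
  exact Bd.add hB hP h

theorem Bd.mul {D D' c c' : ℕ} {P Q : MvPolynomial (Fin v) ℤ} (hP : Bd B D c P)
    (hQ : Bd B D' c' Q) : Bd B (D + D') (c + c') (P * Q) := by
  obtain ⟨h1, h2⟩ := hP
  obtain ⟨h3, h4⟩ := hQ
  refine ⟨(totalDegree_mul _ _).trans (Nat.add_le_add h1 h3), ?_⟩
  have h6 : l1 P ≤ (B : ℤ) ^ c := h2
  have h7 : l1 Q ≤ (B : ℤ) ^ c' := h4
  have h10 : l1 (P * Q) ≤ (B : ℤ) ^ (c + c') := by
    rw [pow_add]
    exact (l1_mul P Q).trans (mul_le_mul h6 h7 (l1_nonneg Q) (by positivity))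
  exact h10

theorem Bd.sum {ι : Type*} (s : Finset ι) {D c : ℕ} (hs : s.card ≤ B) (hB : 1 ≤ B)
    {P : ι → MvPolynomial (Fin v) ℤ} (hP : ∀ i ∈ s, Bd B D c (P i)) :
    Bd B D (c + 1) (∑ i ∈ s, P i) := by
  refine ⟨totalDegree_finsetSum_le fun i hi => (hP i hi).1, ?_⟩
  have h1 : l1 (∑ i ∈ s, P i) ≤ ∑ i ∈ s, l1 (P i) := l1_sum s P
  have h2 : ∑ i ∈ s, l1 (P i) ≤ ∑ _i ∈ s, (B : ℤ) ^ c := Finset.sum_le_sum fun i hi => (hP i hi).2
  rw [Finset.sum_const, nsmul_eq_mul] at h2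
  have h3 : (s.card : ℤ) ≤ B := by exact_mod_cast hs
  have h4 : (s.card : ℤ) * (B : ℤ) ^ c ≤ B * (B : ℤ) ^ c :=
    mul_le_mul_of_nonneg_right h3 (by positivity)
  have h5 : l1 (∑ i ∈ s, P i) ≤ (B : ℤ) ^ (c + 1) := by
    rw [pow_succ, mul_comm ((B : ℤ) ^ c) (B : ℤ)]
    exact h1.trans (h2.trans h4)
  exact h5

theorem Bd.prod {ι : Type*} (s : Finset ι) {D c : ℕ} {P : ι → MvPolynomial (Fin v) ℤ}
    (hP : ∀ i ∈ s, Bd B D c (P i)) : Bd B (s.card * D) (s.card * c) (∏ i ∈ s, P i) := by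
  classical
  induction s using Finset.induction_on with
  | empty =>
    refine ⟨by simp, ?_⟩
    have h : l1 (1 : MvPolynomial (Fin v) ℤ) ≤ 1 := by
      have := l1_monomial_le (v := v) 0 1
      simpa using this
    simp only [Finset.prod_empty, Finset.card_empty, zero_mul, pow_zero]
    exact h
  | insert a s ha ih =>
    rw [Finset.prod_insert ha, Finset.card_insert_of_notMem ha]
    have h1 := Bd.mul (hP a (Finset.mem_insert_self a s))
      (ih fun i hi => hP i (Finset.mem_insert_of_mem hi))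
    have e1 : (s.card + 1) * D = D + s.card * D := by ring
    have e2 : (s.card + 1) * c = c + s.card * c := by ring
    rw [e1, e2]
    exact h1

theorem bd_C {c : ℕ} {a : ℤ} (ha : |a| ≤ (B : ℤ) ^ c) :
    Bd B 0 c (C a : MvPolynomial (Fin v) ℤ) := by
  refine ⟨by rw [totalDegree_C], ?_⟩
  have h : l1 (C a : MvPolynomial (Fin v) ℤ) ≤ |a| := l1_monomial_le (v := v) 0 a
  exact h.trans ha

theorem bd_X (i : Fin v) : Bd B 1 0 (X i : MvPolynomial (Fin v) ℤ) := by
  refine ⟨by rw [totalDegree_X], ?_⟩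
  have h : l1 (X i : MvPolynomial (Fin v) ℤ) ≤ |(1 : ℤ)| := l1_monomial_le (v := v) _ 1
  rw [pow_zero]
  exact h.trans (by simp)

theorem bd_zero (D c : ℕ) : Bd B D c (0 : MvPolynomial (Fin v) ℤ) := by
  refine ⟨by rw [totalDegree_zero]; exact Nat.zero_le _, ?_⟩
  rw [support_zero, Finset.sum_empty]
  positivity

theorem Bd.pderiv {D c : ℕ} {P : MvPolynomial (Fin v) ℤ} (hD : D ≤ B) (h : Bd B D c P)
    (i : Fin v) : Bd B D (c + 1) (pderiv i P) := by
  obtain ⟨h1, h2⟩ := h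
  refine ⟨(totalDegree_pderiv_le P i).trans h1, ?_⟩
  have h3 : l1 (MvPolynomial.pderiv i P) ≤ (P.totalDegree : ℤ) * l1 P := l1_pderiv P i
  have h4 : (P.totalDegree : ℤ) ≤ B := by exact_mod_cast h1.trans hD
  have h5 : (P.totalDegree : ℤ) * l1 P ≤ B * (B : ℤ) ^ c :=
    mul_le_mul h4 h2 (l1_nonneg P) (by positivity)
  have h6 : l1 (MvPolynomial.pderiv i P) ≤ (B : ℤ) ^ (c + 1) := by
    rw [pow_succ, mul_comm ((B : ℤ) ^ c) (B : ℤ)]
    exact h3.trans h5
  exact h6

theorem Bd.Dl {D c : ℕ} {P : MvPolynomial (Fin v) ℤ} (hD : D ≤ B) (h : Bd B D c P)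
    (L : List (Fin v)) : Bd B D (c + L.length) (Dl L P) := by
  induction L with
  | nil => exact h
  | cons i L ih =>
    rw [Dl_cons, List.length_cons, ← Nat.add_assoc]
    exact Bd.pderiv hD ih i

theorem Bd.sm {D c κ : ℕ} {P : MvPolynomial (Fin v) ℤ} (hB : 1 ≤ B) (h : Bd B D c P) :
    Sm B κ (c + κ * D) P := by
  intro z hz
  obtain ⟨h1, h2⟩ := h
  rw [eval_eq']
  refine (Finset.abs_sum_le_sum_abs _ _).trans ?_
  have hB1 : (1 : ℤ) ≤ B := by exact_mod_cast hB
  have h3 : ∀ d ∈ P.support, |coeff d P * ∏ i, z i ^ d i| ≤ |coeff d P| * (B : ℤ) ^ (κ * D) := by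
    intro d hd
    rw [abs_mul]
    refine mul_le_mul_of_nonneg_left ?_ (abs_nonneg _)
    rw [Finset.abs_prod]
    have h4 : ∏ i, |z i ^ d i| ≤ ∏ i, ((B : ℤ) ^ κ) ^ d i := by
      refine Finset.prod_le_prod (fun _ _ => abs_nonneg _) fun i _ => ?_
      rw [abs_pow]
      exact pow_le_pow_left₀ (abs_nonneg _) (hz i) _
    refine h4.trans ?_
    rw [Finset.prod_pow_eq_pow_sum, ← pow_mul]
    refine pow_le_pow_right₀ hB1 (Nat.mul_le_mul_left _ ?_)
    have h5 := le_totalDegree hd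
    rw [Finsupp.sum_fintype _ _ (fun _ => rfl)] at h5
    exact h5.trans h1
  refine (Finset.sum_le_sum h3).trans ?_
  rw [← Finset.sum_mul, pow_add]
  exact mul_le_mul_of_nonneg_right h2 (by positivity)

end Pool.MP_a95293_nt.GV
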