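import Pool.Agent.Lib_MP_a95293_gv.BdA

/-!
# THEOREM G, piece BdB: bounds for the cofactors `AA` and for the words of `RR`

With `BdA`: `pderiv j (Q i)` is `Bd B D (c + 1)`; `Del Q f` is `Bd B (n D) (n (c + 1))`; `vf Q f k j` is `Bd B ((n + 1) D) ((n + 1) (c + 1) + 3)` (`n ≤ B`; the product over `univ.erase i` has at most `n` factors, use `mono`); `AA`:
`C (u i)` is `Bd B 0 1` (`u i ≤ E ≤ B`), the product of the `X` is `Bd B v 0`, sum over `v ≤ B` indices. `Dd Q f k P`: sum over `v ≤ B` indices of `vf * pderiv`, so if `P` is `Bd B D' c'` then `Dd Q f k P` is `Bd B (D1 + D') (c1 + c' + 2)`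
(`D' ≤ B`). `bd_words`: induction on the length of the word.
-/

namespace Pool.MP_a95293_nt.GV

open MvPolynomial

private theorem BdB_vf {v n D c B : ℕ} (hB : 2 ≤ B) (hn : n ≤ B) (hD : D ≤ B)
    (Q : Fin n → MvPolynomial (Fin v) ℤ) (f : Fin n → Fin v) (k j : Fin v)
    (hQ : ∀ i, Bd B D c (Q i)) : Bd B ((n + 1) * D) ((n + 1) * (c + 1) + 2) (vf Q f k j) := by
  have hB1 : 1 ≤ B := by omega
  have hp : ∀ i j, Bd B D (c + 1) (pderiv j (Q i)) := fun i j => Bd.pderiv hD (hQ i) j
  have hDel : Bd B ((n + 1) * D) ((n + 1) * (c + 1)) (Del Q f) := by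
    have h := Bd.prod (B := B) (D := D) (c := c + 1) (Finset.univ : Finset (Fin n))
      (P := fun i => pderiv (f i) (Q i)) fun i _ => hp i (f i)
    rw [Finset.card_univ, Fintype.card_fin] at h
    exact h.mono hB1 (Nat.mul_le_mul_right _ (by omega)) (Nat.mul_le_mul_right _ (by omega))
  have hterm : ∀ i, Bd B ((n + 1) * D) ((n + 1) * (c + 1))
      (pderiv k (Q i) * ∏ i' ∈ Finset.univ.erase i, pderiv (f i') (Q i')) := by
    intro i
    have h := Bd.prod (B := B) (D := D) (c := c + 1) (Finset.univ.erase i)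
      (P := fun i => pderiv (f i) (Q i)) fun i _ => hp i (f i)
    have hc : (Finset.univ.erase i).card ≤ n := by
      refine (Finset.card_le_univ _).trans ?_
      rw [Fintype.card_fin]
    have h2 := Bd.mul (hp i k) (h.mono hB1 (Nat.mul_le_mul_right _ hc) (Nat.mul_le_mul_right _ hc))
    have e1 : (n + 1) * D = D + n * D := by ring
    have e2 : (n + 1) * (c + 1) = (c + 1) + n * (c + 1) := by ring
    rw [e1, e2]
    exact h2
  have hsum : Bd B ((n + 1) * D) ((n + 1) * (c + 1) + 1)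
      (∑ i, if f i = j then
        pderiv k (Q i) * ∏ i' ∈ Finset.univ.erase i, pderiv (f i') (Q i') else 0) := by
    refine Bd.sum Finset.univ ?_ hB1 fun i _ => ?_
    · rw [Finset.card_univ, Fintype.card_fin]
      exact hn
    · split_ifs
      · exact hterm i
      · exact bd_zero _ _
  unfold vf
  refine Bd.sub hB ?_ hsum
  split_ifs
  · exact hDel.mono hB1 le_rfl (by omega)
  · exact bd_zero _ _

private theorem BdB_AA {v n D c B E : ℕ} (hB : 2 ≤ B) (hn : n ≤ B) (hD : D ≤ B) (hv : v ≤ B)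
    (hE : E ≤ B) (Q : Fin n → MvPolynomial (Fin v) ℤ) (f : Fin n → Fin v) (u : Fin v → ℕ)
    (k : Fin v) (hQ : ∀ i, Bd B D c (Q i)) (hu : ∀ i, u i ≤ E) :
    Bd B (v + (n + 1) * D) ((n + 1) * (c + 1) + 4) (AA u Q f k) := by
  have hB1 : 1 ≤ B := by omega
  unfold AA
  have h := Bd.sum (B := B) (D := v + (n + 1) * D) (c := (n + 1) * (c + 1) + 3)
    (Finset.univ : Finset (Fin v))
    (P := fun i => C (u i : ℤ) * (∏ i' ∈ Finset.univ.erase i, X i') * vf Q f k i)
    (by rw [Finset.card_univ, Fintype.card_fin]; exact hv) hB1 fun i _ => ?_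
  · exact h
  · have h1 : Bd B 0 1 (C (u i : ℤ) : MvPolynomial (Fin v) ℤ) := by
      refine bd_C ?_
      rw [pow_one, Nat.abs_cast]
      exact_mod_cast (hu i).trans hE
    have h2 := Bd.prod (B := B) (D := 1) (c := 0) (Finset.univ.erase i)
      (P := fun i => (X i : MvPolynomial (Fin v) ℤ)) fun i _ => bd_X i
    have hc : (Finset.univ.erase i).card ≤ v := by
      refine (Finset.card_le_univ _).trans ?_
      rw [Fintype.card_fin]
    have h3 : Bd B v 0 (∏ i' ∈ Finset.univ.erase i, (X i' : MvPolynomial (Fin v) ℤ)) :=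
      h2.mono hB1 (by rw [mul_one]; exact hc) (by rw [mul_zero])
    have h4 := Bd.mul (Bd.mul h1 h3) (BdB_vf hB hn hD Q f k i hQ)
    exact h4.mono hB1 (by omega) (by omega)

private theorem BdB_Dd {v n D c D' c' B : ℕ} (hB : 2 ≤ B) (hn : n ≤ B) (hD : D ≤ B) (hv : v ≤ B)
    (hD' : D' ≤ B) (Q : Fin n → MvPolynomial (Fin v) ℤ) (f : Fin n → Fin v)
    (k : Fin v) (P : MvPolynomial (Fin v) ℤ) (hQ : ∀ i, Bd B D c (Q i)) (hP : Bd B D' c' P) :
    Bd B (D' + (n + 1) * D) (c' + ((n + 1) * (c + 1) + 4)) (Dd Q f k P) := by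
  have hB1 : 1 ≤ B := by omega
  unfold Dd
  have h := Bd.sum (B := B) (D := D' + (n + 1) * D) (c := c' + ((n + 1) * (c + 1) + 3))
    (Finset.univ : Finset (Fin v)) (P := fun j => vf Q f k j * pderiv j P)
    (by rw [Finset.card_univ, Fintype.card_fin]; exact hv) hB1 fun j _ => ?_
  · exact h
  · have h1 := Bd.mul (BdB_vf hB hn hD Q f k j hQ) (Bd.pderiv hD' hP j)
    exact h1.mono hB1 (by omega) (by omega)

/-- Bound for the cofactors, independent of `E` (if `B ≥ B0(E)`). -/
theorem bd_AA (v n D c : ℕ) : ∃ D1 c1 : ℕ, ∀ E : ℕ, ∃ B0 : ℕ, ∀ B : ℕ, B0 ≤ B →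
    ∀ (Q : Fin n → MvPolynomial (Fin v) ℤ) (f : Fin n → Fin v) (u : Fin v → ℕ) (k : Fin v),
      (∀ i, Bd B D c (Q i)) → (∀ i, u i ≤ E) → Bd B D1 c1 (AA u Q f k) := by
  refine ⟨v + (n + 1) * D, (n + 1) * (c + 1) + 4, fun E => ⟨2 + n + D + v + E, ?_⟩⟩
  intro B hB Q f u k hQ hu
  exact BdB_AA (by omega) (by omega) (by omega) (by omega) (E := E) (by omega) Q f u k hQ hu

theorem bd_words (r v n d D c E k0 : ℕ) : ∃ D1 c1 B0 : ℕ, ∀ B : ℕ, B0 ≤ B →
    ∀ (Q : Fin n → MvPolynomial (Fin v) ℤ) (f : Fin n → Fin v) (g : Fin d → Fin v)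
      (u : Fin r → Fin v → ℕ) (s s' : Fin r) (k : Fin v) (w : List (Fin d)),
      (∀ i, Bd B D c (Q i)) → (∀ s i, u s i ≤ E) → w.length ≤ k0 →
      Bd B D1 c1 (Dw Q f g w (RR u Q f s s' k)) := by
  refine ⟨v + (n + 1) * D + k0 * ((n + 1) * D),
    (n + 1) * (c + 1) + 5 + k0 * ((n + 1) * (c + 1) + 4),
    2 + n + D + v + E + (v + (n + 1) * D + k0 * ((n + 1) * D)), ?_⟩
  intro B hB Q f g u s s' k w hQ hu hw
  have hB1 : 1 ≤ B := by omega
  have key : ∀ w : List (Fin d), w.length ≤ k0 →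
      Bd B (v + (n + 1) * D + w.length * ((n + 1) * D))
        ((n + 1) * (c + 1) + 5 + w.length * ((n + 1) * (c + 1) + 4))
        (Dw Q f g w (RR u Q f s s' k)) := by
    intro w
    induction w with
    | nil =>
      intro _
      rw [Dw_nil, List.length_nil, zero_mul, zero_mul, add_zero, add_zero]
      unfold RR
      exact Bd.sub (by omega)
        (BdB_AA (by omega) (by omega) (by omega) (by omega) (E := E) (by omega) Q f _ k hQ
          fun i => hu s i)
        (BdB_AA (by omega) (by omega) (by omega) (by omega) (E := E) (by omega) Q f _ k hQ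
          fun i => hu s' i)
    | cons a w ih =>
      intro hl
      rw [List.length_cons] at hl
      have h1 := ih (by omega)
      rw [Dw_cons, List.length_cons]
      have h2 : w.length * ((n + 1) * D) ≤ k0 * ((n + 1) * D) :=
        Nat.mul_le_mul_right _ (by omega)
      have h3 := BdB_Dd (D := D) (c := c) (B := B) (by omega) (by omega) (by omega) (by omega)
        (by omega) Q f (g a) _ hQ h1
      have e1 : v + (n + 1) * D + (w.length + 1) * ((n + 1) * D) =
          v + (n + 1) * D + w.length * ((n + 1) * D) + (n + 1) * D := by ring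
      have e2 : (n + 1) * (c + 1) + 5 + (w.length + 1) * ((n + 1) * (c + 1) + 4) =
          (n + 1) * (c + 1) + 5 + w.length * ((n + 1) * (c + 1) + 4) +
            ((n + 1) * (c + 1) + 4) := by ring
      rw [e1, e2]
      exact h3
  refine (key w hw).mono hB1 ?_ ?_
  · exact Nat.add_le_add_left (Nat.mul_le_mul_right _ hw) _
  · exact Nat.add_le_add_left (Nat.mul_le_mul_right _ hw) _

end Pool.MP_a95293_nt.GV
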