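import Mathlib

/-!
# THEOREM G, piece Hens: Taylor formula to first order and Hensel for square systems, modulo powers of an ideal

Pure commutative algebra, polynomials over `ℤ` evaluated in a commutative ring `R` with an ideal `I`.

1. `taylor1`: by `MvPolynomial.induction_on` (constants: difference `0`; sums; `P * X_j`: the difference is
`(aeval (z + δ) P - aeval z P) (z_j + δ_j) + δ_j aeval z P`, use `aeval (z+δ) P - aeval z P ∈ J` from the
induction hypothesis, or prove `taylor0` first).
2. `hensel_unique`: induction on `k ≤ n`, `k ≥ 1`: `y_j - y'_j ∈ I ^ k` for all `j`. Step `k < n`: `δ = y - y'` is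
supported on `range v`. By `taylor1` with `J = I ^ k` at `y'`: `∑_j M'_{ij} δ_{v j} ∈ I ^ (k+1)` for
`M'_{ij} = aeval y' (pderiv (v j) (F i))` (`(I^k)^2 ≤ I^(k+1)`, `F_i(y), F_i(y') ∈ I^n ≤ I^(k+1)`; the sum over all
coordinates of `δ` is the sum over `range v`, `v` injective). Multiply by `adjugate M'`: `det M' * δ_{v j} ∈ I ^ (k+1)`.
`det M' - det M ∈ I` (the entries are congruent modulo `I` by `taylor0`; use the ring hom `R → R ⧸ I` and
`RingHom.map_det`), so `u * det M' = 1 + i` with `i ∈ I`, and `δ = u det M' δ - i δ ∈ I ^ (k+1)`.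
3. `hensel_exists`: induction on `n ≥ 1` (`n = 0, 1`: `y = z`). Given `y` for `n`, put `δ_{v j} = - u * (adjugate M * F(y))_j ∈ I ^ n`
with `M` the matrix at `z`, and `δ = 0` outside `range v`. By `taylor1` with `J = I ^ n`:
`F(y + δ) ≡ F(y) + M(y) δ ≡ F(y) + M(z) δ = F(y) - u det M(z) F(y) ∈ I ^ (n+1)` modulo `I ^ (n+1)` (`M(y) ≡ M(z)` modulo `I`,
`δ ∈ I ^ n`).
-/

namespace Pool.MP_a95293_nt.GV

open MvPolynomial

theorem taylor0 {R τ : Type*} [CommRing R] [Fintype τ] (J : Ideal R) (P : MvPolynomial τ ℤ)
    (z δ : τ → R) (hδ : ∀ i, δ i ∈ J) :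
    aeval (fun i => z i + δ i) P - aeval z P ∈ J := by
  rw [← Ideal.Quotient.eq_zero_iff_mem, map_sub, sub_eq_zero]
  have h1 : ∀ f : τ → R, Ideal.Quotient.mk J (aeval f P) = aeval (fun i => Ideal.Quotient.mk J (f i)) P := by
    intro f
    exact MvPolynomial.comp_aeval_apply f (Ideal.Quotient.mkₐ ℤ J) P
  rw [h1, h1]
  congr 2
  funext i
  rw [map_add, Ideal.Quotient.eq_zero_iff_mem.2 (hδ i), add_zero]

theorem taylor1 {R τ : Type*} [CommRing R] [Fintype τ] (J : Ideal R) (P : MvPolynomial τ ℤ)
    (z δ : τ → R) (hδ : ∀ i, δ i ∈ J) :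
    aeval (fun i => z i + δ i) P - aeval z P - ∑ i, δ i * aeval z (pderiv i P) ∈ J ^ 2 := by
  classical
  induction P using MvPolynomial.induction_on with
  | C a => simp
  | add P Q hP hQ =>
    have e : aeval (fun i => z i + δ i) (P + Q) - aeval z (P + Q) - ∑ i, δ i * aeval z (pderiv i (P + Q)) =
        (aeval (fun i => z i + δ i) P - aeval z P - ∑ i, δ i * aeval z (pderiv i P)) +
        (aeval (fun i => z i + δ i) Q - aeval z Q - ∑ i, δ i * aeval z (pderiv i Q)) := by
      simp only [map_add, mul_add, Finset.sum_add_distrib]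
      ring
    rw [e]
    exact add_mem hP hQ
  | mul_X P j hP =>
    have e0 : ∑ i, δ i * aeval z (pderiv i (P * X j)) =
        z j * (∑ i, δ i * aeval z (pderiv i P)) + δ j * aeval z P := by
      have : ∀ i, δ i * aeval z (pderiv i (P * X j)) =
          z j * (δ i * aeval z (pderiv i P)) + (if i = j then δ j * aeval z P else 0) := by
        intro i
        rw [pderiv_mul, map_add, map_mul, map_mul, aeval_X]
        by_cases hij : i = j
        · subst hij
          rw [pderiv_X_self, map_one, if_pos rfl]
          ring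
        · rw [pderiv_X_of_ne (fun h => hij h.symm), map_zero, if_neg hij]
          ring
      simp only [this]
      rw [Finset.sum_add_distrib, ← Finset.mul_sum, Finset.sum_ite_eq' Finset.univ j, if_pos (Finset.mem_univ j)]
    have e : aeval (fun i => z i + δ i) (P * X j) - aeval z (P * X j) - ∑ i, δ i * aeval z (pderiv i (P * X j)) =
        z j * (aeval (fun i => z i + δ i) P - aeval z P - ∑ i, δ i * aeval z (pderiv i P)) +
        δ j * (aeval (fun i => z i + δ i) P - aeval z P) := by
      rw [e0, map_mul, map_mul, aeval_X, aeval_X]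
      ring
    rw [e]
    refine add_mem (Ideal.mul_mem_left _ _ hP) ?_
    rw [pow_two]
    exact Ideal.mul_mem_mul (hδ j) (taylor0 J P z δ hδ)

private theorem sumH {R τ ι : Type*} [CommRing R] [Fintype τ] [Fintype ι] (v : ι → τ) (hv : Function.Injective v)
    (δ g : τ → R) (h : ∀ l, l ∉ Set.range v → δ l = 0) : ∑ l, δ l * g l = ∑ j, δ (v j) * g (v j) := by
  symm
  refine Fintype.sum_of_injective v hv _ _ ?_ (fun _ => rfl)
  intro l hl
  rw [h l hl, zero_mul]

private theorem detH {R τ ι : Type*} [CommRing R] [Fintype τ] [Fintype ι] [DecidableEq ι]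
    (I : Ideal R) (F : ι → MvPolynomial τ ℤ) (v : ι → τ) (z y : τ → R) (hy : ∀ j, y j - z j ∈ I) :
    (Matrix.of fun i j => aeval y (pderiv (v j) (F i))).det -
      (Matrix.of fun i j => aeval z (pderiv (v j) (F i))).det ∈ I := by
  rw [← Ideal.Quotient.eq_zero_iff_mem, map_sub, sub_eq_zero, RingHom.map_det, RingHom.map_det]
  congr 1
  ext i j
  simp only [RingHom.mapMatrix_apply, Matrix.map_apply, Matrix.of_apply]
  rw [← sub_eq_zero, ← map_sub, Ideal.Quotient.eq_zero_iff_mem]
  have h := taylor0 I (pderiv (v j) (F i)) z (fun l => y l - z l) hy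
  have e : (fun l => z l + (y l - z l)) = y := by
    funext l; ring
  rwa [e] at h

/-- Uniqueness. -/
theorem hensel_unique {R τ ι : Type*} [CommRing R] [Fintype τ] [Fintype ι] [DecidableEq ι]
    (I : Ideal R) (F : ι → MvPolynomial τ ℤ) (v : ι → τ) (hv : Function.Injective v) (z : τ → R)
    (u : R) (hu : u * (Matrix.of fun i j => aeval z (pderiv (v j) (F i))).det - 1 ∈ I) (n : ℕ)
    (y y' : τ → R) (hy : ∀ j, y j - z j ∈ I) (hy' : ∀ j, y' j - z j ∈ I)
    (hyy : ∀ j, j ∉ Set.range v → y j = y' j) (hF : ∀ i, aeval y (F i) ∈ I ^ n)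
    (hF' : ∀ i, aeval y' (F i) ∈ I ^ n) : ∀ j, y j - y' j ∈ I ^ n := by
  have key : ∀ k, 1 ≤ k → k ≤ n → ∀ j, y j - y' j ∈ I ^ k := by
    intro k hk
    induction k, hk using Nat.le_induction with
    | base =>
      intro _ j
      rw [pow_one]
      have := sub_mem (hy j) (hy' j)
      rwa [sub_sub_sub_cancel_right] at this
    | succ k hk ih =>
      intro hkn
      have ih := ih (by omega)
      let δ : τ → R := fun l => y l - y' l
      have hδ0 : ∀ l, l ∉ Set.range v → δ l = 0 := fun l hl => by
        show y l - y' l = 0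
        rw [hyy l hl, sub_self]
      let M' : Matrix ι ι R := Matrix.of fun i j => aeval y' (pderiv (v j) (F i))
      have hle : I ^ n ≤ I ^ (k + 1) := Ideal.pow_le_pow_right hkn
      have h1 : ∀ i, M'.mulVec (fun j => δ (v j)) i ∈ I ^ (k + 1) := by
        intro i
        have ht := taylor1 (I ^ k) (F i) y' δ ih
        have e : (fun l => y' l + δ l) = y := by
          funext l
          show y' l + (y l - y' l) = y l
          ring
        rw [e, sumH v hv δ _ hδ0] at ht
        have hle2 : (I ^ k) ^ 2 ≤ I ^ (k + 1) := by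
          rw [← pow_mul]
          exact Ideal.pow_le_pow_right (by omega)
        have h2 := sub_mem (sub_mem (hle (hF i)) (hle (hF' i))) (hle2 ht)
        rw [sub_sub_cancel] at h2
        have e2 : M'.mulVec (fun j => δ (v j)) i = ∑ j, δ (v j) * aeval y' (pderiv (v j) (F i)) := by
          simp only [Matrix.mulVec, dotProduct, M', Matrix.of_apply]
          exact Finset.sum_congr rfl fun j _ => mul_comm _ _
        rw [e2]
        exact h2
      have h3 : ∀ j, M'.det * δ (v j) ∈ I ^ (k + 1) := by
        intro j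
        have e : M'.det * δ (v j) = (M'.adjugate.mulVec (M'.mulVec fun j => δ (v j))) j := by
          rw [Matrix.mulVec_mulVec, Matrix.adjugate_mul, Matrix.smul_mulVec, Matrix.one_mulVec]
          rfl
        rw [e]
        simp only [Matrix.mulVec, dotProduct]
        refine sum_mem fun i _ => Ideal.mul_mem_left _ _ ?_
        exact h1 i
      have h4 : u * M'.det - 1 ∈ I := by
        have h5 := detH I F v z y' hy'
        have e : u * M'.det - 1 = u * (M'.det - (Matrix.of fun i j => aeval z (pderiv (v j) (F i))).det) +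
            (u * (Matrix.of fun i j => aeval z (pderiv (v j) (F i))).det - 1) := by ring
        rw [e]
        exact add_mem (Ideal.mul_mem_left _ _ h5) hu
      intro l
      by_cases hl : l ∈ Set.range v
      · obtain ⟨j, rfl⟩ := hl
        have e : y (v j) - y' (v j) = u * (M'.det * δ (v j)) - (u * M'.det - 1) * δ (v j) := by
          show δ (v j) = _
          ring
        rw [e]
        refine sub_mem (Ideal.mul_mem_left _ _ (h3 j)) ?_
        rw [pow_succ, mul_comm (I ^ k) I]
        exact Ideal.mul_mem_mul h4 (ih (v j))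
      · have : y l - y' l = 0 := hδ0 l hl
        rw [this]
        exact zero_mem _
  rcases Nat.eq_zero_or_pos n with h0 | hpos
  · subst h0
    intro j
    simp
  · exact key n hpos le_rfl

/-- Existence. -/
theorem hensel_exists {R τ ι : Type*} [CommRing R] [Fintype τ] [Fintype ι] [DecidableEq ι]
    (I : Ideal R) (F : ι → MvPolynomial τ ℤ) (v : ι → τ) (hv : Function.Injective v) (z : τ → R)
    (hF : ∀ i, aeval z (F i) ∈ I) (u : R)
    (hu : u * (Matrix.of fun i j => aeval z (pderiv (v j) (F i))).det - 1 ∈ I) (n : ℕ) :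
    ∃ y : τ → R, (∀ j, j ∉ Set.range v → y j = z j) ∧ (∀ j, y j - z j ∈ I) ∧
      ∀ i, aeval y (F i) ∈ I ^ n := by
  rcases Nat.eq_zero_or_pos n with h0 | hpos
  · subst h0
    exact ⟨z, fun _ _ => rfl, fun j => by simp, fun i => by simp⟩
  induction n, hpos using Nat.le_induction with
  | base => exact ⟨z, fun _ _ => rfl, fun j => by simp, fun i => by simpa using hF i⟩
  | succ n hn ih =>
    obtain ⟨y, hy1, hy2, hy3⟩ := ih
    let M : Matrix ι ι R := Matrix.of fun i j => aeval z (pderiv (v j) (F i))
    let b : ι → R := fun i => aeval y (F i)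
    let d : ι → R := fun j => - u * (M.adjugate.mulVec b) j
    let δ : τ → R := Function.extend v d 0
    have hδv : ∀ j, δ (v j) = d j := fun j => hv.extend_apply d 0 j
    have hδ0 : ∀ l, l ∉ Set.range v → δ l = 0 := fun l hl => by
      show Function.extend v d 0 l = 0
      rw [Function.extend_apply' _ _ _ (by simpa using hl)]
      rfl
    have hd : ∀ j, d j ∈ I ^ n := by
      intro j
      refine Ideal.mul_mem_left _ _ ?_
      simp only [Matrix.mulVec, dotProduct]
      exact sum_mem fun i _ => Ideal.mul_mem_left _ _ (hy3 i)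
    have hδ : ∀ l, δ l ∈ I ^ n := by
      intro l
      by_cases hl : l ∈ Set.range v
      · obtain ⟨j, rfl⟩ := hl
        rw [hδv]; exact hd j
      · rw [hδ0 l hl]; exact zero_mem _
    refine ⟨fun l => y l + δ l, ?_, ?_, ?_⟩
    · intro l hl
      show y l + δ l = z l
      rw [hδ0 l hl, add_zero, hy1 l hl]
    · intro l
      show y l + δ l - z l ∈ I
      have e : y l + δ l - z l = (y l - z l) + δ l := by ring
      rw [e]
      refine add_mem (hy2 l) ?_
      have := Ideal.pow_le_pow_right (I := I) hn (hδ l)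
      simpa using this
    · intro i
      have ht := taylor1 (I ^ n) (F i) y δ hδ
      rw [sumH v hv δ _ hδ0] at ht
      have hle2 : (I ^ n) ^ 2 ≤ I ^ (n + 1) := by
        rw [← pow_mul]
        exact Ideal.pow_le_pow_right (by omega)
      have h1 := hle2 ht
      have hM : ∑ j, δ (v j) * aeval z (pderiv (v j) (F i)) = - (u * M.det * b i) := by
        have e1 : ∑ j, δ (v j) * aeval z (pderiv (v j) (F i)) = M.mulVec d i := by
          simp only [Matrix.mulVec, dotProduct, M, Matrix.of_apply]
          exact Finset.sum_congr rfl fun j _ => by rw [hδv]; ring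
        have e2 : d = (-u) • (M.adjugate.mulVec b) := by
          funext j; rfl
        rw [e1, e2, Matrix.mulVec_smul, Matrix.mulVec_mulVec, Matrix.mul_adjugate, Matrix.smul_mulVec, Matrix.one_mulVec]
        simp only [Pi.smul_apply, smul_eq_mul]
        ring
      have hdiff : ∀ j, δ (v j) * aeval y (pderiv (v j) (F i)) - δ (v j) * aeval z (pderiv (v j) (F i)) ∈ I ^ (n + 1) := by
        intro j
        rw [← mul_sub, pow_succ]
        refine Ideal.mul_mem_mul (hδ _) ?_
        have h := taylor0 I (pderiv (v j) (F i)) z (fun l => y l - z l) hy2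
        have e : (fun l => z l + (y l - z l)) = y := by
          funext l; ring
        rwa [e] at h
      have hsum : ∑ j, δ (v j) * aeval y (pderiv (v j) (F i)) - ∑ j, δ (v j) * aeval z (pderiv (v j) (F i)) ∈ I ^ (n + 1) := by
        rw [← Finset.sum_sub_distrib]
        exact sum_mem fun j _ => hdiff j
      rw [hM] at hsum
      have hb : (u * M.det - 1) * b i ∈ I ^ (n + 1) := by
        rw [pow_succ, mul_comm (I ^ n) I]
        exact Ideal.mul_mem_mul hu (hy3 i)
      have := sub_mem (add_mem h1 hsum) hb
      convert this using 1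
      ring

end Pool.MP_a95293_nt.GV
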