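import Pool.Agent.Lib_MP_a95293_gv.Defs
import Pool.Agent.Lib_MP_a95293_gv.Hens

/-!
# THEOREM G, piece Chart: the p-adic chart of a system of equations

`H_i = 0` (`i : Fin n`), unknown coordinates `f i`, parameters `T_k = z_(g k) - z0_(g k)` (`k : Fin d`); `f`, `g` injective, disjoint, together all of `Fin v`.
`I = II p d = (p, X_k)` in `R = MvPolynomial (Fin d) ℤ`.

Proof. Base point `ζ : Fin v → R`, `ζ_(g k) = C (z0 (g k)) + X k`, `ζ_(f i) = C (z0 (f i))` (define `ζ j = C (z0 j) + ∑ k, if g k = j then X k else 0`), so `ζ_j - C (z0 j) ∈ I`.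
`aeval ζ P - C (eval z0 P) ∈ I` for all `P` (`taylor0` with base point `fun j => C (z0 j)`; `aeval (fun j => C (z0 j)) P = C (eval z0 P)`).
`aeval ζ (H i) ∈ I` by `hH`; the determinant of the matrix at `ζ` is congruent to `C (det (jac H f z0))` modulo `I` (map to `R ⧸ I`, `RingHom.map_det`); with `u * det + w * p = 1` from `hdet`
we get `C u * det - 1 ∈ I`. `hensel_exists` gives `γ` with `γ_j = ζ_j` outside `range f`, `γ_j - ζ_j ∈ I`, `aeval γ (H i) ∈ I ^ N`.
For `z` as in the last statement let `ev = eval T : R → ℤ`, `T_k = z (g k) - z0 (g k)`, `p ∣ T_k`; `ev` maps `I` into `(p)` and `I ^ N` into `(p) ^ N = (p ^ N)` (`Ideal.map_pow`, `Ideal.span_singleton_pow`,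
`Ideal.mem_span_singleton`). So `ev ∘ γ` and `z` are solutions modulo `(p) ^ N` in `ℤ` with the same parameter coordinates, congruent to `z0` modulo `p`
(`ev (aeval γ P) = eval (ev ∘ γ) P`, `aeval z P = eval z P` over `ℤ`): `hensel_unique` with `R = ℤ`, `I = Ideal.span {p}`, base point `z0`.
-/

namespace Pool.MP_a95293_nt.GV

open MvPolynomial

variable {v n d : ℕ}

private theorem Chart_aevalC (z0 : Fin v → ℤ) (P : MvPolynomial (Fin v) ℤ) :
    aeval (fun j => (C (z0 j) : MvPolynomial (Fin d) ℤ)) P = C (eval z0 P) := by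
  induction P using MvPolynomial.induction_on with
  | C a => simp
  | add P Q hP hQ => rw [map_add, map_add, map_add, hP, hQ]
  | mul_X P j hP => rw [map_mul, map_mul, map_mul, hP, aeval_X, eval_X]

private theorem Chart_inst {R : Type} [CommRing R] (i1 i2 : Algebra ℤ R) (γ : Fin v → R)
    (P : MvPolynomial (Fin v) ℤ) :
    @aeval ℤ R (Fin v) _ _ i1 γ P = @aeval ℤ R (Fin v) _ _ i2 γ P := by
  have : i1 = i2 := Subsingleton.elim _ _
  rw [this]

private theorem Chart_instM (γ : Fin v → MvPolynomial (Fin d) ℤ) (P : MvPolynomial (Fin v) ℤ) :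
    @aeval ℤ (MvPolynomial (Fin d) ℤ) (Fin v) _ _ (Ring.toIntAlgebra _) γ P = aeval γ P :=
  Chart_inst _ _ γ P

private theorem Chart_evalA (γ : Fin v → MvPolynomial (Fin d) ℤ) (T : Fin d → ℤ)
    (P : MvPolynomial (Fin v) ℤ) :
    eval T (aeval γ P) = @aeval ℤ ℤ (Fin v) _ _ (Ring.toIntAlgebra _) (fun j => eval T (γ j)) P := by
  rw [Chart_inst _ (Algebra.id ℤ)]
  induction P using MvPolynomial.induction_on with
  | C a => simp
  | add P Q hP hQ => rw [map_add, map_add, map_add, hP, hQ]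
  | mul_X P j hP => rw [map_mul, map_mul, map_mul, hP, aeval_X, aeval_X]

private theorem Chart_aevalZ (z : Fin v → ℤ) (P : MvPolynomial (Fin v) ℤ) :
    @aeval ℤ ℤ (Fin v) _ _ (Ring.toIntAlgebra _) z P = eval z P := by
  rw [Chart_inst _ (Algebra.id ℤ)]
  induction P using MvPolynomial.induction_on with
  | C a => simp
  | add P Q hP hQ => rw [map_add, map_add, hP, hQ]
  | mul_X P j hP => rw [map_mul, map_mul, hP, aeval_X, eval_X]

theorem chart (p N : ℕ) (H : Fin n → MvPolynomial (Fin v) ℤ) (f : Fin n → Fin v)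
    (g : Fin d → Fin v) (hf : Function.Injective f) (hg : Function.Injective g)
    (hfg : ∀ i k, f i ≠ g k) (hcov : ∀ j, (∃ i, f i = j) ∨ ∃ k, g k = j) (z0 : Fin v → ℤ)
    (hH : ∀ i, (p : ℤ) ∣ eval z0 (H i)) (hdet : IsCoprime (jac H f z0).det (p : ℤ)) :
    ∃ γ : Fin v → MvPolynomial (Fin d) ℤ, (∀ k, γ (g k) = C (z0 (g k)) + X k) ∧
      (∀ j, γ j - C (z0 j) ∈ II p d) ∧ (∀ i, aeval γ (H i) ∈ II p d ^ N) ∧
      ∀ z : Fin v → ℤ, (∀ i, (p : ℤ) ∣ z i - z0 i) → (∀ i, (p : ℤ) ^ N ∣ eval z (H i)) →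
        ∀ j, (p : ℤ) ^ N ∣ z j - eval (fun k => z (g k) - z0 (g k)) (γ j) := by
  classical
  set I := II p d with hI
  have hCp : ∀ a : ℤ, (p : ℤ) ∣ a → (C a : MvPolynomial (Fin d) ℤ) ∈ I := by
    rintro _ ⟨b, rfl⟩
    rw [C_mul]
    exact Ideal.mul_mem_right _ _ (Ideal.subset_span (Or.inl rfl))
  have hX : ∀ k, (X k : MvPolynomial (Fin d) ℤ) ∈ I := fun k =>
    Ideal.subset_span (Or.inr ⟨k, rfl⟩)
  set del : Fin v → MvPolynomial (Fin d) ℤ := fun j => ∑ k, if g k = j then X k else 0 with hdel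
  have hdelI : ∀ j, del j ∈ I := by
    intro j
    refine sum_mem fun k _ => ?_
    split_ifs
    · exact hX k
    · exact zero_mem _
  have hdelg : ∀ k, del (g k) = X k := by
    intro k
    show (∑ k', if g k' = g k then (X k' : MvPolynomial (Fin d) ℤ) else 0) = X k
    rw [Finset.sum_eq_single k]
    · rw [if_pos rfl]
    · intro k' _ hk'
      rw [if_neg fun h => hk' (hg h)]
    · intro h
      exact absurd (Finset.mem_univ k) h
  set ζ : Fin v → MvPolynomial (Fin d) ℤ := fun j => C (z0 j) + del j with hζ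
  have hζI : ∀ P, aeval ζ P - C (eval z0 P) ∈ I := by
    intro P
    have h := taylor0 I P (fun j => (C (z0 j) : MvPolynomial (Fin d) ℤ)) del hdelI
    rwa [Chart_instM, Chart_instM, Chart_aevalC] at h
  have hF : ∀ i, aeval ζ (H i) ∈ I := by
    intro i
    have h := add_mem (hζI (H i)) (hCp _ (hH i))
    rwa [sub_add_cancel] at h
  obtain ⟨a, b, hab⟩ := hdet
  have hdetI : (Matrix.of fun i j => aeval ζ (pderiv (f j) (H i))).det -
      C ((jac H f z0).det) ∈ I := by
    rw [← Ideal.Quotient.eq_zero_iff_mem, map_sub, sub_eq_zero, RingHom.map_det, RingHom.map_det,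
      RingHom.map_det]
    congr 1
    ext i j
    simp only [RingHom.mapMatrix_apply, Matrix.map_apply, Matrix.of_apply, jac]
    rw [← sub_eq_zero, ← map_sub, Ideal.Quotient.eq_zero_iff_mem]
    exact hζI _
  have hu : C a * (Matrix.of fun i j => aeval ζ (pderiv (f j) (H i))).det - 1 ∈ I := by
    have h1 := Ideal.mul_mem_left I (C a) hdetI
    have h2 := hCp (a * (jac H f z0).det - 1) ⟨-b, by linear_combination hab⟩
    have h3 := add_mem h1 h2
    convert h3 using 1
    rw [C_sub, C_mul, C_1]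
    ring
  obtain ⟨γ, hγ1, hγ2, hγ3⟩ := hensel_exists I H f hf ζ
    (fun i => by rw [Chart_instM]; exact hF i) (C a) (by simp only [Chart_instM]; exact hu) N
  simp only [Chart_instM] at hγ3
  have hγg : ∀ k, γ (g k) = C (z0 (g k)) + X k := by
    intro k
    rw [hγ1 (g k) (by rintro ⟨i, hi⟩; exact hfg i k hi)]
    show C (z0 (g k)) + del (g k) = _
    rw [hdelg]
  have hγI : ∀ j, γ j - C (z0 j) ∈ I := by
    intro j
    have h := add_mem (hγ2 j) (hdelI j)
    convert h using 1
    show _ = γ j - (C (z0 j) + del j) + del j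
    ring
  refine ⟨γ, hγg, hγI, hγ3, ?_⟩
  intro z hz hzH j
  set T : Fin d → ℤ := fun k => z (g k) - z0 (g k) with hT
  have hle : I ≤ Ideal.comap (eval T) (Ideal.span {(p : ℤ)}) := by
    rw [hI, II, Ideal.span_le]
    rintro x (hx | ⟨k, rfl⟩)
    · rw [Set.mem_singleton_iff.1 hx]
      show eval T (C (p : ℤ)) ∈ Ideal.span {(p : ℤ)}
      rw [eval_C]
      exact Ideal.mem_span_singleton_self _
    · show eval T (X k) ∈ Ideal.span {(p : ℤ)}
      rw [eval_X, Ideal.mem_span_singleton]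
      exact hz (g k)
  have hleN : I ^ N ≤ Ideal.comap (eval T) (Ideal.span {(p : ℤ)} ^ N) :=
    (Ideal.pow_right_mono hle N).trans (Ideal.le_comap_pow _ N)
  have huZ : a * (Matrix.of fun i j => @aeval ℤ ℤ (Fin v) _ _ (Ring.toIntAlgebra _) z0
      (pderiv (f j) (H i))).det - 1 ∈ Ideal.span {(p : ℤ)} := by
    have e : (Matrix.of fun i j => @aeval ℤ ℤ (Fin v) _ _ (Ring.toIntAlgebra _) z0
        (pderiv (f j) (H i))) = jac H f z0 := by
      ext i j
      simp only [Matrix.of_apply, jac]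
      exact Chart_aevalZ _ _
    rw [e, Ideal.mem_span_singleton]
    exact ⟨-b, by linear_combination hab⟩
  have key := hensel_unique (Ideal.span {(p : ℤ)}) H f hf z0 a huZ N z
    (fun j => eval T (γ j)) (fun j => Ideal.mem_span_singleton.2 (hz j)) ?_ ?_ ?_ ?_ j
  · rw [Ideal.span_singleton_pow, Ideal.mem_span_singleton] at key
    exact key
  · intro j
    have h : eval T (γ j - C (z0 j)) ∈ Ideal.span {(p : ℤ)} := hle (hγI j)
    rwa [map_sub, eval_C] at h
  · intro j hj
    rcases hcov j with ⟨i, hi⟩ | ⟨k, rfl⟩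
    · exact absurd ⟨i, hi⟩ hj
    · rw [hγg, map_add, eval_C, eval_X]
      show z (g k) = z0 (g k) + (z (g k) - z0 (g k))
      ring
  · intro i
    rw [Chart_aevalZ, Ideal.span_singleton_pow, Ideal.mem_span_singleton]
    exact hzH i
  · intro i
    have h : eval T (aeval γ (H i)) ∈ Ideal.span {(p : ℤ)} ^ N := hleN (hγ3 i)
    rwa [Chart_evalA] at h

end Pool.MP_a95293_nt.GV
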