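import Mathlib

/-!
# THEOREM G, piece Pig: the p-adic Siegel lemma (pigeonhole)

`f_i` (`i ∈ ι`) are integer functions on a set `S`, modulo `p ^ n` combinations of the functions `p ^ ν_e * g_e` (`e ∈ ε`).
If `∑_e (n - ν_e) ≤ h * |ι|` (truncated subtraction) there are integers `c_i`, not all zero, `|c_i| ≤ p ^ h`, with
`∑ c_i f_i = 0` modulo `p ^ n` on `S`.

Proof. Consider the map from `ι → Fin (p ^ h + 1)` to `(e : ε) → ZMod (p ^ (n - ν_e))`, `c ↦ ∑_i c_i b_{i,e}`. The number of sources is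
`(p ^ h + 1) ^ |ι| > p ^ (h |ι|) ≥ ∏_e p ^ (n - ν_e)`, the number of targets (`ι` is not empty; `Fintype.card_pi`, `ZMod.card`;
`p ^ k ≥ 1` needs the instance `NeZero`). By `Fintype.exists_ne_map_eq_of_card_lt` two different `c, c'` have the same image; the difference
`d` works: `|d_i| ≤ p ^ h`, `p ^ (n - ν_e) ∣ ∑_i d_i b_{i,e}`, so
`∑_i d_i f_i(z) ≡ ∑_e (∑_i d_i b_{i,e}) p ^ ν_e g_e(z) ≡ 0` modulo `p ^ n` (`n - ν_e + ν_e ≥ n`).
-/

namespace Pool.MP_a95293_nt.GV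

theorem pig {α ι ε : Type*} [Fintype ι] [Nonempty ι] [Fintype ε] (S : Set α) (p n h : ℕ) (hp : 1 ≤ p)
    (ν : ε → ℕ) (b : ι → ε → ℤ) (f : ι → α → ℤ) (g : ε → α → ℤ)
    (hf : ∀ i, ∀ z ∈ S, (p : ℤ) ^ n ∣ f i z - ∑ e, b i e * ((p : ℤ) ^ ν e * g e z))
    (hcard : ∑ e, (n - ν e) ≤ h * Fintype.card ι) :
    ∃ c : ι → ℤ, c ≠ 0 ∧ (∀ i, |c i| ≤ (p : ℤ) ^ h) ∧
      ∀ z ∈ S, (p : ℤ) ^ n ∣ ∑ i, c i * f i z := by
  classical
  have hne : ∀ e : ε, NeZero (p ^ (n - ν e)) := fun e => ⟨by positivity⟩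
  let φ : (ι → Fin (p ^ h + 1)) → ((e : ε) → ZMod (p ^ (n - ν e))) := fun c e =>
    ((∑ i, ((c i : ℕ) : ℤ) * b i e : ℤ) : ZMod (p ^ (n - ν e)))
  have hc : Fintype.card ((e : ε) → ZMod (p ^ (n - ν e))) < Fintype.card (ι → Fin (p ^ h + 1)) := by
    rw [Fintype.card_pi, Fintype.card_fun, Fintype.card_fin]
    have h1 : ∏ e, Fintype.card (ZMod (p ^ (n - ν e))) = p ^ ∑ e, (n - ν e) := by
      rw [← Finset.prod_pow_eq_pow_sum]
      exact Finset.prod_congr rfl fun e _ => ZMod.card _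
    rw [h1]
    calc p ^ ∑ e, (n - ν e) ≤ p ^ (h * Fintype.card ι) := Nat.pow_le_pow_right hp hcard
      _ = (p ^ h) ^ Fintype.card ι := pow_mul _ _ _
      _ < (p ^ h + 1) ^ Fintype.card ι :=
          Nat.pow_lt_pow_left (Nat.lt_succ_self _) Fintype.card_ne_zero
  obtain ⟨c, c', hcc, hφ⟩ := Fintype.exists_ne_map_eq_of_card_lt φ hc
  refine ⟨fun i => ((c i : ℕ) : ℤ) - ((c' i : ℕ) : ℤ), ?_, ?_, ?_⟩
  · intro h0
    apply hcc
    funext i
    have h1 := congrFun h0 i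
    simp only [Pi.zero_apply] at h1
    exact Fin.ext (by omega)
  · intro i
    have h1 := (c i).2
    have h2 := (c' i).2
    have h3 : ((p ^ h : ℕ) : ℤ) = (p : ℤ) ^ h := by push_cast; rfl
    show |((c i : ℕ) : ℤ) - ((c' i : ℕ) : ℤ)| ≤ (p : ℤ) ^ h
    rw [← h3, abs_le]
    constructor <;> omega
  · intro z hz
    have hd : ∀ e, (p : ℤ) ^ (n - ν e) ∣ ∑ i, (((c i : ℕ) : ℤ) - ((c' i : ℕ) : ℤ)) * b i e := by
      intro e
      have h1 : ((∑ i, ((c i : ℕ) : ℤ) * b i e : ℤ) : ZMod (p ^ (n - ν e))) =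
          ((∑ i, ((c' i : ℕ) : ℤ) * b i e : ℤ) : ZMod (p ^ (n - ν e))) := congrFun hφ e
      have h2 := (ZMod.intCast_eq_intCast_iff_dvd_sub _ _ _).1 h1.symm
      rw [← Finset.sum_sub_distrib] at h2
      push_cast at h2
      have h3 : ∑ i, (((c i : ℕ) : ℤ) * b i e - ((c' i : ℕ) : ℤ) * b i e) =
          ∑ i, (((c i : ℕ) : ℤ) - ((c' i : ℕ) : ℤ)) * b i e :=
        Finset.sum_congr rfl fun i _ => (sub_mul _ _ _).symm
      rw [h3] at h2
      exact h2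
    have key : ∑ i, (((c i : ℕ) : ℤ) - ((c' i : ℕ) : ℤ)) * f i z =
        ∑ i, (((c i : ℕ) : ℤ) - ((c' i : ℕ) : ℤ)) *
          (f i z - ∑ e, b i e * ((p : ℤ) ^ ν e * g e z)) +
        ∑ e, (∑ i, (((c i : ℕ) : ℤ) - ((c' i : ℕ) : ℤ)) * b i e) * ((p : ℤ) ^ ν e * g e z) := by
      have h1 : ∑ e, (∑ i, (((c i : ℕ) : ℤ) - ((c' i : ℕ) : ℤ)) * b i e) *
          ((p : ℤ) ^ ν e * g e z) =
          ∑ i, (((c i : ℕ) : ℤ) - ((c' i : ℕ) : ℤ)) *
            ∑ e, b i e * ((p : ℤ) ^ ν e * g e z) := by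
        simp only [Finset.sum_mul, Finset.mul_sum]
        rw [Finset.sum_comm]
        refine Finset.sum_congr rfl fun i _ => Finset.sum_congr rfl fun e _ => ?_
        ring
      rw [h1, ← Finset.sum_add_distrib]
      refine Finset.sum_congr rfl fun i _ => ?_
      ring
    rw [key]
    refine dvd_add (Finset.dvd_sum fun i _ => (hf i z hz).mul_left _)
      (Finset.dvd_sum fun e _ => ?_)
    obtain ⟨k, hk⟩ := hd e
    rw [hk]
    have h1 : (p : ℤ) ^ n ∣ (p : ℤ) ^ (n - ν e + ν e) := pow_dvd_pow _ (by omega)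
    have h2 : (p : ℤ) ^ (n - ν e) * k * ((p : ℤ) ^ ν e * g e z) =
        (p : ℤ) ^ (n - ν e + ν e) * (k * g e z) := by
      rw [pow_add]
      ring
    rw [h2]
    exact h1.mul_right _

end Pool.MP_a95293_nt.GV
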