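import Pool.Agent.Lib_MP_a95293_gv.Defs
import Pool.Agent.Lib_MP_a95293_gv.Pig

/-!
# THEOREM G, piece Poly: small polynomials in `d + 1` coordinates that vanish on a class with `d` parameters

Let `a = (d + 1) κ + 1`, `h = a ^ (d + 1)`, `r = h + 1`, `N0 = r a`, `D = (d + 1) r`, `b = 2 h + 1`, `B0 = r ^ (d + 1) + 1`. So `N0 = (d + 1) κ r + h + 1` and `N0 ^ (d + 1) = h r ^ (d + 1)`.

Index set `ι = K → Fin r` (functions on the subtype `{x // x ∈ K}`), `r ^ (d + 1)` elements; `f_e(z) = ∏_(i ∈ K) z_i ^ (e_i)`, which is `eval T φ_e` modulo `p ^ N0`, `φ_e = ∏_(i ∈ K) γ_i ^ (e_i)`,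
`T_k = z (g k) - z0 (g k) = p s_k`. `eval T φ = ∑_(m ∈ support) coeff m φ * p ^ |m| * ∏ s_k ^ (m_k)`; the terms with some `m_k ≥ N0` vanish modulo `p ^ N0`. So `pig` applies with
`ε = Fin d → Fin N0`, `ν_m = ∑ m_k`, `g_m(z) = ∏ s_k ^ (m_k)`: `∑_m (N0 - ν_m) ≤ N0 ^ d * N0 = h r ^ (d + 1)`. We get `c ≠ 0`, `|c_e| ≤ p ^ h ≤ B ^ (2 h)`, and
`P = ∑_e c_e ∏_(i ∈ K) X_i ^ (e_i)`: `P ≠ 0` (the monomials are different), total degree `≤ (d + 1) r`, sum of the absolute values of the coefficients `≤ r ^ (d+1) B ^ (2 h) ≤ B ^ (2 h + 1)`, `pderiv i P = 0` for `i ∉ K`, `p ^ N0 ∣ P(z)` and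
`|P(z)| ≤ r ^ (d + 1) p ^ h B ^ (κ (d + 1) (r - 1)) < p ^ (1 + h + κ (d + 1) (r - 1)) ≤ p ^ N0` (`r ^ (d+1) < B < p`), so `P(z) = 0` (`Int.eq_zero_of_abs_lt_dvd`).
-/

namespace Pool.MP_a95293_nt.GV

open MvPolynomial

private theorem Poly_red {d : ℕ} (p N : ℕ) (T s : Fin d → ℤ) (hT : ∀ k, T k = (p : ℤ) * s k)
    (φ : MvPolynomial (Fin d) ℤ) :
    (p : ℤ) ^ N ∣ eval T φ - ∑ m : Fin d → Fin N,
      coeff (Finsupp.equivFunOnFinite.symm fun k => (m k : ℕ)) φ *
        ((p : ℤ) ^ (∑ k, (m k : ℕ)) * ∏ k, s k ^ (m k : ℕ)) := by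
  classical
  induction φ using MvPolynomial.induction_on' with
  | monomial x c =>
    have h0 : eval T (monomial x c) = c * ((p : ℤ) ^ (∑ k, x k) * ∏ k, s k ^ x k) := by
      rw [eval_monomial, Finsupp.prod_fintype _ _ fun _ => pow_zero _,
        ← Finset.prod_pow_eq_pow_sum, ← Finset.prod_mul_distrib]
      congr 1
      refine Finset.prod_congr rfl fun k _ => ?_
      rw [hT, mul_pow]
    by_cases hx : ∀ k, x k < N
    · have h1 : ∑ m : Fin d → Fin N,
          coeff (Finsupp.equivFunOnFinite.symm fun k => (m k : ℕ)) (monomial x c) *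
          ((p : ℤ) ^ (∑ k, (m k : ℕ)) * ∏ k, s k ^ (m k : ℕ)) =
          c * ((p : ℤ) ^ (∑ k, x k) * ∏ k, s k ^ x k) := by
        rw [Finset.sum_eq_single (fun k => (⟨x k, hx k⟩ : Fin N))]
        · rw [coeff_monomial, if_pos]
          ext k
          rfl
        · intro m _ hm
          rw [coeff_monomial, if_neg, zero_mul]
          intro h
          apply hm
          funext k
          apply Fin.ext
          have h2 := DFunLike.congr_fun h k
          exact h2.symm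
        · intro h
          exact absurd (Finset.mem_univ _) h
      rw [h0, h1, sub_self]
      exact dvd_zero _
    · push Not at hx
      obtain ⟨k0, hk0⟩ := hx
      have h1 : ∑ m : Fin d → Fin N,
          coeff (Finsupp.equivFunOnFinite.symm fun k => (m k : ℕ)) (monomial x c) *
          ((p : ℤ) ^ (∑ k, (m k : ℕ)) * ∏ k, s k ^ (m k : ℕ)) = 0 := by
        refine Finset.sum_eq_zero fun m _ => ?_
        rw [coeff_monomial, if_neg, zero_mul]
        intro h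
        have h2 := DFunLike.congr_fun h k0
        have h3 : x k0 = (m k0 : ℕ) := h2
        have h4 := (m k0).2
        omega
      rw [h0, h1, sub_zero]
      refine Dvd.dvd.mul_left (Dvd.dvd.mul_right (pow_dvd_pow _ ?_) _) _
      exact hk0.trans (Finset.single_le_sum (f := fun k => x k) (fun _ _ => Nat.zero_le _)
        (Finset.mem_univ k0))
  | add P Q hP hQ =>
    have h := dvd_add hP hQ
    refine (dvd_of_eq rfl).trans (h.trans (dvd_of_eq ?_))
    rw [map_add]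
    simp only [coeff_add, add_mul, Finset.sum_add_distrib]
    ring

theorem poly (v κ d : ℕ) : ∃ D b B0 N0 : ℕ, ∀ B p : ℕ, B0 ≤ B → B < p → p ≤ B ^ 2 →
    ∀ (S : Finset (Fin v → ℤ)) (z0 : Fin v → ℤ) (γ : Fin v → MvPolynomial (Fin d) ℤ)
      (g : Fin d → Fin v) (K : Finset (Fin v)), K.card = d + 1 →
      (∀ z ∈ S, (∀ i, |z i| ≤ (B : ℤ) ^ κ) ∧ (∀ i, (p : ℤ) ∣ z i - z0 i) ∧
        ∀ i, (p : ℤ) ^ N0 ∣ z i - eval (fun k => z (g k) - z0 (g k)) (γ i)) →
      ∃ P : MvPolynomial (Fin v) ℤ, P ≠ 0 ∧ Bd B D b P ∧ (∀ i, i ∉ K → pderiv i P = 0) ∧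
        ∀ z ∈ S, eval z P = 0 := by
  classical
  obtain ⟨a, ha⟩ : ∃ a, a = (d + 1) * κ + 1 := ⟨_, rfl⟩
  obtain ⟨h, hh⟩ : ∃ h, h = a ^ (d + 1) := ⟨_, rfl⟩
  refine ⟨(d + 1) * (h + 1), 2 * h + 1, (h + 1) ^ (d + 1) + 1, (h + 1) * a, ?_⟩
  intro B p hB hBp hpB S z0 γ g K hK hS
  obtain ⟨N0, hN0⟩ : ∃ N, N = (h + 1) * a := ⟨_, rfl⟩
  rw [← hN0] at hS
  have hN1 : 1 + h + κ * ((d + 1) * h) ≤ N0 := by
    rw [hN0, ha]
    nlinarith
  have hp1 : 1 ≤ p := by omega
  have hcard : Fintype.card ({x // x ∈ K} → Fin (h + 1)) = (h + 1) ^ (d + 1) := by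
    rw [Fintype.card_fun, Fintype.card_fin, Fintype.card_coe, hK]
  obtain ⟨T, hT⟩ : ∃ T : (Fin v → ℤ) → Fin d → ℤ, T = fun z k => z (g k) - z0 (g k) := ⟨_, rfl⟩
  obtain ⟨φ, hφ⟩ : ∃ φ : ({x // x ∈ K} → Fin (h + 1)) → MvPolynomial (Fin d) ℤ,
    φ = fun e => ∏ i : {x // x ∈ K}, γ i.1 ^ (e i : ℕ) := ⟨_, rfl⟩
  obtain ⟨f, hf⟩ : ∃ f : ({x // x ∈ K} → Fin (h + 1)) → (Fin v → ℤ) → ℤ,
    f = fun e z => ∏ i : {x // x ∈ K}, z i.1 ^ (e i : ℕ) := ⟨_, rfl⟩
  obtain ⟨c, hc0, hc1, hc2⟩ := pig (S : Set (Fin v → ℤ)) p N0 h hp1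
    (fun m : Fin d → Fin N0 => ∑ k, (m k : ℕ))
    (fun e m => coeff (Finsupp.equivFunOnFinite.symm fun k => (m k : ℕ)) (φ e)) f
    (fun m z => ∏ k, (T z k / (p : ℤ)) ^ (m k : ℕ)) (by
      intro e z hz
      obtain ⟨_, h2, h3⟩ := hS z hz
      have hTs : ∀ k, T z k = (p : ℤ) * (T z k / (p : ℤ)) := by
        intro k
        rw [hT]
        exact (Int.mul_ediv_cancel' (h2 (g k))).symm
      have h4 := Poly_red p N0 (T z) (fun k => T z k / (p : ℤ)) hTs (φ e)
      have h5 : (p : ℤ) ^ N0 ∣ f e z - eval (T z) (φ e) := by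
        have h6 : ∀ i, ((z i : ℤ) : ZMod (p ^ N0)) =
            ((eval (T z) (γ i) : ℤ) : ZMod (p ^ N0)) := by
          intro i
          have h7 := h3 i
          rw [eq_comm, ZMod.intCast_eq_intCast_iff_dvd_sub, Nat.cast_pow]
          rw [hT]
          exact h7
        have h8 : ((f e z : ℤ) : ZMod (p ^ N0)) = ((eval (T z) (φ e) : ℤ) : ZMod (p ^ N0)) := by
          rw [hf, hφ]
          simp only [map_prod, map_pow, Int.cast_prod, Int.cast_pow, h6]
        rw [eq_comm, ZMod.intCast_eq_intCast_iff_dvd_sub, Nat.cast_pow] at h8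
        exact h8
      have h9 := dvd_add h5 h4
      rwa [sub_add_sub_cancel] at h9) (by
      calc ∑ m : Fin d → Fin N0, (N0 - ∑ k, (m k : ℕ)) ≤ ∑ _m : Fin d → Fin N0, N0 :=
            Finset.sum_le_sum fun _ _ => Nat.sub_le _ _
        _ = N0 ^ (d + 1) := by
          rw [Finset.sum_const, Finset.card_univ, Fintype.card_fun, Fintype.card_fin,
            Fintype.card_fin, smul_eq_mul, pow_succ]
        _ = h * Fintype.card ({x // x ∈ K} → Fin (h + 1)) := by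
          rw [hcard, hN0, mul_pow, ← hh, mul_comm])
  -- the exponents
  obtain ⟨xp, hxp⟩ : ∃ xp : ({x // x ∈ K} → Fin (h + 1)) → (Fin v →₀ ℕ),
    xp = fun e => Finsupp.equivFunOnFinite.symm fun i =>
      if hi : i ∈ K then (e ⟨i, hi⟩ : ℕ) else 0 := ⟨_, rfl⟩
  have hx1 : ∀ e (i : {x // x ∈ K}), xp e i.1 = (e i : ℕ) := by
    intro e i
    rw [hxp]
    exact dif_pos i.2
  have hx2 : ∀ e (i : Fin v), i ∉ K → xp e i = 0 := by
    intro e i hi
    rw [hxp]
    exact dif_neg hi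
  have hxi : Function.Injective xp := by
    intro e e' he
    funext i
    apply Fin.ext
    rw [← hx1, ← hx1, he]
  have hx3 : ∀ e i, xp e i ≤ if i ∈ K then h else 0 := by
    intro e i
    by_cases hi : i ∈ K
    · rw [if_pos hi, hx1 e ⟨i, hi⟩]
      exact Nat.lt_succ_iff.1 (e ⟨i, hi⟩).2
    · rw [if_neg hi, hx2 e i hi]
  have hx4 : ∀ e, ∑ i, xp e i ≤ (d + 1) * h := by
    intro e
    refine (Finset.sum_le_sum fun i _ => hx3 e i).trans ?_
    rw [Finset.sum_ite_mem, Finset.univ_inter, Finset.sum_const, hK, smul_eq_mul]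
  obtain ⟨P, hP⟩ : ∃ P : MvPolynomial (Fin v) ℤ, P = ∑ e, monomial (xp e) (c e) := ⟨_, rfl⟩
  have hcoef : ∀ e, coeff (xp e) P = c e := by
    intro e
    rw [hP, coeff_sum, Finset.sum_eq_single e]
    · rw [coeff_monomial, if_pos rfl]
    · intro e' _ he
      rw [coeff_monomial, if_neg fun h1 => he (hxi h1)]
    · intro h1
      exact absurd (Finset.mem_univ _) h1
  have hcoef0 : ∀ m, m ∉ Finset.univ.image xp → coeff m P = 0 := by
    intro m hm
    rw [hP, coeff_sum]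
    refine Finset.sum_eq_zero fun e _ => ?_
    rw [coeff_monomial, if_neg]
    intro h1
    exact hm (Finset.mem_image.2 ⟨e, Finset.mem_univ _, h1⟩)
  have hev : ∀ z, eval z P = ∑ e, c e * f e z := by
    intro z
    rw [hP, map_sum]
    refine Finset.sum_congr rfl fun e _ => ?_
    rw [eval_monomial, Finsupp.prod_fintype _ _ fun _ => pow_zero _]
    congr 1
    rw [hf]
    have h1 : ∏ i, z i ^ xp e i = ∏ i ∈ K, z i ^ xp e i :=
      (Finset.prod_subset (Finset.subset_univ K) fun i _ hi => by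
        rw [hx2 e i hi, pow_zero]).symm
    rw [h1, ← Finset.prod_attach K fun i => z i ^ xp e i, ← Finset.univ_eq_attach]
    refine Finset.prod_congr rfl fun i _ => ?_
    rw [hx1]
  have hsum : ∑ e, |c e| ≤ ((h : ℤ) + 1) ^ (d + 1) * (p : ℤ) ^ h := by
    refine (Finset.sum_le_card_nsmul _ _ _ fun e _ => hc1 e).trans (le_of_eq ?_)
    rw [Finset.card_univ, hcard, nsmul_eq_mul]
    push_cast
    rfl
  have hB1 : ((h : ℤ) + 1) ^ (d + 1) < B := by
    have h1 : (h + 1) ^ (d + 1) < B := by omega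
    exact_mod_cast h1
  have hB0 : (0 : ℤ) < B := lt_of_le_of_lt (by positivity) hB1
  have hpB' : (p : ℤ) ≤ (B : ℤ) ^ 2 := by exact_mod_cast hpB
  have hBp' : (B : ℤ) < p := by exact_mod_cast hBp
  have hp0 : (0 : ℤ) < p := hB0.trans hBp'
  refine ⟨P, ?_, ⟨?_, ?_⟩, ?_, ?_⟩
  · intro h0
    apply hc0
    funext e
    rw [← hcoef e, h0, coeff_zero]
    rfl
  · rw [hP]
    refine totalDegree_finsetSum_le fun e _ => ?_
    refine (totalDegree_monomial_le _ _).trans ?_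
    rw [Finsupp.sum_fintype _ _ fun _ => rfl]
    exact (hx4 e).trans (Nat.mul_le_mul_left _ (Nat.le_succ h))
  · have h1 : ∑ m ∈ P.support, |coeff m P| ≤ ∑ m ∈ Finset.univ.image xp, |coeff m P| := by
      refine Finset.sum_le_sum_of_subset_of_nonneg ?_ fun _ _ _ => abs_nonneg _
      intro m hm
      by_contra hm2
      exact (mem_support_iff.1 hm) (hcoef0 m hm2)
    have h2 : ∑ m ∈ Finset.univ.image xp, |coeff m P| = ∑ e, |c e| := by
      rw [Finset.sum_image fun e _ e' _ he => hxi he]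
      exact Finset.sum_congr rfl fun e _ => by rw [hcoef]
    calc ∑ m ∈ P.support, |coeff m P| ≤ ((h : ℤ) + 1) ^ (d + 1) * (p : ℤ) ^ h :=
          (h1.trans (le_of_eq h2)).trans hsum
      _ ≤ B * ((B : ℤ) ^ 2) ^ h := mul_le_mul hB1.le (pow_le_pow_left₀ hp0.le hpB' h)
          (by positivity) hB0.le
      _ = (B : ℤ) ^ (2 * h + 1) := by rw [← pow_mul]; ring
  · intro i hi
    rw [hP, map_sum]
    refine Finset.sum_eq_zero fun e _ => ?_
    rw [pderiv_monomial, hx2 e i hi]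
    simp
  · intro z hz
    obtain ⟨h1, _, _⟩ := hS z hz
    have h2 := hc2 z hz
    rw [← hev z] at h2
    refine Int.eq_zero_of_abs_lt_dvd h2 ?_
    have h3 : ∀ e, |f e z| ≤ ((B : ℤ) ^ κ) ^ ((d + 1) * h) := by
      intro e
      have h4 : f e z = ∏ i, z i ^ xp e i := by
        rw [hf]
        have h1 : ∏ i, z i ^ xp e i = ∏ i ∈ K, z i ^ xp e i :=
          (Finset.prod_subset (Finset.subset_univ K) fun i _ hi => by
            rw [hx2 e i hi, pow_zero]).symm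
        rw [h1, ← Finset.prod_attach K fun i => z i ^ xp e i, ← Finset.univ_eq_attach]
        refine Finset.prod_congr rfl fun i _ => ?_
        rw [hx1]
      rw [h4, Finset.abs_prod]
      have hB2 : (1 : ℤ) ≤ (B : ℤ) ^ κ := one_le_pow₀ (by omega)
      calc ∏ i, |z i ^ xp e i| ≤ ∏ i, ((B : ℤ) ^ κ) ^ xp e i := by
            refine Finset.prod_le_prod (fun _ _ => abs_nonneg _) fun i _ => ?_
            rw [abs_pow]
            exact pow_le_pow_left₀ (abs_nonneg _) (h1 i) _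
        _ = ((B : ℤ) ^ κ) ^ ∑ i, xp e i := Finset.prod_pow_eq_pow_sum _ _ _
        _ ≤ _ := pow_le_pow_right₀ hB2 (hx4 e)
    calc |eval z P| = |∑ e, c e * f e z| := by rw [hev]
      _ ≤ ∑ e, |c e * f e z| := Finset.abs_sum_le_sum_abs _ _
      _ ≤ ∑ e, |c e| * ((B : ℤ) ^ κ) ^ ((d + 1) * h) := by
        refine Finset.sum_le_sum fun e _ => ?_
        rw [abs_mul]
        exact mul_le_mul_of_nonneg_left (h3 e) (abs_nonneg _)
      _ = (∑ e, |c e|) * ((B : ℤ) ^ κ) ^ ((d + 1) * h) := by rw [Finset.sum_mul]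
      _ ≤ ((h : ℤ) + 1) ^ (d + 1) * (p : ℤ) ^ h * ((p : ℤ) ^ κ) ^ ((d + 1) * h) := by
        refine mul_le_mul hsum ?_ (by positivity) (by positivity)
        exact pow_le_pow_left₀ (by positivity) (pow_le_pow_left₀ hB0.le hBp'.le _) _
      _ < (p : ℤ) * (p : ℤ) ^ h * ((p : ℤ) ^ κ) ^ ((d + 1) * h) := by
        refine mul_lt_mul_of_pos_right (mul_lt_mul_of_pos_right (hB1.trans hBp') ?_) ?_ <;>
          positivity
      _ = (p : ℤ) ^ (1 + h + κ * ((d + 1) * h)) := by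
        rw [← pow_mul, pow_add, pow_add, pow_one]
      _ ≤ (p : ℤ) ^ N0 := pow_le_pow_right₀ (by omega) hN1

end Pool.MP_a95293_nt.GV
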