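import Pool.Agent.Lib_MP_a95293_gv.Defs

/-!
# THEOREM G, piece Typ: a derivative with a simple zero at a given point

1. `types`: strong induction on a bound `D` of the total degree: if some
`pderiv i P` is not zero at `z` take `L = []`. Otherwise all `pderiv i P` vanish at `z`; some `pderiv i P ≠ 0` (`P` is not constant, as `P ≠ 0`, `P(z) = 0`;
characteristic `0`), its total degree is smaller (`≤ D - 1`, `D ≥ 1`), and the induction hypothesis for it gives `L'`, take `L = L' ++ [i]`
(`Dl (L' ++ [i]) P = Dl L' (pderiv i P)` by `List.foldr_append`).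
2. `pderiv_Dl`: partial derivatives commute (compare on monomials, or the commutator is a derivation which vanishes on the variables, `MvPolynomial.derivation_ext`).
-/

namespace Pool.MP_a95293_nt.GV

open MvPolynomial

variable {v : ℕ}

private theorem cf (i : Fin v) (P : MvPolynomial (Fin v) ℤ) (m : Fin v →₀ ℕ) :
    coeff m (pderiv i P) = ((m i : ℤ) + 1) * coeff (m + Finsupp.single i 1) P := by
  induction P using MvPolynomial.induction_on' with
  | monomial s a =>
    rw [pderiv_monomial, coeff_monomial, coeff_monomial]
    by_cases h0 : s i = 0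
    · have h1 : s ≠ m + Finsupp.single i 1 := by
        intro h
        rw [h] at h0
        simp at h0
      rw [if_neg h1]
      simp [h0]
    · by_cases h1 : s = m + Finsupp.single i 1
      · have h2 : s - Finsupp.single i 1 = m := by
          rw [h1]; simp
        rw [if_pos h1, if_pos h2, h1]
        simp
        ring
      · have h2 : s - Finsupp.single i 1 ≠ m := by
          intro h
          apply h1
          rw [← h]
          refine (tsub_add_cancel_of_le ?_).symm
          rw [Finsupp.single_le_iff]
          omega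
        rw [if_neg h1, if_neg h2]
        simp
  | add p q hp hq =>
    rw [map_add, coeff_add, coeff_add, hp, hq]
    ring

private theorem comm (i j : Fin v) (P : MvPolynomial (Fin v) ℤ) :
    pderiv i (pderiv j P) = pderiv j (pderiv i P) := by
  ext m
  rw [cf, cf, cf, cf, add_right_comm]
  by_cases h : i = j
  · rw [h]
  · have h' : j ≠ i := fun e => h e.symm
    simp [h, h']
    ring

private theorem deg {i : Fin v} {P : MvPolynomial (Fin v) ℤ} (h : pderiv i P ≠ 0) :
    (pderiv i P).totalDegree + 1 ≤ P.totalDegree := by
  obtain ⟨m, hm, hm2⟩ := Finset.exists_mem_eq_sup (pderiv i P).support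
    (by rwa [Finset.nonempty_iff_ne_empty, Ne, support_eq_empty])
    (fun s : Fin v →₀ ℕ => s.sum fun _ e => e)
  have h1 : (pderiv i P).totalDegree = m.sum fun _ e => e := hm2
  rw [h1]
  have h2 : m + Finsupp.single i 1 ∈ P.support := by
    rw [mem_support_iff] at hm ⊢
    rw [cf] at hm
    exact right_ne_zero_of_mul hm
  have h3 := le_totalDegree h2
  rw [Finsupp.sum_add_index' (fun _ => rfl) (fun _ _ _ => rfl)] at h3
  simpa using h3

private theorem cst {P : MvPolynomial (Fin v) ℤ} (h : ∀ i, pderiv i P = 0) :
    P = C (coeff 0 P) := by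
  ext m
  rw [coeff_C]
  by_cases hm : 0 = m
  · rw [if_pos hm, hm]
  · rw [if_neg hm]
    obtain ⟨i, hi⟩ : ∃ i, m i ≠ 0 := by
      by_contra hcon
      push Not at hcon
      exact hm (Finsupp.ext fun i => (hcon i).symm)
    have h1 := cf i P (m - Finsupp.single i 1)
    rw [h i, tsub_add_cancel_of_le (by rw [Finsupp.single_le_iff]; omega)] at h1
    rw [coeff_zero] at h1
    rcases mul_eq_zero.mp h1.symm with h2 | h2
    · exfalso
      have h3 : ∀ k : ℕ, (k : ℤ) + 1 ≠ 0 := fun k => by omega
      exact h3 _ h2
    · exact h2

theorem types {D : ℕ} (P : MvPolynomial (Fin v) ℤ) (hP : P ≠ 0) (hdeg : P.totalDegree ≤ D)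
    (z : Fin v → ℤ) (hz : eval z P = 0) :
    ∃ L : List (Fin v), L.length ≤ D ∧ eval z (Dl L P) = 0 ∧
      ∃ i, eval z (pderiv i (Dl L P)) ≠ 0 := by
  induction D generalizing P with
  | zero =>
    exfalso
    have h0 : ∀ i, pderiv i P = 0 := by
      intro i
      by_contra hi
      have := deg hi
      omega
    have h1 := cst h0
    rw [h1, eval_C] at hz
    rw [hz, C_0] at h1
    exact hP h1
  | succ D ih =>
    by_cases hex : ∃ i, eval z (pderiv i P) ≠ 0
    · exact ⟨[], Nat.zero_le _, hz, hex⟩
    · push Not at hex
      obtain ⟨i, hi⟩ : ∃ i, pderiv i P ≠ 0 := by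
        by_contra hcon
        push Not at hcon
        have h1 := cst hcon
        rw [h1, eval_C] at hz
        rw [hz, C_0] at h1
        exact hP h1
      have hd := deg hi
      obtain ⟨L, h1, h2, h3⟩ := ih (pderiv i P) hi (by omega) (hex i)
      have h4 : Dl (L ++ [i]) P = Dl L (pderiv i P) := by
        simp [Dl, List.foldr_append]
      refine ⟨L ++ [i], by simp; omega, ?_, ?_⟩
      · rw [h4]; exact h2
      · rw [h4]; exact h3

theorem pderiv_Dl {j : Fin v} {P : MvPolynomial (Fin v) ℤ} (h : pderiv j P = 0)
    (L : List (Fin v)) : pderiv j (Dl L P) = 0 := by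
  induction L with
  | nil => exact h
  | cons i L ih =>
    rw [Dl_cons, comm, ih, map_zero]

end Pool.MP_a95293_nt.GV
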