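import Pool.Agent.Lib_MP_a95293_gv.Step
import Pool.Agent.Lib_MP_a95293_gv.Poly
import Pool.Agent.Lib_MP_a95293_gv.Typ

/-!
# THEOREM G, piece Cls: one residue class modulo `p`

`d = v - (m + 1)`. Constants: `poly v κ d` gives `D, b, B1, N0`; `typ r v κ m D (b + D)` gives `h`. Given `A, E, c'`: `typ` gives `C1, B2`; `B0 = max` of `B1`, `B2`, `D`, `1`; `C = W ^ (m + 1) * C1`, `W` the number of the lists over `Fin v` of length `≤ D` (`List.finite_length_le`).
Proof. `S` empty is trivial; `z0 ∈ S`. `chart` for `H, f, g, z0`, exponent `N0` gives `γ` (`IsCoprime` from `p` prime, `p ∤`; all points of `S` are congruent to `z0`). For `i` let `K_i = univ.image g ∪ {f i}` (`d + 1` elements, as `f i` is not in the range of `g`), `poly` gives `P_i ≠ 0`, `Bd B D b`,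
zero on `S`, `pderiv j (P_i) = 0` for `j ∉ K_i`, in particular for `j = f i'`, `i' ≠ i`. For `z ∈ S` `types` gives lists `L_i(z)`. Data `φ(z) = (L_i(z))_i` (functions `Fin (m + 1) → ` lists, `Fintype.piFinset`). On a fibre `typ` applies with `Q_i = Dl L_i P_i` (`Bd.Dl`, `Bd.mono`, `pderiv_Dl`). `card_fib`.
-/

namespace Pool.MP_a95293_nt.GV

open MvPolynomial

theorem cls (r v κ m : ℕ) (hm : m < v) (ih : Claim r v κ (m + 1)) :
    ∃ h : ℕ, ∀ A E c' : ℕ, ∃ C B0 : ℕ, ∀ B p : ℕ, B0 ≤ B → B < p → p ≤ B ^ 2 → p.Prime →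
    ∀ (a : Fin r → ℤ) (u : Fin r → Fin v → ℕ) (H : Fin (m + 1) → MvPolynomial (Fin v) ℤ)
      (f : Fin (m + 1) → Fin v) (g : Fin (v - (m + 1)) → Fin v) (S : Finset (Fin v → ℤ)),
      (∀ s, a s ≠ 0) → (∀ s, |a s| ≤ (B : ℤ) ^ A) → (∀ s i, u s i ≤ E) →
      Function.Injective f → Function.Injective g → (∀ i k, f i ≠ g k) →
      (∀ j, (∃ i, f i = j) ∨ ∃ k, g k = j) →
      (∀ z ∈ S, Pt a u B κ h z) → H 0 = Fp a u → (∀ i j, Sm B κ c' (pderiv i (H j))) →
      (∀ z ∈ S, ∀ j, eval z (H j) = 0) → (∀ z ∈ S, ¬ (p : ℤ) ∣ (jac H f z).det) →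
      (∀ z ∈ S, ∀ z' ∈ S, ∀ i, (p : ℤ) ∣ z i - z' i) →
      (S.image (U a u)).card ≤ C * B ^ (2 * v * (v - (m + 1)) + v) := by
  obtain ⟨D, b, B1, N0, hpoly⟩ := poly v κ (v - (m + 1))
  obtain ⟨h, htyp⟩ := typ r v κ m D (b + D) hm ih
  refine ⟨h, fun A E c' => ?_⟩
  obtain ⟨C1, B2, htyp⟩ := htyp A E c'
  let LD : Finset (List (Fin v)) := (List.finite_length_le (Fin v) D).toFinset
  have hLD : ∀ L : List (Fin v), L ∈ LD ↔ L.length ≤ D := fun L => by
    show L ∈ (List.finite_length_le (Fin v) D).toFinset ↔ _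
    rw [Set.Finite.mem_toFinset]
    rfl
  refine ⟨LD.card ^ (m + 1) * C1, max (max B1 B2) (max D 1), ?_⟩
  intro B p hB hBp hpB hp a u H f g S ha haB hu hf hg hfg hcov hPt hH0 hSm hHz hdet hcong
  have hB1 : B1 ≤ B := le_trans (le_trans (le_max_left _ _) (le_max_left _ _)) hB
  have hB2 : B2 ≤ B := le_trans (le_trans (le_max_right _ _) (le_max_left _ _)) hB
  have hBD : D ≤ B := le_trans (le_trans (le_max_left _ _) (le_max_right _ _)) hB
  have hB0 : 1 ≤ B := le_trans (le_trans (le_max_right _ _) (le_max_right _ _)) hB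
  rcases S.eq_empty_or_nonempty with rfl | ⟨z0, hz0⟩
  · rw [Finset.image_empty, Finset.card_empty]
    exact Nat.zero_le _
  have hcop : IsCoprime (jac H f z0).det (p : ℤ) :=
    ((Nat.prime_iff_prime_int.mp hp).coprime_iff_not_dvd.mpr (hdet z0 hz0)).symm
  obtain ⟨γ, -, -, -, hγ⟩ := chart p N0 H f g hf hg hfg hcov z0
    (fun i => by rw [hHz z0 hz0 i]; exact dvd_zero _) hcop
  have hK : ∀ i, (insert (f i) (Finset.univ.image g)).card = v - (m + 1) + 1 := by
    intro i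
    rw [Finset.card_insert_of_notMem, Finset.card_image_of_injective _ hg, Finset.card_univ,
      Fintype.card_fin]
    intro hi
    obtain ⟨k, -, e⟩ := Finset.mem_image.mp hi
    exact hfg i k e.symm
  have hP : ∀ i, ∃ P : MvPolynomial (Fin v) ℤ, P ≠ 0 ∧ Bd B D b P ∧
      (∀ j, j ∉ insert (f i) (Finset.univ.image g) → pderiv j P = 0) ∧
        ∀ z ∈ S, eval z P = 0 := by
    intro i
    refine hpoly B p hB1 hBp hpB S z0 γ g _ (hK i) ?_
    intro z hz
    refine ⟨fun j => ?_, fun j => hcong z hz z0 hz0 j, fun j => ?_⟩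
    · rw [abs_of_nonneg (le_trans zero_le_one ((hPt z hz).pos j))]
      exact (hPt z hz).le j
    · exact hγ z (fun j => hcong z hz z0 hz0 j)
        (fun j => by rw [hHz z hz j]; exact dvd_zero _) j
  choose P hP0 hPB hPd hPz using hP
  have hL : ∀ z : Fin v → ℤ, ∃ L : Fin (m + 1) → List (Fin v), z ∈ S → ∀ i,
      (L i).length ≤ D ∧ eval z (Dl (L i) (P i)) = 0 ∧
        ∃ j, eval z (pderiv j (Dl (L i) (P i))) ≠ 0 := by
    intro z
    by_cases hz : z ∈ S
    · have h1 := fun i => types (P i) (hP0 i) (hPB i).1 z (hPz i z hz)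
      choose L h2 using h1
      exact ⟨L, fun _ => h2⟩
    · exact ⟨fun _ => [], fun h => absurd h hz⟩
  choose φ hφ using hL
  have hmain := card_fib S (U a u) (Fintype.piFinset fun _ : Fin (m + 1) => LD) φ
    (fun z hz => Fintype.mem_piFinset.mpr fun i => (hLD _).mpr (hφ z hz i).1)
    (C1 * B ^ (2 * v * (v - (m + 1)) + v)) ?_
  · rw [Fintype.card_piFinset, Finset.prod_const, Finset.card_univ, Fintype.card_fin] at hmain
    rw [mul_assoc]
    exact hmain
  intro β hβ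
  have hβ' : ∀ i, (β i).length ≤ D := fun i => (hLD _).mp (Fintype.mem_piFinset.mp hβ i)
  have hin : ∀ z ∈ S.filter (fun z => φ z = β), z ∈ S ∧ φ z = β := fun z hz =>
    Finset.mem_filter.mp hz
  refine htyp B hB2 a u H (fun i => Dl (β i) (P i)) f g _ ha haB hu hf hg hfg hcov
    (fun z hz => hPt z (hin z hz).1) hH0 hSm (fun z hz => hHz z (hin z hz).1) ?_ ?_ ?_ ?_
  · intro z hz e
    exact hdet z (hin z hz).1 (by rw [e]; exact dvd_zero _)
  · intro i
    exact ((hPB i).Dl hBD (β i)).mono hB0 le_rfl (Nat.add_le_add_left (hβ' i) b)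
  · intro i i' hne
    refine pderiv_Dl (hPd i _ ?_) (β i)
    intro hi
    rcases Finset.mem_insert.mp hi with e | e
    · exact hne (hf e).symm
    · obtain ⟨k, -, e⟩ := Finset.mem_image.mp e
      exact hfg i' k e.symm
  · intro z hz i
    have h1 := hφ z (hin z hz).1 i
    rw [(hin z hz).2] at h1
    exact h1.2

end Pool.MP_a95293_nt.GV
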