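import Mathlib

/-!
# THEOREM G, piece Cop: primes, and counting by fibres

1. `primes_above`: by Bertrand (`Nat.exists_prime_lt_and_le_two_mul`), induction on `J`: `J` primes in `(B, 2 ^ J B]`.
2. `exists_not_dvd`: if every `p ∈ P` divides `N`, their product divides `N` (`Finset.prod_primes_dvd` or `Finset.prod_dvd_of_coprime`), and it is `> B ^ |P|` (`P` not empty).
3. `card_fib`: `S.image G` is the union over `b ∈ D` of the images of the fibres (`Finset.card_biUnion_le_card_mul` or `Finset.card_le_mul_card_image`).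
4. `eq_of_prop`: the ideal generated by the `x s` is `(1)` (a generator divides all `x s`; `ℤ` is a principal ideal domain, or use `Finset.gcd`), so `∑ b_s x_s = 1`; then `y_s' = ∑ b_s x_s y_s' = x_s' λ` with
`λ = ∑ b_s y_s`, `λ` divides all `y s`, so `λ = 1` or `-1`, and the signs give `λ = 1` (`r = 0` is trivial).
-/

namespace Pool.MP_a95293_nt.GV

theorem primes_above (J B : ℕ) (hB : 1 ≤ B) :
    ∃ P : Finset ℕ, P.card = J ∧ ∀ p ∈ P, p.Prime ∧ B < p ∧ p ≤ 2 ^ J * B := by
  classical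
  induction J with
  | zero => exact ⟨∅, Finset.card_empty, fun p hp => absurd hp (Finset.notMem_empty p)⟩
  | succ J ih =>
    obtain ⟨P, hc, hP⟩ := ih
    have h1 : 1 ≤ 2 ^ J * B := Nat.mul_pos (Nat.two_pow_pos J) hB
    obtain ⟨q, hq, hq1, hq2⟩ := Nat.exists_prime_lt_and_le_two_mul (2 ^ J * B)
      (Nat.one_le_iff_ne_zero.mp h1)
    have h2 : B ≤ 2 ^ J * B := Nat.le_mul_of_pos_left B (Nat.two_pow_pos J)
    have h3 : 2 ^ (J + 1) * B = 2 * (2 ^ J * B) := by ring
    have hn : q ∉ P := fun h => absurd (hP q h).2.2 (Nat.not_le.mpr hq1)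
    refine ⟨insert q P, by rw [Finset.card_insert_of_notMem hn, hc], fun p hp => ?_⟩
    rw [h3]
    rcases Finset.mem_insert.mp hp with e | e
    · rw [e]
      exact ⟨hq, lt_of_le_of_lt h2 hq1, hq2⟩
    · obtain ⟨h4, h5, h6⟩ := hP p e
      exact ⟨h4, h5, by omega⟩

theorem exists_not_dvd {B : ℕ} {P : Finset ℕ} (hP : P.Nonempty) (hp : ∀ p ∈ P, p.Prime ∧ B < p)
    {N : ℤ} (hN : N ≠ 0) (hN' : |N| ≤ (B : ℤ) ^ P.card) : ∃ p ∈ P, ¬ (p : ℤ) ∣ N := by
  by_contra h
  push Not at h
  have h1 : ∏ p ∈ P, p ∣ N.natAbs := by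
    refine Finset.prod_primes_dvd N.natAbs (fun p hpP => (hp p hpP).1.prime) fun p hpP => ?_
    exact Int.natCast_dvd.mp (h p hpP)
  have h2 : ∏ p ∈ P, p ≤ N.natAbs :=
    Nat.le_of_dvd (Nat.pos_of_ne_zero (Int.natAbs_ne_zero.mpr hN)) h1
  have h3 : (B + 1) ^ P.card ≤ ∏ p ∈ P, p := by
    calc (B + 1) ^ P.card = ∏ _p ∈ P, (B + 1) := by rw [Finset.prod_const]
      _ ≤ ∏ p ∈ P, p := Finset.prod_le_prod' fun p hpP => (hp p hpP).2
  have h4 : B ^ P.card < (B + 1) ^ P.card :=
    Nat.pow_lt_pow_left (Nat.lt_succ_self B) (Finset.card_ne_zero.mpr hP)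
  have h5 : (N.natAbs : ℤ) ≤ (B : ℤ) ^ P.card := by
    rw [Int.natCast_natAbs]
    exact hN'
  have h6 : N.natAbs ≤ B ^ P.card := by exact_mod_cast h5
  omega

/-- Counting the image by fibres of `φ`. -/
theorem card_fib {α β γ : Type*} [DecidableEq β] [DecidableEq γ] (S : Finset α) (G : α → γ)
    (D : Finset β) (φ : α → β) (hφ : ∀ z ∈ S, φ z ∈ D) (N : ℕ)
    (h : ∀ b ∈ D, ((S.filter fun z => φ z = b).image G).card ≤ N) :
    (S.image G).card ≤ D.card * N := by
  have h1 : S.image G ⊆ D.biUnion fun b => (S.filter fun z => φ z = b).image G := by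
    intro g hg
    obtain ⟨z, hz, rfl⟩ := Finset.mem_image.mp hg
    rw [Finset.mem_biUnion]
    exact ⟨φ z, hφ z hz, Finset.mem_image_of_mem G (Finset.mem_filter.mpr ⟨hz, rfl⟩)⟩
  exact (Finset.card_le_card h1).trans (Finset.card_biUnion_le_card_mul D _ N h)

/-- Two primitive vectors with nonzero entries of the same signs and proportional entries are equal. -/
theorem eq_of_prop {r : ℕ} {x y : Fin r → ℤ} (hx : ∀ b : ℤ, (∀ s, b ∣ x s) → IsUnit b)
    (hy : ∀ b : ℤ, (∀ s, b ∣ y s) → IsUnit b) (hxy : ∀ s s', x s * y s' = x s' * y s)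
    (hs : ∀ s, 0 < x s * y s) : x = y := by
  obtain ⟨g, hg⟩ := IsPrincipalIdealRing.principal (Ideal.span (Set.range x))
  have hgx : ∀ s, g ∣ x s := by
    intro s
    have h1 : x s ∈ Ideal.span (Set.range x) := Ideal.subset_span ⟨s, rfl⟩
    rw [hg] at h1
    exact Ideal.mem_span_singleton.mp h1
  have h1 : (1 : ℤ) ∈ Ideal.span (Set.range x) := by
    rw [hg]
    exact Ideal.mem_span_singleton.mpr (hx g hgx).dvd
  obtain ⟨c, hc⟩ := Ideal.mem_span_range_iff_exists_fun.mp h1
  have hl : ∀ s', y s' = x s' * ∑ s, c s * y s := by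
    intro s'
    calc y s' = (∑ s, c s * x s) * y s' := by rw [hc, one_mul]
      _ = ∑ s, c s * (x s * y s') := by
          rw [Finset.sum_mul]
          exact Finset.sum_congr rfl fun s _ => by rw [mul_assoc]
      _ = ∑ s, x s' * (c s * y s) := by
          refine Finset.sum_congr rfl fun s _ => ?_
          rw [hxy s s']
          ring
      _ = x s' * ∑ s, c s * y s := by rw [Finset.mul_sum]
  have hu : IsUnit (∑ s, c s * y s) := hy _ fun s' => ⟨x s', by
    rw [mul_comm]
    exact hl s'⟩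
  funext s
  rcases Int.isUnit_iff.mp hu with e | e
  · have h2 := hl s
    rw [e, mul_one] at h2
    exact h2.symm
  · have h2 := hl s
    have h3 := hs s
    rw [h2, e] at h3
    nlinarith [mul_self_nonneg (x s)]

end Pool.MP_a95293_nt.GV
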