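import Mathlib

/-!
# MP_a95293_nt, THEOREM G (board note 1633): definitions

`v` variables `z_i`, `i : Fin v`, and `r` terms `U_s(z) = a_s ∏ z_i ^ (u_s i)`, `s : Fin r`, with sum `0`, without common divisor, in GENERAL POSITION:
every linear relation `∑ c_s U_s = 0` with integers `|c_s| ≤ B ^ h` has `c_s = c_s'` for all `s, s'`. THEOREM G (`Surf.lean`): the number of different `r`-tuples `U(z)` with `z` in
`[1, X ^ κ] ^ v` is at most `C X ^ τ`, if `h` is large in terms of `r, v, κ, τ` only.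

`Q : Fin n → MvPolynomial (Fin v) ℤ` is a system of `n` polynomials, `f : Fin n → Fin v` the unknown coordinates, `g : Fin d → Fin v` the other coordinates
(parameters). `Dd Q f k` is the derivation `Δ ∂_k - ∑_i (∂_k Q_i) (∏_(i' ≠ i) ∂_(f i') Q_i') ∂_(f i)`, `Δ = ∏_i ∂_(f i) Q_i`; `Dw` its iteration along a word.
`AA (u s) Q f k` is the cofactor of `U_s` in `(∏ z_i) D_k F`, `RR = AA (u s) - AA (u s')`.
-/

namespace Pool.MP_a95293_nt.GV

open MvPolynomial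

variable {r v n d : ℕ}

/-- The terms `U_s(z) = a_s ∏ z_i ^ (u_s i)`. -/
def U (a : Fin r → ℤ) (u : Fin r → Fin v → ℕ) (z : Fin v → ℤ) : Fin r → ℤ :=
  fun s => a s * ∏ i, z i ^ u s i

/-- The polynomial `∑ a_s X ^ (u_s)`. -/
noncomputable def Fp (a : Fin r → ℤ) (u : Fin r → Fin v → ℕ) : MvPolynomial (Fin v) ℤ :=
  ∑ s, C (a s) * ∏ i, X i ^ u s i

/-- The points that are counted. -/
structure Pt (a : Fin r → ℤ) (u : Fin r → Fin v → ℕ) (B κ h : ℕ) (z : Fin v → ℤ) : Prop where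
  pos : ∀ i, 1 ≤ z i
  le : ∀ i, z i ≤ (B : ℤ) ^ κ
  sum : ∑ s, U a u z s = 0
  prim : ∀ b : ℤ, (∀ s, b ∣ U a u z s) → IsUnit b
  gp : ∀ c : Fin r → ℤ, (∀ s, |c s| ≤ (B : ℤ) ^ h) → ∑ s, c s * U a u z s = 0 →
    ∀ s s', c s = c s'

/-- Total degree at most `D`, sum of the absolute values of the coefficients at most `B ^ c`. -/
def Bd (B D c : ℕ) (P : MvPolynomial (Fin v) ℤ) : Prop :=
  P.totalDegree ≤ D ∧ ∑ m ∈ P.support, |coeff m P| ≤ (B : ℤ) ^ c

/-- `P` is at most `B ^ c` in absolute value on the box `|z_i| ≤ B ^ κ`. -/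
def Sm (B κ c : ℕ) (P : MvPolynomial (Fin v) ℤ) : Prop :=
  ∀ z : Fin v → ℤ, (∀ i, |z i| ≤ (B : ℤ) ^ κ) → |eval z P| ≤ (B : ℤ) ^ c

/-- The square matrix of the partial derivatives of `H_i` with respect to the coordinates `f j`. -/
noncomputable def jac (H : Fin n → MvPolynomial (Fin v) ℤ) (f : Fin n → Fin v)
    (z : Fin v → ℤ) : Matrix (Fin n) (Fin n) ℤ :=
  Matrix.of fun i j => eval z (pderiv (f j) (H i))

/-- The iterated partial derivative along a list of variables. -/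
noncomputable def Dl (L : List (Fin v)) (P : MvPolynomial (Fin v) ℤ) : MvPolynomial (Fin v) ℤ :=
  L.foldr (fun i Q => pderiv i Q) P

/-- `Δ = ∏_i ∂_(f i) Q_i`. -/
noncomputable def Del (Q : Fin n → MvPolynomial (Fin v) ℤ) (f : Fin n → Fin v) :
    MvPolynomial (Fin v) ℤ :=
  ∏ i, pderiv (f i) (Q i)

/-- Component `j` of the vector field `D_k`. -/
noncomputable def vf (Q : Fin n → MvPolynomial (Fin v) ℤ) (f : Fin n → Fin v) (k j : Fin v) :
    MvPolynomial (Fin v) ℤ :=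
  (if j = k then Del Q f else 0) -
    ∑ i, if f i = j then
      pderiv k (Q i) * ∏ i' ∈ Finset.univ.erase i, pderiv (f i') (Q i') else 0

/-- The derivation `D_k`. -/
noncomputable def Dd (Q : Fin n → MvPolynomial (Fin v) ℤ) (f : Fin n → Fin v) (k : Fin v)
    (P : MvPolynomial (Fin v) ℤ) : MvPolynomial (Fin v) ℤ :=
  ∑ j, vf Q f k j * pderiv j P

/-- The iteration of the derivations `D_(g k)` along a word. -/
noncomputable def Dw (Q : Fin n → MvPolynomial (Fin v) ℤ) (f : Fin n → Fin v) (g : Fin d → Fin v)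
    (w : List (Fin d)) (P : MvPolynomial (Fin v) ℤ) : MvPolynomial (Fin v) ℤ :=
  w.foldr (fun k R => Dd Q f (g k) R) P

/-- The cofactor of the monomial `X ^ u` in `(∏ X_i) D_k (X ^ u)`. -/
noncomputable def AA (u : Fin v → ℕ) (Q : Fin n → MvPolynomial (Fin v) ℤ) (f : Fin n → Fin v)
    (k : Fin v) : MvPolynomial (Fin v) ℤ :=
  ∑ i, C (u i : ℤ) * (∏ i' ∈ Finset.univ.erase i, X i') * vf Q f k i

/-- `R_(s,s',k) = A_(s,k) - A_(s',k)`. -/
noncomputable def RR (u : Fin r → Fin v → ℕ) (Q : Fin n → MvPolynomial (Fin v) ℤ)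
    (f : Fin n → Fin v) (s s' : Fin r) (k : Fin v) : MvPolynomial (Fin v) ℤ :=
  AA (u s) Q f k - AA (u s') Q f k

/-- The ideal `(p, X_k)` of `ℤ[X_k, k < d]`. -/
noncomputable def II (p : ℕ) (d : ℕ) : Ideal (MvPolynomial (Fin d) ℤ) :=
  Ideal.span ({C (p : ℤ)} ∪ Set.range X)

theorem Dl_nil (P : MvPolynomial (Fin v) ℤ) : Dl [] P = P := rfl

theorem Dl_cons (i : Fin v) (L : List (Fin v)) (P : MvPolynomial (Fin v) ℤ) :
    Dl (i :: L) P = pderiv i (Dl L P) := rfl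

theorem Dw_nil (Q : Fin n → MvPolynomial (Fin v) ℤ) (f : Fin n → Fin v) (g : Fin d → Fin v)
    (P : MvPolynomial (Fin v) ℤ) : Dw Q f g [] P = P := rfl

theorem Dw_cons (Q : Fin n → MvPolynomial (Fin v) ℤ) (f : Fin n → Fin v) (g : Fin d → Fin v)
    (k : Fin d) (w : List (Fin d)) (P : MvPolynomial (Fin v) ℤ) :
    Dw Q f g (k :: w) P = Dd Q f (g k) (Dw Q f g w P) := rfl

theorem eval_Fp (a : Fin r → ℤ) (u : Fin r → Fin v → ℕ) (z : Fin v → ℤ) :
    eval z (Fp a u) = ∑ s, U a u z s := by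
  unfold Fp U
  simp [map_sum, map_prod]

/-- Data of the induction: `m + 1` equations. -/
def Claim (r v κ m : ℕ) : Prop :=
  ∃ h : ℕ, ∀ A E c : ℕ, ∃ C B0 : ℕ, ∀ B : ℕ, B0 ≤ B →
    ∀ (a : Fin r → ℤ) (u : Fin r → Fin v → ℕ) (H : Fin (m + 1) → MvPolynomial (Fin v) ℤ)
      (S : Finset (Fin v → ℤ)),
      (∀ s, a s ≠ 0) → (∀ s, |a s| ≤ (B : ℤ) ^ A) → (∀ s i, u s i ≤ E) →
      (∀ z ∈ S, Pt a u B κ h z) → H 0 = Fp a u → (∀ i j, Sm B κ c (pderiv i (H j))) →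
      (∀ z ∈ S, ∀ j, eval z (H j) = 0) → (∀ z ∈ S, ∃ f, (jac H f z).det ≠ 0) →
      (S.image (U a u)).card ≤ C * B ^ (2 * v * (v - m))

end Pool.MP_a95293_nt.GV
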