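import Pool.Agent.Lib_MP_a95293_gv.Ratio
import Pool.Agent.Lib_MP_a95293_gv.Chart
import Pool.Agent.Lib_MP_a95293_gv.BdA
import Pool.Agent.Lib_MP_a95293_gv.Cop

/-!
# THEOREM G, piece FinC: the points where all words vanish

Constants: `k0 = 2 v κ E + 1`, `J = n (c + 1 + κ D) + v κ + 1`, `B0 = max` of `2 ^ J`, `k0 + 2`, `D`, `2`; `C = J * 2 ^ (J v)`.
Proof. For `z ∈ S` the integer `eval z (Del Q f) * ∏ z_i` is not zero and at most `B ^ J` in absolute value (`Bd.pderiv`, `Bd.sm`, product). Let `P` be from `primes_above J B`; `exists_not_dvd` gives `p(z) ∈ P` which does not divide it. Data `φ(z) = (p(z), (z_i mod p(z))_i)` in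
`P ×ˢ Fintype.piFinset (fun _ => range (2 ^ J * B))`, `card = J * (2 ^ J * B) ^ v` (`p ≤ 2 ^ J * B`; residues `(z i % p).toNat`). `card_fib` with `N = 1`: for `z, z'` in one fibre `U(z) = U(z')` (`Finset.card_le_one`):
`jac Q f z` is diagonal (support), `det = ∏ eval z (pderiv (f i) (Q i)) = eval z (Del Q f)`, coprime to `p`. `chart` with `H = Q`, `z0 = z`, exponent `N + 1 = k0 + 2` gives `γ`; its last statement for `z` itself (`T = 0`, `eval 0 = constantCoeff`) gives `hγ0`, for `z'` gives `hγ'`. `con` (for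
`u s`, `u s'`; `RR u Q f s s' (g k)` is by definition the difference there): `p ^ (k0 + 1) ∣ m_s(z') m_s'(z) - m_s(z) m_s'(z')` with `m_s(z) = ∏ z_i ^ (u s i) ∈ [1, B ^ (v κ E)]`; the absolute value is `≤ B ^ (2 v κ E) < p ^ (k0 + 1)`, so it is `0`. Times `a_s a_s'`:
`U_s(z) U_s'(z') = U_s'(z) U_s(z')` for all `s, s'`; `U_s(z) U_s(z') = a_s ^ 2 * positive > 0`; `eq_of_prop` (with `Pt.prim` for `z` and for `z'`) gives `U(z) = U(z')`.
-/

namespace Pool.MP_a95293_nt.GV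

open MvPolynomial

/-- the values of the monomials are in `[1, B ^ (v κ E)]` -/
private theorem finc_mon {v B κ E : ℕ} (hB : 1 ≤ B) {z : Fin v → ℤ} (h1 : ∀ i, 1 ≤ z i)
    (h2 : ∀ i, z i ≤ (B : ℤ) ^ κ) {u : Fin v → ℕ} (hu : ∀ i, u i ≤ E) :
    1 ≤ ∏ i, z i ^ u i ∧ ∏ i, z i ^ u i ≤ (B : ℤ) ^ (v * κ * E) := by
  have hB' : (1 : ℤ) ≤ B := by exact_mod_cast hB
  constructor
  · have h3 : 0 < ∏ i, z i ^ u i :=
      Finset.prod_pos fun i _ => pow_pos (by linarith [h1 i]) _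
    exact h3
  · calc ∏ i, z i ^ u i ≤ ∏ _i : Fin v, ((B : ℤ) ^ κ) ^ E := by
          refine Finset.prod_le_prod (fun i _ => pow_nonneg (by linarith [h1 i]) _) fun i _ => ?_
          calc z i ^ u i ≤ ((B : ℤ) ^ κ) ^ u i :=
                pow_le_pow_left₀ (by linarith [h1 i]) (h2 i) _
            _ ≤ ((B : ℤ) ^ κ) ^ E := pow_le_pow_right₀ (one_le_pow₀ hB') (hu i)
      _ = (B : ℤ) ^ (v * κ * E) := by
          rw [Finset.prod_const, Finset.card_univ, Fintype.card_fin, ← pow_mul, ← pow_mul]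
          congr 1
          ring

private theorem finc_arith {m1 m2 m3 m4 T q : ℤ} (h1 : 1 ≤ m1 ∧ m1 ≤ T) (h2 : 1 ≤ m2 ∧ m2 ≤ T)
    (h3 : 1 ≤ m3 ∧ m3 ≤ T) (h4 : 1 ≤ m4 ∧ m4 ≤ T) (h : q ∣ m3 * m2 - m1 * m4) (hq : T * T < q) :
    m3 * m2 = m1 * m4 := by
  have h10 : m3 * m2 ≤ T * T := mul_le_mul h3.2 h2.2 (by linarith) (by linarith)
  have h11 : m1 * m4 ≤ T * T := mul_le_mul h1.2 h4.2 (by linarith) (by linarith)
  have h12 : 0 < m3 * m2 := mul_pos (by linarith) (by linarith)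
  have h13 : 0 < m1 * m4 := mul_pos (by linarith) (by linarith)
  have h14 := Int.eq_zero_of_abs_lt_dvd h (by
    rw [abs_lt]
    constructor <;> linarith)
  linarith

private theorem finc_det {v n : ℕ} (Q : Fin n → MvPolynomial (Fin v) ℤ) (f : Fin n → Fin v)
    (hs : ∀ i i', i ≠ i' → pderiv (f i') (Q i) = 0) (z : Fin v → ℤ) :
    (jac Q f z).det = eval z (Del Q f) := by
  have h : jac Q f z = Matrix.diagonal fun i => eval z (pderiv (f i) (Q i)) := by
    ext i j
    unfold jac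
    rw [Matrix.of_apply]
    by_cases hij : i = j
    · subst hij
      rw [Matrix.diagonal_apply_eq]
    · rw [Matrix.diagonal_apply_ne _ hij, hs i j hij, map_zero]
  rw [h, Matrix.det_diagonal, Del, map_prod]

theorem fin_class (r v κ n d D c E : ℕ) : ∃ k0 C B0 : ℕ, ∀ B : ℕ, B0 ≤ B →
    ∀ (a : Fin r → ℤ) (u : Fin r → Fin v → ℕ) (Q : Fin n → MvPolynomial (Fin v) ℤ)
      (f : Fin n → Fin v) (g : Fin d → Fin v) (S : Finset (Fin v → ℤ)) (h : ℕ),
      (∀ s, a s ≠ 0) → (∀ s i, u s i ≤ E) →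
      Function.Injective f → Function.Injective g → (∀ i k, f i ≠ g k) →
      (∀ j, (∃ i, f i = j) ∨ ∃ k, g k = j) → (∀ z ∈ S, Pt a u B κ h z) →
      (∀ i, Bd B D c (Q i)) → (∀ i i', i ≠ i' → pderiv (f i') (Q i) = 0) →
      (∀ z ∈ S, ∀ i, eval z (Q i) = 0 ∧ eval z (pderiv (f i) (Q i)) ≠ 0) →
      (∀ z ∈ S, ∀ (s s' : Fin r) (k : Fin d) (w : List (Fin d)), w.length ≤ k0 →
        eval z (Dw Q f g w (RR u Q f s s' (g k))) = 0) →
      (S.image (U a u)).card ≤ C * B ^ v := by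
  classical
  obtain ⟨k0, hk0⟩ : ∃ k0, k0 = 2 * (v * κ * E) + 1 := ⟨_, rfl⟩
  obtain ⟨J, hJ⟩ : ∃ J, J = n * (c + 1 + κ * D) + v * κ + 1 := ⟨_, rfl⟩
  refine ⟨k0, J * 2 ^ (J * v), max (k0 + 2) (max D 2), fun B hB0 => ?_⟩
  intro a u Q f g S h ha hu hf hg hfg hcov hPt hBd hs hQ0 hR
  have hB1 : k0 + 2 ≤ B := (le_max_left _ _).trans hB0
  have hB2 : D ≤ B := (le_max_left _ _).trans ((le_max_right _ _).trans hB0)
  have hB3 : 1 ≤ B := by omega
  have hB3' : (1 : ℤ) ≤ B := by exact_mod_cast hB3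
  obtain ⟨P, hPc, hP⟩ := primes_above J B hB3
  have hPne : P.Nonempty := by
    rw [← Finset.card_pos, hPc]
    omega
  -- a prime for every point
  have hprime : ∀ z ∈ S, ∃ p ∈ P, ¬ (p : ℤ) ∣ eval z (Del Q f) * ∏ i, z i := by
    intro z hz
    have hpt := hPt z hz
    refine exists_not_dvd hPne (fun p hp => ⟨(hP p hp).1, (hP p hp).2.1⟩) ?_ ?_
    · refine mul_ne_zero ?_ ?_
      · rw [Del, map_prod]
        exact Finset.prod_ne_zero_iff.2 fun i _ => (hQ0 z hz i).2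
      · refine Finset.prod_ne_zero_iff.2 fun i _ => ?_
        have := hpt.pos i
        omega
    · have habs : ∀ i, |z i| ≤ (B : ℤ) ^ κ := by
        intro i
        rw [abs_of_nonneg (by linarith [hpt.pos i])]
        exact hpt.le i
      have h1 : |eval z (Del Q f)| ≤ (B : ℤ) ^ (n * (c + 1 + κ * D)) := by
        rw [Del, map_prod, Finset.abs_prod]
        calc ∏ i, |eval z (pderiv (f i) (Q i))| ≤ ∏ _i : Fin n, (B : ℤ) ^ (c + 1 + κ * D) := by
              refine Finset.prod_le_prod (fun i _ => abs_nonneg _) fun i _ => ?_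
              exact ((hBd i).pderiv hB2 (f i)).sm hB3 z habs
          _ = (B : ℤ) ^ (n * (c + 1 + κ * D)) := by
              rw [Finset.prod_const, Finset.card_univ, Fintype.card_fin, ← pow_mul, mul_comm]
      have h2 : |∏ i, z i| ≤ (B : ℤ) ^ (v * κ) := by
        rw [Finset.abs_prod]
        calc ∏ i, |z i| ≤ ∏ _i : Fin v, (B : ℤ) ^ κ :=
              Finset.prod_le_prod (fun i _ => abs_nonneg _) fun i _ => habs i
          _ = (B : ℤ) ^ (v * κ) := by
              rw [Finset.prod_const, Finset.card_univ, Fintype.card_fin, ← pow_mul, mul_comm]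
      rw [abs_mul, hPc]
      calc |eval z (Del Q f)| * |∏ i, z i| ≤
          (B : ℤ) ^ (n * (c + 1 + κ * D)) * (B : ℤ) ^ (v * κ) :=
            mul_le_mul h1 h2 (abs_nonneg _) (by positivity)
        _ = (B : ℤ) ^ (n * (c + 1 + κ * D) + v * κ) := (pow_add _ _ _).symm
        _ ≤ (B : ℤ) ^ J := pow_le_pow_right₀ hB3' (by omega)
  have hpr : ∀ z : Fin v → ℤ, ∃ p : ℕ, z ∈ S → p ∈ P ∧ ¬ (p : ℤ) ∣ eval z (Del Q f) * ∏ i, z i := by
    intro z
    by_cases hz : z ∈ S
    · obtain ⟨p, hp⟩ := hprime z hz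
      exact ⟨p, fun _ => hp⟩
    · exact ⟨0, fun hz' => absurd hz' hz⟩
  choose pz hpz using hpr
  have hcard := card_fib S (U a u)
    (P ×ˢ Fintype.piFinset fun _ : Fin v => Finset.range (2 ^ J * B))
    (fun z => (pz z, fun i => (z i % (pz z : ℤ)).toNat)) ?_ 1 ?_
  · rw [Finset.card_product, hPc, Fintype.card_piFinset, Finset.prod_const, Finset.card_univ,
      Fintype.card_fin, Finset.card_range, mul_one, mul_pow, ← pow_mul, ← mul_assoc] at hcard
    exact hcard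
  · intro z hz
    obtain ⟨h1, -⟩ := hpz z hz
    obtain ⟨h2, h3, h4⟩ := hP _ h1
    rw [Finset.mem_product]
    refine ⟨h1, ?_⟩
    rw [Fintype.mem_piFinset]
    intro i
    rw [Finset.mem_range]
    have h5 : (0 : ℤ) < pz z := by exact_mod_cast h2.pos
    have h6 := Int.emod_lt_of_pos (z i) h5
    have h7 := Int.emod_nonneg (z i) h5.ne'
    show (z i % (pz z : ℤ)).toNat < 2 ^ J * B
    have h8 : (z i % (pz z : ℤ)).toNat < pz z := by omega
    omega
  · intro b _
    rw [Finset.card_le_one]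
    intro x hx y hy
    obtain ⟨z, hz, rfl⟩ := Finset.mem_image.1 hx
    obtain ⟨z', hz', rfl⟩ := Finset.mem_image.1 hy
    obtain ⟨hzS, hzb⟩ := Finset.mem_filter.1 hz
    obtain ⟨hzS', hzb'⟩ := Finset.mem_filter.1 hz'
    have e1 := hzb.trans hzb'.symm
    rw [Prod.mk.injEq] at e1
    obtain ⟨e2, e3⟩ := e1
    obtain ⟨hpP, hpN⟩ := hpz z hzS
    rw [← e2] at e3
    obtain ⟨p, hpdef⟩ : ∃ p, p = pz z := ⟨_, rfl⟩
    rw [← hpdef] at hpP hpN e3
    obtain ⟨hp, hpB, -⟩ := hP _ hpP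
    have hp0 : (0 : ℤ) < p := by exact_mod_cast hp.pos
    have hmod : ∀ i, (p : ℤ) ∣ z' i - z i := by
      intro i
      have e4 : (z i % (p : ℤ)).toNat = (z' i % (p : ℤ)).toNat := congrFun e3 i
      have h5 := Int.emod_nonneg (z i) hp0.ne'
      have h6 := Int.emod_nonneg (z' i) hp0.ne'
      have e5 : z i % (p : ℤ) = z' i % (p : ℤ) := by omega
      exact Int.ModEq.dvd e5
    have hpt := hPt z hzS
    have hpt' := hPt z' hzS'
    have hpi : Prime (p : ℤ) := Nat.prime_iff_prime_int.1 hp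
    have hΔ : ¬ (p : ℤ) ∣ eval z (Del Q f) := fun h5 => hpN (Dvd.dvd.mul_right h5 _)
    have hzi : ∀ i, ¬ (p : ℤ) ∣ z i := fun i h5 =>
      hpN (Dvd.dvd.mul_left (h5.trans (Finset.dvd_prod_of_mem _ (Finset.mem_univ i))) _)
    have hcop : IsCoprime (jac Q f z).det (p : ℤ) := by
      rw [finc_det Q f hs z]
      exact (hpi.irreducible.coprime_iff_not_dvd.2 hΔ).symm
    obtain ⟨γ, hγ1, hγ2, hγ3, hγ4⟩ := chart p (k0 + 1 + 1) Q f g hf hg hfg hcov z
      (fun i => by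
        rw [(hQ0 z hzS i).1]
        exact dvd_zero _) hcop
    have hγ0 : ∀ j, (p : ℤ) ^ (k0 + 1 + 1) ∣ constantCoeff (γ j) - z j := by
      intro j
      have h5 := hγ4 z (fun i => by
        rw [sub_self]
        exact dvd_zero _) (fun i => by
        rw [(hQ0 z hzS i).1]
        exact dvd_zero _) j
      have h6 : (fun k => z (g k) - z (g k)) = (fun _ => (0 : ℤ)) := by
        funext k
        exact sub_self _
      rw [h6, eval_zero'] at h5
      rw [← neg_sub]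
      exact h5.neg_right
    have hγ' := hγ4 z' hmod fun i => by
      rw [(hQ0 z' hzS' i).1]
      exact dvd_zero _
    have hcon : ∀ s s', (∏ i, z' i ^ u s i) * (∏ i, z i ^ u s' i) =
        (∏ i, z i ^ u s i) * ∏ i, z' i ^ u s' i := by
      intro s s'
      have h5 := con hp (le_refl (k0 + 1)) (by omega : k0 + 1 ≤ p) (u s) (u s') Q f g hf hg hfg
        hcov hs z hzi hΔ γ hγ1 hγ2 hγ0 hγ3 (fun k w hw => hR z hzS s s' k w hw) z' hmod hγ'
      have h6 := finc_mon hB3 hpt.pos hpt.le (hu s)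
      have h7 := finc_mon hB3 hpt.pos hpt.le (hu s')
      have h8 := finc_mon hB3 hpt'.pos hpt'.le (hu s)
      have h9 := finc_mon hB3 hpt'.pos hpt'.le (hu s')
      refine finc_arith h6 h7 h8 h9 h5 ?_
      calc (B : ℤ) ^ (v * κ * E) * (B : ℤ) ^ (v * κ * E) = (B : ℤ) ^ (2 * (v * κ * E)) := by
            rw [← pow_add]
            congr 1
            ring
        _ ≤ (B : ℤ) ^ (k0 + 1) := pow_le_pow_right₀ hB3' (by omega)
        _ < (p : ℤ) ^ (k0 + 1) :=
            pow_lt_pow_left₀ (by exact_mod_cast hpB) (by positivity) (by omega)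
    refine eq_of_prop hpt.prim hpt'.prim (fun s s' => ?_) fun s => ?_
    · unfold U
      have h5 := hcon s s'
      linear_combination (-(a s * a s')) * h5
    · unfold U
      have h6 := finc_mon hB3 hpt.pos hpt.le (hu s)
      have h8 := finc_mon hB3 hpt'.pos hpt'.le (hu s)
      have h9 : a s * (∏ i, z i ^ u s i) * (a s * ∏ i, z' i ^ u s i) =
          a s ^ 2 * ((∏ i, z i ^ u s i) * ∏ i, z' i ^ u s i) := by ring
      rw [h9]
      exact mul_pos (by positivity [ha s]) (mul_pos (by linarith) (by linarith))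

end Pool.MP_a95293_nt.GV
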