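import Pool.Agent.Lib_MP_a95293_gv.Defs

/-!
# THEOREM G, piece Idl: powers of the ideal `(p, X_k)` of `ℤ[X]`

1. `mem_II_pow`: `h ∈ I ^ N` iff `p ^ (N - |m|) ∣ coeff m h` for all `m` (`|m| = m.degree = ∑ m_k`, truncated subtraction). Proof: (if) every term
`monomial m c` with `p ^ (N - |m|) ∣ c` is in `I ^ (N - |m|) * I ^ |m|`-ish, i.e. in `I ^ N` (`C (p ^ a) ∈ I ^ a`, `monomial m 1 = ∏ X_k ^ m_k ∈ I ^ |m|`, `a + |m| ≥ N`, `Ideal.pow_le_pow_right`), sum over the support. (only if) induction on `N`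
(`Submodule.pow_induction_on_left'` or `Ideal.pow_succ`, `Submodule.mul_induction_on`, `Submodule.span_induction`): if `h` has the property for `N` then `C p * h` and `X_k * h` have it for `N + 1` (`coeff_X_mul'`), and the
set of the polynomials with the property for `N` is closed under sums and products with arbitrary polynomials (an ideal).
2. `mem_of_grad`: by 1: let `|m| ≥ 1`, take `k` with `m_k ≥ 1`. If `|m| > j`: nothing to prove (`j + 1 - |m| = 0`). Otherwise coefficients of `pderiv k h`: `coeff (m - single k 1) (pderiv k h) = m_k coeff m h`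
(`coeff_pderiv` or prove it), so `p ^ (j - |m| + 1) ∣ m_k coeff m h`, and `1 ≤ m_k ≤ j < p` is prime to `p`. `m = 0`: hypothesis `h0`.
3. `mem_of_unit_mul`: `x = (u c) x - (u c - 1) x`; by induction on `i ≤ j`: `x ∈ I ^ i` (general commutative ring).
-/

namespace Pool.MP_a95293_nt.GV

open MvPolynomial

/-- The ideal of the polynomials whose coefficients are divisible by the expected powers. -/
private def idl_J (p d N : ℕ) : Ideal (MvPolynomial (Fin d) ℤ) where
  carrier := {h | ∀ m, (p : ℤ) ^ (N - ∑ k, m k) ∣ coeff m h}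
  zero_mem' := fun m => by
    rw [coeff_zero]
    exact dvd_zero _
  add_mem' := fun {a b} ha hb m => by
    rw [coeff_add]
    exact dvd_add (ha m) (hb m)
  smul_mem' := fun c x hx m => by
    rw [smul_eq_mul, coeff_mul]
    refine Finset.dvd_sum fun y hy => ?_
    rw [Finset.HasAntidiagonal.mem_antidiagonal] at hy
    have h1 : N - ∑ k, m k ≤ N - ∑ k, y.2 k := by
      have h2 : ∑ k, y.2 k ≤ ∑ k, m k := by
        rw [← hy]
        refine Finset.sum_le_sum fun k _ => ?_
        rw [Finsupp.add_apply]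
        exact Nat.le_add_left _ _
      omega
    exact Dvd.dvd.mul_left ((pow_dvd_pow _ h1).trans (hx y.2)) _

private theorem idl_sum_single {d : ℕ} (m : Fin d →₀ ℕ) (k : Fin d) :
    ∑ i, (m + Finsupp.single k 1 : Fin d →₀ ℕ) i = ∑ i, m i + 1 := by
  simp only [Finsupp.add_apply, Finset.sum_add_distrib]
  rw [Finset.sum_eq_single k (fun i _ hi => Finsupp.single_eq_of_ne hi)
    (fun h => absurd (Finset.mem_univ k) h), Finsupp.single_eq_same]

private theorem idl_le (p d N : ℕ) : II p d ^ N ≤ idl_J p d N := by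
  induction N with
  | zero =>
    intro h _ m
    rw [Nat.zero_sub, pow_zero]
    exact one_dvd _
  | succ N ih =>
    rw [pow_succ, Ideal.mul_le]
    intro r hr s hs
    have hr' : ∀ m, (p : ℤ) ^ (N - ∑ k, m k) ∣ coeff m r := ih hr
    refine Submodule.span_induction (p := fun s _ => r * s ∈ idl_J p d (N + 1)) ?_ ?_ ?_ ?_ hs
    · rintro x (hx | ⟨k, rfl⟩)
      · rw [Set.mem_singleton_iff] at hx
        subst hx
        intro m
        rw [mul_comm, coeff_C_mul]
        rcases Nat.lt_or_ge N (∑ k, m k) with h1 | h1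
        · have h2 : N + 1 - ∑ k, m k = 0 := by omega
          rw [h2, pow_zero]
          exact one_dvd _
        · have h2 : N + 1 - ∑ k, m k = (N - ∑ k, m k) + 1 := by omega
          rw [h2, pow_succ, mul_comm]
          exact mul_dvd_mul_left _ (hr' m)
      · intro m
        by_cases h1 : m k = 0
        · rw [coeff_mul_X', if_neg (by rwa [Finsupp.mem_support_iff, not_not])]
          exact dvd_zero _
        · rw [coeff_mul_X', if_pos (by rwa [Finsupp.mem_support_iff])]
          have h2 : m - Finsupp.single k 1 + Finsupp.single k 1 = m := by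
            refine tsub_add_cancel_of_le ?_
            rw [Finsupp.single_le_iff]
            omega
          have h3 := idl_sum_single (m - Finsupp.single k 1) k
          rw [h2] at h3
          have h4 : N + 1 - ∑ i, m i = N - ∑ i, (m - Finsupp.single k 1 : Fin d →₀ ℕ) i := by omega
          rw [h4]
          exact hr' _
    · show r * 0 ∈ _
      rw [mul_zero]
      exact Ideal.zero_mem _
    · intro x y _ _ hx hy
      show r * (x + y) ∈ _
      rw [mul_add]
      exact Ideal.add_mem _ hx hy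
    · intro a x _ hx
      show r * (a • x) ∈ _
      rw [smul_eq_mul, mul_left_comm]
      exact Ideal.mul_mem_left _ _ hx

theorem mem_II_pow {p d : ℕ} (N : ℕ) (h : MvPolynomial (Fin d) ℤ) :
    h ∈ II p d ^ N ↔ ∀ m, (p : ℤ) ^ (N - ∑ k, m k) ∣ coeff m h := by
  refine ⟨fun hh => idl_le p d N hh, fun hh => ?_⟩
  rw [← support_sum_monomial_coeff h]
  refine Ideal.sum_mem _ fun m _ => ?_
  obtain ⟨c, hc⟩ := hh m
  have h1 : (C (p : ℤ) : MvPolynomial (Fin d) ℤ) ∈ II p d :=
    Ideal.subset_span (Or.inl rfl)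
  have h2 : ∀ k : Fin d, (X k : MvPolynomial (Fin d) ℤ) ∈ II p d := fun k =>
    Ideal.subset_span (Or.inr ⟨k, rfl⟩)
  have h3 : ∏ k, (X k : MvPolynomial (Fin d) ℤ) ^ m k ∈ II p d ^ ∑ k, m k := by
    rw [← Finset.prod_pow_eq_pow_sum]
    exact Ideal.prod_mem_prod fun k _ => Ideal.pow_mem_pow (h2 k) _
  have h4 : (C (p : ℤ) : MvPolynomial (Fin d) ℤ) ^ (N - ∑ k, m k) ∈
      II p d ^ (N - ∑ k, m k) := Ideal.pow_mem_pow h1 _
  have h5 : monomial m (coeff m h) = C c * ((C (p : ℤ) : MvPolynomial (Fin d) ℤ) ^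
      (N - ∑ k, m k) * ∏ k, (X k : MvPolynomial (Fin d) ℤ) ^ m k) := by
    rw [monomial_eq, hc, Finsupp.prod_fintype _ _ (fun k => pow_zero _), C_mul, C_pow]
    ring
  rw [h5]
  refine Ideal.mul_mem_left _ _ ?_
  have h6 := Ideal.mul_mem_mul h4 h3
  rw [← pow_add] at h6
  exact Ideal.pow_le_pow_right (by omega) h6

theorem mem_of_grad {p d j : ℕ} (hp : p.Prime) (hj : j < p) (h : MvPolynomial (Fin d) ℤ)
    (h0 : (p : ℤ) ^ (j + 1) ∣ constantCoeff h) (hg : ∀ k, pderiv k h ∈ II p d ^ j) :
    h ∈ II p d ^ (j + 1) := by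
  rw [mem_II_pow]
  intro m
  by_cases hm : m = 0
  · subst hm
    have h1 : ∑ k : Fin d, (0 : Fin d →₀ ℕ) k = 0 := by simp
    rw [h1, Nat.sub_zero]
    exact h0
  · obtain ⟨k, hk⟩ : ∃ k, m k ≠ 0 := by
      by_contra hc
      push Not at hc
      exact hm (Finsupp.ext hc)
    rcases Nat.lt_or_ge j (∑ k, m k) with h1 | h1
    · have h2 : j + 1 - ∑ k, m k = 0 := by omega
      rw [h2, pow_zero]
      exact one_dvd _
    · have h2 : m - Finsupp.single k 1 + Finsupp.single k 1 = m := by
        refine tsub_add_cancel_of_le ?_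
        rw [Finsupp.single_le_iff]
        omega
      have h3 := idl_sum_single (m - Finsupp.single k 1) k
      rw [h2] at h3
      have h4 := (mem_II_pow (p := p) j (pderiv k h)).mp (hg k) (m - Finsupp.single k 1)
      have h5 : j + 1 - ∑ i, m i = j - ∑ i, (m - Finsupp.single k 1 : Fin d →₀ ℕ) i := by omega
      rw [coeff_pderiv, h2, ← h5] at h4
      have h6 : ((m - Finsupp.single k 1 : Fin d →₀ ℕ) k : ℤ) + 1 = ((m k : ℕ) : ℤ) := by
        have h7 : (m - Finsupp.single k 1 : Fin d →₀ ℕ) k + 1 = m k := by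
          have h8 := DFunLike.congr_fun h2 k
          rw [Finsupp.add_apply, Finsupp.single_eq_same] at h8
          exact h8
        exact_mod_cast h7
      rw [h6] at h4
      have h7 : m k ≤ ∑ i, m i := Finset.single_le_sum (fun i _ => Nat.zero_le _)
        (Finset.mem_univ k)
      have h8 : IsCoprime ((p : ℤ) ^ (j + 1 - ∑ i, m i)) ((m k : ℕ) : ℤ) := by
        refine IsCoprime.pow_left ?_
        rw [Nat.isCoprime_iff_coprime, Nat.Prime.coprime_iff_not_dvd hp]
        intro h9
        have h10 := Nat.le_of_dvd (Nat.pos_of_ne_zero hk) h9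
        omega
      exact h8.dvd_of_dvd_mul_right h4

theorem mem_of_unit_mul {R : Type*} [CommRing R] (I : Ideal R) {u c x : R} (hu : u * c - 1 ∈ I)
    (j : ℕ) (hx : c * x ∈ I ^ j) : x ∈ I ^ j := by
  have h : ∀ i, i ≤ j → x ∈ I ^ i := by
    intro i
    induction i with
    | zero =>
      intro _
      rw [pow_zero, Ideal.one_eq_top]
      exact Submodule.mem_top
    | succ i ih =>
      intro hi
      have h1 := ih (by omega)
      have h2 : x = u * (c * x) - (u * c - 1) * x := by ring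
      rw [h2]
      refine Ideal.sub_mem _ (Ideal.mul_mem_left _ _ (Ideal.pow_le_pow_right hi hx)) ?_
      rw [pow_succ']
      exact Ideal.mul_mem_mul hu h1
  exact h j le_rfl

/-- Evaluation at multiples of `p`. -/
theorem eval_mem_II {p d N : ℕ} {h : MvPolynomial (Fin d) ℤ} (hh : h ∈ II p d ^ N) {T : Fin d → ℤ}
    (hT : ∀ k, (p : ℤ) ∣ T k) : (p : ℤ) ^ N ∣ eval T h := by
  rw [eval_eq']
  refine Finset.dvd_sum fun m _ => ?_
  have h1 := (mem_II_pow (p := p) N h).mp hh m
  have h2 : (p : ℤ) ^ (∑ k, m k) ∣ ∏ k, T k ^ m k := by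
    rw [← Finset.prod_pow_eq_pow_sum]
    exact Finset.prod_dvd_prod_of_dvd _ _ fun k _ => pow_dvd_pow_of_dvd (hT k) _
  have h3 := mul_dvd_mul h1 h2
  rw [← pow_add] at h3
  exact (pow_dvd_pow _ (by omega)).trans h3

theorem constantCoeff_mem_II {p d N : ℕ} {h : MvPolynomial (Fin d) ℤ} (hh : h ∈ II p d ^ N) :
    (p : ℤ) ^ N ∣ constantCoeff h := by
  have h1 := (mem_II_pow (p := p) N h).mp hh 0
  have h2 : ∑ k : Fin d, (0 : Fin d →₀ ℕ) k = 0 := by simp
  rw [h2, Nat.sub_zero] at h1
  exact h1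

theorem pderiv_mem_II {p d N : ℕ} {h : MvPolynomial (Fin d) ℤ} (hh : h ∈ II p d ^ (N + 1))
    (k : Fin d) : pderiv k h ∈ II p d ^ N := by
  rw [mem_II_pow]
  intro m
  rw [coeff_pderiv]
  have h1 := (mem_II_pow (p := p) (N + 1) h).mp hh (m + Finsupp.single k 1)
  rw [idl_sum_single, Nat.add_sub_add_right] at h1
  exact Dvd.dvd.mul_right h1 _

end Pool.MP_a95293_nt.GV
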