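import Pool.Agent.Lib_MP_a95293_gv.Defs

/-!
# THEOREM G, piece Ids: identities for the derivation `Dd`

1. `Dd_self`: `Dd Q f k (Q i) = vf k * ∂_k Q_i + vf (f i) * ∂_(f i) Q_i` (all other `∂_j Q_i` either vanish, `j = f i'`, or have `vf Q f k j = 0`, `j ≠ k`, `j` not in `range f`), with
`vf Q f k k = Del Q f` (`k` is not in `range f`) and `vf Q f k (f i) = - ∂_k Q_i * ∏_(i' ≠ i) ∂_(f i') Q_i'` (`f` injective); `Del = ∂_(f i) Q_i * ∏_(i' ≠ i)` (`Finset.mul_prod_erase`).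
2. `Dd` is additive, satisfies the Leibniz rule and kills constants.
3. `AA_mul`: `∂_j ∏ X_i ^ u_i = u_j X_j ^ (u_j - 1) ∏_(i ≠ j) X_i ^ u_i`, times `∏ X_i` is `u_j (∏_(i ≠ j) X_i) ∏ X_i ^ u_i` (also for `u_j = 0`).
4. `Dd_Fp`: sum of 3 over `s`, evaluated.
-/

namespace Pool.MP_a95293_nt.GV

open MvPolynomial

variable {r v n d : ℕ}

theorem vf_self (Q : Fin n → MvPolynomial (Fin v) ℤ) (f : Fin n → Fin v) {k : Fin v}
    (hk : ∀ i, f i ≠ k) : vf Q f k k = Del Q f := by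
  unfold vf
  rw [if_pos rfl, Finset.sum_eq_zero fun i _ => if_neg (hk i), sub_zero]

theorem vf_ne (Q : Fin n → MvPolynomial (Fin v) ℤ) (f : Fin n → Fin v) {k j : Fin v}
    (hj : ∀ i, f i ≠ j) (hkj : j ≠ k) : vf Q f k j = 0 := by
  unfold vf
  rw [if_neg hkj, Finset.sum_eq_zero fun i _ => if_neg (hj i), sub_zero]

theorem vf_f (Q : Fin n → MvPolynomial (Fin v) ℤ) (f : Fin n → Fin v)
    (hf : Function.Injective f) {k : Fin v} (hk : ∀ i, f i ≠ k) (i : Fin n) :
    vf Q f k (f i) = -(pderiv k (Q i) * ∏ i' ∈ Finset.univ.erase i, pderiv (f i') (Q i')) := by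
  unfold vf
  rw [if_neg (hk i), zero_sub, Finset.sum_eq_single i]
  · rw [if_pos rfl]
  · intro i' _ hi'
    exact if_neg fun h => hi' (hf h)
  · intro h
    exact absurd (Finset.mem_univ _) h

theorem Dd_self (Q : Fin n → MvPolynomial (Fin v) ℤ) (f : Fin n → Fin v)
    (hf : Function.Injective f) (hs : ∀ i i', i ≠ i' → pderiv (f i') (Q i) = 0) {k : Fin v}
    (hk : ∀ i, f i ≠ k) (i : Fin n) : Dd Q f k (Q i) = 0 := by
  unfold Dd
  rw [Finset.sum_eq_add k (f i) (fun h => hk i h.symm)]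
  · rw [vf_self Q f hk, vf_f Q f hf hk i, Del, ← Finset.mul_prod_erase Finset.univ
      (fun i => pderiv (f i) (Q i)) (Finset.mem_univ i)]
    ring
  · intro j _ hj
    by_cases hr : ∃ i', f i' = j
    · obtain ⟨i', rfl⟩ := hr
      have hi : i ≠ i' := fun h => hj.2 (by rw [h])
      rw [hs i i' hi, mul_zero]
    · push Not at hr
      rw [vf_ne Q f hr hj.1, zero_mul]
  · intro h
    exact absurd (Finset.mem_univ _) h
  · intro h
    exact absurd (Finset.mem_univ _) h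

theorem Dd_add (Q : Fin n → MvPolynomial (Fin v) ℤ) (f : Fin n → Fin v) (k : Fin v)
    (P R : MvPolynomial (Fin v) ℤ) : Dd Q f k (P + R) = Dd Q f k P + Dd Q f k R := by
  unfold Dd
  rw [← Finset.sum_add_distrib]
  refine Finset.sum_congr rfl fun j _ => ?_
  rw [map_add, mul_add]

theorem Dd_mul (Q : Fin n → MvPolynomial (Fin v) ℤ) (f : Fin n → Fin v) (k : Fin v)
    (P R : MvPolynomial (Fin v) ℤ) : Dd Q f k (P * R) = Dd Q f k P * R + P * Dd Q f k R := by
  unfold Dd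
  rw [Finset.sum_mul, Finset.mul_sum, ← Finset.sum_add_distrib]
  refine Finset.sum_congr rfl fun j _ => ?_
  rw [pderiv_mul]
  ring

theorem Dd_C (Q : Fin n → MvPolynomial (Fin v) ℤ) (f : Fin n → Fin v) (k : Fin v) (a : ℤ) :
    Dd Q f k (C a) = 0 := by
  unfold Dd
  refine Finset.sum_eq_zero fun j _ => ?_
  rw [pderiv_C, mul_zero]

private theorem pd_prod (u : Fin v → ℕ) (j : Fin v) (s : Finset (Fin v)) (hj : j ∉ s) :
    pderiv j (∏ i ∈ s, (X i : MvPolynomial (Fin v) ℤ) ^ u i) = 0 := by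
  induction s using Finset.induction_on with
  | empty => rw [Finset.prod_empty, pderiv_one]
  | insert a s ha ih =>
    rw [Finset.mem_insert, not_or] at hj
    rw [Finset.prod_insert ha, pderiv_mul, ih hj.2, mul_zero, add_zero, pderiv_pow,
      pderiv_X_of_ne (Ne.symm hj.1), mul_zero, zero_mul]

private theorem pd_mon (u : Fin v → ℕ) (j : Fin v) :
    (∏ i, (X i : MvPolynomial (Fin v) ℤ)) * pderiv j (∏ i, X i ^ u i) =
      (∏ i, X i ^ u i) * (C (u j : ℤ) * ∏ i' ∈ Finset.univ.erase j, X i') := by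
  rw [← Finset.mul_prod_erase Finset.univ (fun i => (X i : MvPolynomial (Fin v) ℤ) ^ u i)
    (Finset.mem_univ j), ← Finset.mul_prod_erase Finset.univ
    (fun i => (X i : MvPolynomial (Fin v) ℤ)) (Finset.mem_univ j), pderiv_mul,
    pd_prod u j _ (Finset.notMem_erase _ _), mul_zero, add_zero, pderiv_pow, pderiv_X_self, mul_one]
  rcases Nat.eq_zero_or_pos (u j) with h | h
  · rw [h]
    simp
  · obtain ⟨m, hm⟩ : ∃ m, u j = m + 1 := ⟨u j - 1, by omega⟩
    rw [hm, Nat.add_sub_cancel]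
    have h1 : (C ((m + 1 : ℕ) : ℤ) : MvPolynomial (Fin v) ℤ) = ((m + 1 : ℕ) : MvPolynomial (Fin v) ℤ) := by
      simp
    rw [h1]
    ring

theorem AA_mul (u : Fin v → ℕ) (Q : Fin n → MvPolynomial (Fin v) ℤ) (f : Fin n → Fin v)
    (k : Fin v) : (∏ i, X i) * Dd Q f k (∏ i, X i ^ u i) = (∏ i, X i ^ u i) * AA u Q f k := by
  unfold Dd AA
  rw [Finset.mul_sum, Finset.mul_sum]
  refine Finset.sum_congr rfl fun j _ => ?_
  have h := pd_mon u j
  calc (∏ i, (X i : MvPolynomial (Fin v) ℤ)) * (vf Q f k j * pderiv j (∏ i, X i ^ u i))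
      = vf Q f k j * ((∏ i, (X i : MvPolynomial (Fin v) ℤ)) * pderiv j (∏ i, X i ^ u i)) := by ring
    _ = _ := by
      rw [h]
      ring

theorem Dd_Fp (a : Fin r → ℤ) (u : Fin r → Fin v → ℕ) (Q : Fin n → MvPolynomial (Fin v) ℤ)
    (f : Fin n → Fin v) (k : Fin v) (z : Fin v → ℤ) :
    (∏ i, z i) * eval z (Dd Q f k (Fp a u)) = ∑ s, U a u z s * eval z (AA (u s) Q f k) := by
  have h1 : Dd Q f k (Fp a u) = ∑ s, C (a s) * Dd Q f k (∏ i, X i ^ u s i) := by
    unfold Dd Fp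
    simp only [map_sum, pderiv_C_mul, Finset.mul_sum]
    rw [Finset.sum_comm]
    refine Finset.sum_congr rfl fun s _ => Finset.sum_congr rfl fun j _ => ?_
    ring
  rw [h1, map_sum, Finset.mul_sum]
  refine Finset.sum_congr rfl fun s _ => ?_
  have h2 := congrArg (eval z) (AA_mul (u s) Q f k)
  rw [map_mul, map_mul, map_prod, map_prod] at h2
  simp only [eval_X, map_pow] at h2
  rw [map_mul, eval_C]
  unfold U
  calc (∏ i, z i) * (a s * eval z (Dd Q f k (∏ i, X i ^ u s i)))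
      = a s * ((∏ i, z i) * eval z (Dd Q f k (∏ i, X i ^ u s i))) := by ring
    _ = _ := by
      rw [h2]
      ring

theorem Dw_append (Q : Fin n → MvPolynomial (Fin v) ℤ) (f : Fin n → Fin v) (g : Fin d → Fin v)
    (w : List (Fin d)) (k : Fin d) (P : MvPolynomial (Fin v) ℤ) :
    Dw Q f g (w ++ [k]) P = Dw Q f g w (Dd Q f (g k) P) := by
  unfold Dw
  rw [List.foldr_append]
  rfl

end Pool.MP_a95293_nt.GV
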