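import Pool.Agent.Lib_MP_a95293_gv.Cls

/-!
# THEOREM G, piece Ind: the induction

`claim_top`: `f : Fin (v + 1) → Fin v` is not injective, so two columns of `jac H f z` agree and the determinant is `0` (`Matrix.det_zero_of_column_eq`): `S` is empty.
`claim_step`: constants: `cls` gives `h`. Given `A, E, c`: `J = c (m + 1) + 2`; `cls A E c` gives `C1, B1`; `B0 = max` of `B1`, `2 ^ J`, `(m + 1)!`, `2`; `C = v ^ (m + 1) * J * 2 ^ (J v) * C1`. For `z ∈ S` choose `f(z)` with nonzero determinant; its absolute value is at most `(m + 1)! * B ^ (c (m + 1)) ≤ B ^ J` (`Matrix.det_le` or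
expand `Matrix.det_apply`), so `primes_above J B`, `exists_not_dvd` give a prime `p(z)`, `B < p ≤ 2 ^ J B ≤ B ^ 2`, which does not divide it. Data `(f, p, (z_i mod p)_i)`: at most `v ^ (m + 1) * J * (2 ^ J B) ^ v` values. `f` is injective (determinant not `0`); take `g` = the increasing enumeration of the complement
of `range f` (`Finset.orderEmbOfFin`, the complement has `v - (m + 1)` elements). On a fibre `cls` applies. `2 v (v - (m + 1)) + v + v = 2 v (v - m)` for `m < v`. `card_fib`.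
`claim_all`: induction on `v - m`.
`start`: `m = 0`, `H = fun _ => Fp a u`. If `v = 0` then `S` has at most one element. Constants: `claim_all r v κ 0` gives `h1`, `h = max h1 1`. Given `A, E`: `c = A + v κ E + 2`, `B0 = max` of its `B0`, `E + 1`, `r`, `1`. `|eval z (pderiv i (Fp a u))| ≤ r E B ^ A B ^ (κ v E) ≤ B ^ c`. The points with some `pderiv i F (z) ≠ 0` satisfy the claim
(`f = fun _ => i`, `Matrix.det_fin_one` or `det_unique`). For the other points `z_i ∂_i F(z) = ∑_s u_s i * U_s(z) = 0` for all `i`, and `u_s i ≤ E ≤ B ≤ B ^ h`, so by `Pt.gp` `u_s i = u_s' i` for all `s, s'`; if this common value is `≥ 1`, `z_i` divides all `U_s(z)`, so it is a unit (`Pt.prim`) and `z_i = 1`. So `U(z) = a`: one more tuple.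
For `B < B0`: `S.card ≤ (B ^ κ) ^ v ≤ B0 ^ (κ v)` (box).
-/

namespace Pool.MP_a95293_nt.GV

open MvPolynomial

theorem claim_top (r v κ : ℕ) : Claim r v κ v := by
  refine ⟨0, fun A E c => ⟨0, 0, ?_⟩⟩
  intro B _ a u H S _ _ _ _ _ _ _ hS
  have hemp : S = ∅ := by
    by_contra hne
    obtain ⟨z, hz⟩ := Finset.nonempty_iff_ne_empty.mpr hne
    obtain ⟨f, hf⟩ := hS z hz
    have hni : ¬ Function.Injective f := by
      intro hinj
      have := Fintype.card_le_of_injective f hinj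
      simp at this
    have hni2 : ∃ i j, f i = f j ∧ i ≠ j := by
      by_contra hcon
      push Not at hcon
      exact hni fun i j hij => hcon i j hij
    obtain ⟨i, j, hij, hne'⟩ := hni2
    refine hf (Matrix.det_zero_of_column_eq hne' ?_)
    intro k
    simp only [jac, Matrix.of_apply, hij]
  subst hemp
  simp

private theorem ind_abs_le {v B κ : ℕ} {z : Fin v → ℤ} (h1 : ∀ i, 1 ≤ z i)
    (h2 : ∀ i, z i ≤ (B : ℤ) ^ κ) (i : Fin v) : |z i| ≤ (B : ℤ) ^ κ := by
  have h := h1 i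
  rw [abs_of_nonneg (by omega)]
  exact h2 i

private theorem ind_det {v B κ c m : ℕ} {H : Fin (m + 1) → MvPolynomial (Fin v) ℤ}
    (hH : ∀ i j, Sm B κ c (pderiv i (H j))) (hB : (m + 1).factorial ≤ B)
    {z : Fin v → ℤ} (hz : ∀ i, |z i| ≤ (B : ℤ) ^ κ) (f : Fin (m + 1) → Fin v) :
    |(jac H f z).det| ≤ (B : ℤ) ^ (c * (m + 1) + 2) := by
  have h1 : |(jac H f z).det| ≤ ((Fintype.card (Fin (m + 1))).factorial : ℕ) •
      ((B : ℤ) ^ c) ^ (Fintype.card (Fin (m + 1))) := by
    have := Matrix.det_le (A := jac H f z) (abv := (AbsoluteValue.abs : AbsoluteValue ℤ ℤ))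
      (x := (B : ℤ) ^ c) (by
        intro i j
        simp only [AbsoluteValue.abs_apply, jac, Matrix.of_apply]
        exact hH (f j) i z hz)
    simpa using this
  have hB1 : 1 ≤ B := le_trans (Nat.factorial_pos _) hB
  have hB1' : (1 : ℤ) ≤ (B : ℤ) := by exact_mod_cast hB1
  have h2 : (((m + 1).factorial : ℕ) : ℤ) ≤ (B : ℤ) := by exact_mod_cast hB
  simp only [Fintype.card_fin, nsmul_eq_mul] at h1
  calc |(jac H f z).det| ≤ (((m + 1).factorial : ℕ) : ℤ) * ((B : ℤ) ^ c) ^ (m + 1) := h1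
    _ ≤ (B : ℤ) * ((B : ℤ) ^ c) ^ (m + 1) := by
        apply mul_le_mul_of_nonneg_right h2 (by positivity)
    _ = (B : ℤ) ^ (c * (m + 1) + 1) := by rw [← pow_mul, pow_succ]; ring
    _ ≤ (B : ℤ) ^ (c * (m + 1) + 2) := pow_le_pow_right₀ hB1' (by omega)

theorem claim_step (r v κ m : ℕ) (hm : m < v) (ih : Claim r v κ (m + 1)) : Claim r v κ m := by
  classical
  obtain ⟨h, hh⟩ := cls r v κ m hm ih
  refine ⟨h, fun A E c => ?_⟩
  obtain ⟨C1, B1, hcls⟩ := hh A E c
  set J : ℕ := c * (m + 1) + 2 with hJ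
  refine ⟨v ^ (m + 1) * (J * 2 ^ (J * v)) * C1,
    max (max B1 (2 ^ J)) (max (m + 1).factorial 2), ?_⟩
  intro B hB a u H S ha hA hE hPt hH0 hSm hev hdet
  have hBB1 : B1 ≤ B := le_trans (le_trans (le_max_left _ _) (le_max_left _ _)) hB
  have hB2J : 2 ^ J ≤ B := le_trans (le_trans (le_max_right _ _) (le_max_left _ _)) hB
  have hBf : (m + 1).factorial ≤ B := le_trans (le_trans (le_max_left _ _) (le_max_right _ _)) hB
  have hB1 : 1 ≤ B := le_trans (Nat.factorial_pos _) hBf
  obtain ⟨P, hPc, hP⟩ := primes_above J B hB1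
  have hPne : P.Nonempty := by
    rw [← Finset.card_pos, hPc]; omega
  have hbox : ∀ z ∈ S, ∀ i, |z i| ≤ (B : ℤ) ^ κ := fun z hz =>
    ind_abs_le (hPt z hz).pos (hPt z hz).le
  -- the choice of the minor
  have hfe : ∃ fz : (Fin v → ℤ) → (Fin (m + 1) → Fin v), ∀ z ∈ S, (jac H (fz z) z).det ≠ 0 := by
    have : ∀ z : Fin v → ℤ, ∃ f : Fin (m + 1) → Fin v, z ∈ S → (jac H f z).det ≠ 0 := by
      intro z
      by_cases hz : z ∈ S
      · obtain ⟨f, hf⟩ := hdet z hz
        exact ⟨f, fun _ => hf⟩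
      · exact ⟨fun _ => ⟨0, by omega⟩, fun h => absurd h hz⟩
    choose fz hfz using this
    exact ⟨fz, fun z hz => hfz z hz⟩
  obtain ⟨fz, hfz⟩ := hfe
  have hpe : ∃ pz : (Fin v → ℤ) → ℕ, ∀ z ∈ S, pz z ∈ P ∧
      ¬ ((pz z : ℕ) : ℤ) ∣ (jac H (fz z) z).det := by
    have : ∀ z : Fin v → ℤ, ∃ p : ℕ, z ∈ S → p ∈ P ∧ ¬ ((p : ℕ) : ℤ) ∣ (jac H (fz z) z).det := by
      intro z
      by_cases hz : z ∈ S
      · have hN := ind_det hSm hBf (hbox z hz) (fz z)
        rw [← hJ, ← hPc] at hN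
        obtain ⟨p, hp, hpd⟩ := exists_not_dvd hPne (fun p hp => ⟨(hP p hp).1, (hP p hp).2.1⟩)
          (hfz z hz) hN
        exact ⟨p, fun _ => ⟨hp, hpd⟩⟩
      · exact ⟨0, fun h => absurd h hz⟩
    choose pz hpz using this
    exact ⟨pz, fun z hz => hpz z hz⟩
  obtain ⟨pz, hpz⟩ := hpe
  let D : Finset ((Fin (m + 1) → Fin v) × (ℕ × (Fin v → ℕ))) :=
    Finset.univ ×ˢ (P ×ˢ Fintype.piFinset (fun _ : Fin v => Finset.range (2 ^ J * B)))
  let φ : (Fin v → ℤ) → (Fin (m + 1) → Fin v) × (ℕ × (Fin v → ℕ)) := fun z =>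
    (fz z, (pz z, fun i => (z i % (pz z : ℤ)).toNat))
  have hpos : ∀ z ∈ S, (pz z).Prime ∧ B < pz z ∧ pz z ≤ 2 ^ J * B := fun z hz =>
    hP _ (hpz z hz).1
  have hφ : ∀ z ∈ S, φ z ∈ D := by
    intro z hz
    simp only [D, φ, Finset.mem_product, Finset.mem_univ, true_and, Fintype.mem_piFinset,
      Finset.mem_range]
    refine ⟨(hpz z hz).1, fun i => ?_⟩
    have hp0 : (0 : ℤ) < (pz z : ℤ) := by exact_mod_cast (hpos z hz).1.pos
    have h1 := Int.emod_nonneg (z i) hp0.ne'
    have h2 := Int.emod_lt_of_pos (z i) hp0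
    have h3 : (z i % (pz z : ℤ)).toNat < pz z := by omega
    exact lt_of_lt_of_le h3 (hpos z hz).2.2
  have hDc : D.card = v ^ (m + 1) * (J * (2 ^ J * B) ^ v) := by
    simp only [D, Finset.card_product, Finset.card_univ, Fintype.card_pi, Finset.prod_const,
      Fintype.card_fin, Fintype.card_piFinset, Finset.card_range, hPc]
  have hfib : ∀ b ∈ D, ((S.filter fun z => φ z = b).image (U a u)).card ≤
      C1 * B ^ (2 * v * (v - (m + 1)) + v) := by
    rintro ⟨f, p, ρ⟩ _
    rcases (S.filter fun z => φ z = (f, p, ρ)).eq_empty_or_nonempty with hem | ⟨z0, hz0⟩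
    · rw [hem]; simp
    have hmem : ∀ z ∈ S.filter (fun z => φ z = (f, p, ρ)),
        z ∈ S ∧ fz z = f ∧ pz z = p ∧ (fun i => (z i % (pz z : ℤ)).toNat) = ρ := by
      intro z hz
      rw [Finset.mem_filter] at hz
      obtain ⟨hz1, hz2⟩ := hz
      simp only [φ, Prod.mk.injEq] at hz2
      exact ⟨hz1, hz2.1, hz2.2.1, hz2.2.2⟩
    obtain ⟨hz0S, hf0, hp0, _⟩ := hmem z0 hz0
    have hdet0 : (jac H f z0).det ≠ 0 := by rw [← hf0]; exact hfz z0 hz0S
    have hinj : Function.Injective f := by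
      intro i j hij
      by_contra hne
      refine hdet0 (Matrix.det_zero_of_column_eq hne ?_)
      intro k
      simp only [jac, Matrix.of_apply, hij]
    have hpp := hpos z0 hz0S
    rw [hp0] at hpp
    have hcompl : ((Finset.univ.image f)ᶜ : Finset (Fin v)).card = v - (m + 1) := by
      rw [Finset.card_compl, Finset.card_image_of_injective _ hinj]
      simp
    let g : Fin (v - (m + 1)) → Fin v := fun k =>
      (Finset.orderEmbOfFin ((Finset.univ.image f)ᶜ : Finset (Fin v)) hcompl) k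
    have hg : Function.Injective g := fun x y hxy =>
      (Finset.orderEmbOfFin ((Finset.univ.image f)ᶜ : Finset (Fin v)) hcompl).injective hxy
    have hgm : ∀ k, g k ∈ ((Finset.univ.image f)ᶜ : Finset (Fin v)) := fun k =>
      Finset.orderEmbOfFin_mem _ hcompl k
    have hfg : ∀ i k, f i ≠ g k := by
      intro i k hik
      have := hgm k
      rw [Finset.mem_compl, Finset.mem_image] at this
      exact this ⟨i, Finset.mem_univ _, hik⟩
    have hcov : ∀ j, (∃ i, f i = j) ∨ ∃ k, g k = j := by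
      intro j
      by_cases hj : j ∈ Finset.univ.image f
      · rw [Finset.mem_image] at hj
        obtain ⟨i, _, hi⟩ := hj
        exact Or.inl ⟨i, hi⟩
      · right
        have hj' : j ∈ Set.range
            (Finset.orderEmbOfFin ((Finset.univ.image f)ᶜ : Finset (Fin v)) hcompl) := by
          rw [Finset.range_orderEmbOfFin]
          exact Finset.mem_coe.mpr (Finset.mem_compl.mpr hj)
        obtain ⟨k, hk⟩ := hj'
        exact ⟨k, hk⟩
    refine hcls B p hBB1 hpp.2.1 ?_ hpp.1 a u H f g _ ha hA hE hinj hg hfg hcov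
      (fun z hz => hPt z (hmem z hz).1) hH0 hSm (fun z hz => hev z (hmem z hz).1) ?_ ?_
    · calc p ≤ 2 ^ J * B := hpp.2.2
        _ ≤ B * B := Nat.mul_le_mul_right _ hB2J
        _ = B ^ 2 := by ring
    · intro z hz
      obtain ⟨hzS, hfz', hpz', _⟩ := hmem z hz
      have := (hpz z hzS).2
      rwa [hfz', hpz'] at this
    · intro z hz z' hz' i
      obtain ⟨hzS, _, hpz1, hρ1⟩ := hmem z hz
      obtain ⟨hzS', _, hpz2, hρ2⟩ := hmem z' hz'
      have h1 : (z i % (p : ℤ)).toNat = (z' i % (p : ℤ)).toNat := by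
        have e1 := congrFun hρ1 i
        have e2 := congrFun hρ2 i
        simp only [hpz1] at e1
        simp only [hpz2] at e2
        rw [e1, e2]
      have hp0' : (0 : ℤ) < (p : ℤ) := by exact_mod_cast hpp.1.pos
      have h2 := Int.emod_nonneg (z i) hp0'.ne'
      have h3 := Int.emod_nonneg (z' i) hp0'.ne'
      have h4 : z i % (p : ℤ) = z' i % (p : ℤ) := by omega
      exact Int.ModEq.dvd (Int.ModEq.symm h4)
  have hfin := card_fib S (U a u) D φ hφ _ hfib
  refine hfin.trans (le_of_eq ?_)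
  rw [hDc]
  have hexp : 2 * v * (v - m) = v + (2 * v * (v - (m + 1)) + v) := by
    obtain ⟨d, rfl⟩ : ∃ d, v = m + 1 + d := ⟨v - (m + 1), by omega⟩
    have e1 : m + 1 + d - m = d + 1 := by omega
    have e2 : m + 1 + d - (m + 1) = d := by omega
    rw [e1, e2]
    ring
  rw [hexp, pow_add B v, mul_pow, ← pow_mul]
  ring

theorem claim_all (r v κ m : ℕ) (hm : m ≤ v) : Claim r v κ m := by
  obtain ⟨d, rfl⟩ : ∃ d, v = m + d := ⟨v - m, by omega⟩
  have key : ∀ d' : ℕ, d' ≤ m + d → Claim r (m + d) κ (m + d - d') := by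
    intro d'
    induction d' with
    | zero => intro _; simpa using claim_top r (m + d) κ
    | succ e ihe =>
      intro he
      have h1 := ihe (by omega)
      have e1 : m + d - e = (m + d - (e + 1)) + 1 := by omega
      rw [e1] at h1
      exact claim_step r (m + d) κ (m + d - (e + 1)) (by omega) h1
  have := key d (by omega)
  simpa using this

private theorem ind_mono {v : ℕ} (a : ℤ) (u : Fin v → ℕ) :
    (C a * ∏ i, X i ^ u i : MvPolynomial (Fin v) ℤ) =
      monomial (Finsupp.equivFunOnFinite.symm u) a := by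
  rw [monomial_eq, Finsupp.prod_fintype _ _ (by intro i; simp)]
  simp

private theorem ind_pd {v : ℕ} (a : ℤ) (u : Fin v → ℕ) (i : Fin v) (z : Fin v → ℤ) :
    eval z (pderiv i (C a * ∏ i, X i ^ u i : MvPolynomial (Fin v) ℤ)) =
      a * (u i : ℤ) * ∏ j, z j ^ (u j - if i = j then 1 else 0) := by
  rw [ind_mono, pderiv_monomial, eval_monomial, Finsupp.prod_fintype _ _ (by intro i; simp)]
  congr 1
  refine Finset.prod_congr rfl fun j _ => ?_
  simp only [Finsupp.coe_tsub, Pi.sub_apply, Finsupp.equivFunOnFinite_symm_apply_apply,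
    Finsupp.single_apply]

private theorem ind_pdF {r v : ℕ} (a : Fin r → ℤ) (u : Fin r → Fin v → ℕ) (i : Fin v)
    (z : Fin v → ℤ) :
    eval z (pderiv i (Fp a u)) =
      ∑ s, a s * (u s i : ℤ) * ∏ j, z j ^ (u s j - if i = j then 1 else 0) := by
  unfold Fp
  rw [map_sum, map_sum]
  exact Finset.sum_congr rfl fun s _ => ind_pd (a s) (u s) i z

private theorem ind_mul {v : ℕ} (u : Fin v → ℕ) (i : Fin v) (z : Fin v → ℤ) :
    z i * ((u i : ℤ) * ∏ j, z j ^ (u j - if i = j then 1 else 0)) =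
      (u i : ℤ) * ∏ j, z j ^ u j := by
  rcases Nat.eq_zero_or_pos (u i) with h0 | h0
  · simp [h0]
  · have h1 : ∏ j, z j ^ u j =
        (∏ j, z j ^ (u j - if i = j then 1 else 0)) * ∏ j, z j ^ (if i = j then 1 else 0) := by
      rw [← Finset.prod_mul_distrib]
      refine Finset.prod_congr rfl fun j _ => ?_
      rw [← pow_add]
      congr 1
      split_ifs with hij
      · subst hij; omega
      · omega
    have h2 : ∏ j, z j ^ (if i = j then 1 else 0) = z i := by
      rw [Finset.prod_eq_single i]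
      · simp
      · intro j _ hj
        rw [if_neg (fun h => hj h.symm)]
        simp
      · intro h
        exact absurd (Finset.mem_univ _) h
    rw [h1, h2]
    ring

private theorem ind_mulF {r v : ℕ} (a : Fin r → ℤ) (u : Fin r → Fin v → ℕ) (i : Fin v)
    (z : Fin v → ℤ) :
    z i * eval z (pderiv i (Fp a u)) = ∑ s, (u s i : ℤ) * U a u z s := by
  rw [ind_pdF, Finset.mul_sum]
  refine Finset.sum_congr rfl fun s _ => ?_
  have h := ind_mul (u s) i z
  unfold U
  calc z i * (a s * (u s i : ℤ) * ∏ j, z j ^ (u s j - if i = j then 1 else 0))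
      = a s * (z i * ((u s i : ℤ) * ∏ j, z j ^ (u s j - if i = j then 1 else 0))) := by ring
    _ = a s * ((u s i : ℤ) * ∏ j, z j ^ u s j) := by rw [h]
    _ = (u s i : ℤ) * (a s * ∏ j, z j ^ u s j) := by ring

private theorem ind_sm {r v κ A E B : ℕ} (hB1 : 1 ≤ B) (hBr : r ≤ B) (hBE : E ≤ B)
    {a : Fin r → ℤ} {u : Fin r → Fin v → ℕ} (hA : ∀ s, |a s| ≤ (B : ℤ) ^ A)
    (hE : ∀ s i, u s i ≤ E) (i : Fin v) :
    Sm B κ (A + v * κ * E + 2) (pderiv i (Fp a u)) := by
  intro z hz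
  have hB1' : (1 : ℤ) ≤ (B : ℤ) := by exact_mod_cast hB1
  have hBk : (1 : ℤ) ≤ (B : ℤ) ^ κ := one_le_pow₀ hB1'
  rw [ind_pdF]
  have hterm : ∀ s ∈ (Finset.univ : Finset (Fin r)),
      |a s * (u s i : ℤ) * ∏ j, z j ^ (u s j - if i = j then 1 else 0)| ≤
        (B : ℤ) ^ A * (B : ℤ) * (B : ℤ) ^ (v * κ * E) := by
    intro s _
    rw [abs_mul, abs_mul]
    have h1 : |(u s i : ℤ)| ≤ (B : ℤ) := by
      rw [abs_of_nonneg (by positivity)]
      exact_mod_cast (hE s i).trans hBE
    have h2 : |∏ j, z j ^ (u s j - if i = j then 1 else 0)| ≤ (B : ℤ) ^ (v * κ * E) := by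
      rw [Finset.abs_prod]
      calc ∏ j, |z j ^ (u s j - if i = j then 1 else 0)|
          ≤ ∏ _j : Fin v, ((B : ℤ) ^ κ) ^ E := by
            refine Finset.prod_le_prod (fun j _ => abs_nonneg _) fun j _ => ?_
            rw [abs_pow]
            calc |z j| ^ (u s j - if i = j then 1 else 0)
                ≤ ((B : ℤ) ^ κ) ^ (u s j - if i = j then 1 else 0) :=
                  pow_le_pow_left₀ (abs_nonneg _) (hz j) _
              _ ≤ ((B : ℤ) ^ κ) ^ E :=
                  pow_le_pow_right₀ hBk ((Nat.sub_le _ _).trans (hE s j))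
        _ = (B : ℤ) ^ (v * κ * E) := by
            rw [Finset.prod_const, Finset.card_univ, Fintype.card_fin, ← pow_mul, ← pow_mul]
            congr 1
            ring
    exact mul_le_mul (mul_le_mul (hA s) h1 (abs_nonneg _) (by positivity)) h2 (abs_nonneg _)
      (by positivity)
  calc |∑ s, a s * (u s i : ℤ) * ∏ j, z j ^ (u s j - if i = j then 1 else 0)|
      ≤ ∑ s, |a s * (u s i : ℤ) * ∏ j, z j ^ (u s j - if i = j then 1 else 0)| :=
        Finset.abs_sum_le_sum_abs _ _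
    _ ≤ ∑ _s : Fin r, (B : ℤ) ^ A * (B : ℤ) * (B : ℤ) ^ (v * κ * E) := Finset.sum_le_sum hterm
    _ = (r : ℤ) * ((B : ℤ) ^ A * (B : ℤ) * (B : ℤ) ^ (v * κ * E)) := by
        rw [Finset.sum_const, Finset.card_univ, Fintype.card_fin, nsmul_eq_mul]
    _ ≤ (B : ℤ) * ((B : ℤ) ^ A * (B : ℤ) * (B : ℤ) ^ (v * κ * E)) := by
        refine mul_le_mul_of_nonneg_right ?_ (by positivity)
        exact_mod_cast hBr
    _ = (B : ℤ) ^ (A + v * κ * E + 2) := by ring

private theorem ind_rest {r v B κ h E : ℕ} {a : Fin r → ℤ} {u : Fin r → Fin v → ℕ}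
    (hB1 : 1 ≤ B) (hBE : E ≤ B) (hh : 1 ≤ h) (hE : ∀ s i, u s i ≤ E) {z : Fin v → ℤ}
    (hz : Pt a u B κ h z) (h0 : ∀ i, eval z (pderiv i (Fp a u)) = 0) : U a u z = a := by
  have hB1' : (1 : ℤ) ≤ (B : ℤ) := by exact_mod_cast hB1
  have hsame : ∀ i, ∀ s s' : Fin r, u s i = u s' i := by
    intro i s s'
    have h1 : ∑ s, (u s i : ℤ) * U a u z s = 0 := by
      rw [← ind_mulF, h0 i, mul_zero]
    have h2 := hz.gp (fun s => (u s i : ℤ)) (by
      intro s
      rw [abs_of_nonneg (by positivity)]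
      calc (u s i : ℤ) ≤ (B : ℤ) := by exact_mod_cast (hE s i).trans hBE
        _ = (B : ℤ) ^ 1 := (pow_one _).symm
        _ ≤ (B : ℤ) ^ h := pow_le_pow_right₀ hB1' hh) h1 s s'
    exact_mod_cast h2
  funext s
  unfold U
  have hone : ∏ i, z i ^ u s i = 1 := by
    refine Finset.prod_eq_one fun i _ => ?_
    rcases Nat.eq_zero_or_pos (u s i) with hu | hu
    · rw [hu, pow_zero]
    · have hunit : IsUnit (z i) := by
        refine hz.prim (z i) fun s' => ?_
        have hu' : u s' i ≠ 0 := by rw [hsame i s' s]; omega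
        unfold U
        refine Dvd.dvd.mul_left ?_ _
        exact (dvd_pow_self (z i) hu').trans (Finset.dvd_prod_of_mem _ (Finset.mem_univ i))
      have hzi := hz.pos i
      rcases Int.isUnit_iff.mp hunit with h1 | h1
      · rw [h1, one_pow]
      · omega
  rw [hone, mul_one]

theorem start (r v κ : ℕ) : ∃ h : ℕ, ∀ A E : ℕ, ∃ C : ℕ, ∀ B : ℕ, 1 ≤ B →
    ∀ (a : Fin r → ℤ) (u : Fin r → Fin v → ℕ) (S : Finset (Fin v → ℤ)),
      (∀ s, a s ≠ 0) → (∀ s, |a s| ≤ (B : ℤ) ^ A) → (∀ s i, u s i ≤ E) →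
      (∀ z ∈ S, Pt a u B κ h z) → (S.image (U a u)).card ≤ C * B ^ (2 * v * v) := by
  classical
  obtain ⟨h1, hcl⟩ := claim_all r v κ 0 (Nat.zero_le v)
  refine ⟨max h1 1, fun A E => ?_⟩
  obtain ⟨C', B0', hC⟩ := hcl A E (A + v * κ * E + 2)
  set B0 : ℕ := max (max B0' E) (max r 1) with hB0
  refine ⟨C' + 1 + B0 ^ (κ * v), ?_⟩
  intro B hB1 a u S ha hA hE hPt
  have hBpow : 1 ≤ B ^ (2 * v * v) := Nat.one_le_pow _ _ hB1
  by_cases hBB : B0 ≤ B
  · have hb1 : B0' ≤ B := le_trans (le_trans (le_max_left _ _) (le_max_left _ _)) hBB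
    have hb2 : E ≤ B := le_trans (le_trans (le_max_right _ _) (le_max_left _ _)) hBB
    have hb3 : r ≤ B := le_trans (le_trans (le_max_left _ _) (le_max_right _ _)) hBB
    set S1 : Finset (Fin v → ℤ) := S.filter (fun z => ∃ i, eval z (pderiv i (Fp a u)) ≠ 0) with hS1
    set S2 : Finset (Fin v → ℤ) := S.filter (fun z => ¬ ∃ i, eval z (pderiv i (Fp a u)) ≠ 0)
      with hS2
    have hSU : S = S1 ∪ S2 := (Finset.filter_union_filter_not_eq _ S).symm
    have hc1 : (S1.image (U a u)).card ≤ C' * B ^ (2 * v * (v - 0)) := by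
      refine hC B hb1 a u (fun _ => Fp a u) S1 ha hA hE ?_ rfl ?_ ?_ ?_
      · intro z hz
        exact (hPt z (Finset.mem_filter.mp hz).1).mono hB1 (le_max_left _ _)
      · intro i _
        exact ind_sm hB1 hb3 hb2 hA hE i
      · intro z hz _
        rw [eval_Fp]
        exact (hPt z (Finset.mem_filter.mp hz).1).sum
      · intro z hz
        obtain ⟨i, hi⟩ := (Finset.mem_filter.mp hz).2
        refine ⟨fun _ => i, ?_⟩
        intro hd
        have h1 := Matrix.det_fin_one (jac (n := 1) (fun _ => Fp a u) (fun _ => i) z)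
        exact hi (h1.symm.trans hd)
    have hc2 : (S2.image (U a u)).card ≤ 1 := by
      rw [Finset.card_le_one]
      intro x hx y hy
      rw [Finset.mem_image] at hx hy
      obtain ⟨z, hz, rfl⟩ := hx
      obtain ⟨z', hz', rfl⟩ := hy
      have key : ∀ z ∈ S2, U a u z = a := by
        intro z hz
        rw [hS2, Finset.mem_filter] at hz
        refine ind_rest hB1 hb2 (le_max_right h1 1) hE (hPt z hz.1) ?_
        intro i
        by_contra hne
        exact hz.2 ⟨i, hne⟩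
      rw [key z hz, key z' hz']
    have hsum : (S.image (U a u)).card ≤ C' * B ^ (2 * v * v) + 1 := by
      rw [hSU, Finset.image_union]
      refine (Finset.card_union_le _ _).trans ?_
      rw [Nat.sub_zero] at hc1
      exact Nat.add_le_add hc1 hc2
    calc (S.image (U a u)).card ≤ C' * B ^ (2 * v * v) + 1 := hsum
      _ ≤ C' * B ^ (2 * v * v) + 1 * B ^ (2 * v * v) + B0 ^ (κ * v) * B ^ (2 * v * v) := by
          rw [one_mul]
          exact le_trans (Nat.add_le_add_left hBpow _) (Nat.le_add_right _ _)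
      _ = (C' + 1 + B0 ^ (κ * v)) * B ^ (2 * v * v) := by ring
  · push Not at hBB
    have hsub : S ⊆ Fintype.piFinset (fun _ : Fin v => Finset.Icc (1 : ℤ) ((B : ℤ) ^ κ)) := by
      intro z hz
      rw [Fintype.mem_piFinset]
      intro i
      rw [Finset.mem_Icc]
      exact ⟨(hPt z hz).pos i, (hPt z hz).le i⟩
    have hcard : (Fintype.piFinset (fun _ : Fin v => Finset.Icc (1 : ℤ) ((B : ℤ) ^ κ))).card =
        (B ^ κ) ^ v := by
      rw [Fintype.card_piFinset]
      simp only [Int.card_Icc, Finset.prod_const, Finset.card_univ, Fintype.card_fin]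
      congr 1
      have : ((B : ℤ) ^ κ + 1 - 1) = ((B ^ κ : ℕ) : ℤ) := by push_cast; ring
      rw [this, Int.toNat_natCast]
    calc (S.image (U a u)).card ≤ S.card := Finset.card_image_le
      _ ≤ (B ^ κ) ^ v := by rw [← hcard]; exact Finset.card_le_card hsub
      _ = B ^ (κ * v) := by rw [pow_mul]
      _ ≤ B0 ^ (κ * v) := Nat.pow_le_pow_left hBB.le _
      _ ≤ C' + 1 + B0 ^ (κ * v) := Nat.le_add_left _ _
      _ ≤ (C' + 1 + B0 ^ (κ * v)) * B ^ (2 * v * v) := Nat.le_mul_of_pos_right _ hBpow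

end Pool.MP_a95293_nt.GV
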