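import Mathlib

/-!
# THEOREM G, piece LA: linear algebra with an integer matrix `N` (`n` rows, `v` columns) and a nonzero minor

1. `la_cut`: either the matrix with the new last row `g` has a nonzero minor of size `n + 1`, or `det * g` is an integer combination of the rows. Proof: `M = N.submatrix id f`, `λ = g_f * adjugate M` (row vector, `λ_i = ∑_j g_(f j) adj(M)_(j i)`).
If `det M * g_j = ∑ λ_i N_(i j)` for all `j`, done. Otherwise take `j` where it fails and `f' = Fin.snoc f j`; the `(n+1)`-minor is the determinant of the block matrix `[M, N_j; g_f, g_j]`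
(reindex by `finSumFinEquiv` or `Fin.snocEquiv`; over `ℚ`: `Matrix.det_fromBlocks₁₁`, `det [A, b; c, e] = det A * (e - c A⁻¹ b)`), that is `det M * g_j - g_f adj(M) N_j ≠ 0`. Alternatively: if the determinant were `0` there were a nonzero
vector `(x, t)` (`Matrix.exists_mulVec_eq_zero_iff`) with `M x + t N_j = 0`, `g_f x + t g_j = 0`; `t ≠ 0` as `det M ≠ 0`; multiply the first by `adj M`: `det M x = - t adj(M) N_j`, insert in the second (times `det M`): `t (det M g_j - g_f adj(M) N_j) = 0`, contradiction.
2. `la_supp`: if `det * g = ∑ λ_i N_i` and `g_(f i) = 0` for all `i`, then `λ M = 0`, `λ = 0`, `g = 0`.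
3. `la_perp`: vectors `q_i` with `c * q_i = ∑ λ_(i j) N_j` (`c ≠ 0`), `q_i (f i') = 0` for `i' ≠ i`, `q_i (f i) ≠ 0`, and `w` orthogonal to all `q_i`: then `w` is orthogonal to all rows `N_j`. Proof: `λ M = c diag(q_i (f i))`, so `det λ ≠ 0`, and `λ (N w) = c (q w) = 0`.
-/

namespace Pool.MP_a95293_nt.GV

theorem la_cut {n v : ℕ} (N : Matrix (Fin n) (Fin v) ℤ) (f : Fin n → Fin v)
    (hdet : (N.submatrix id f).det ≠ 0) (g : Fin v → ℤ) :
    (∃ f' : Fin (n + 1) → Fin v,
      (Matrix.of fun i j => (Fin.snoc (α := fun _ => Fin v → ℤ) (fun i => N i) g : Fin (n + 1) → Fin v → ℤ) i (f' j)).det ≠ 0) ∨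
    ∃ l : Fin n → ℤ, ∀ j, (N.submatrix id f).det * g j = ∑ i, l i * N i j := by
  classical
  set M := N.submatrix id f with hM
  by_cases hall : ∀ j, M.det * g j = ∑ i, (∑ k, g (f k) * M.adjugate k i) * N i j
  · exact Or.inr ⟨_, hall⟩
  push Not at hall
  obtain ⟨j, hj⟩ := hall
  refine Or.inl ⟨Fin.snoc (α := fun _ => Fin v) f j, fun h0 => ?_⟩
  obtain ⟨u, hu, hu0⟩ := Matrix.exists_mulVec_eq_zero_iff.2 h0
  have hrow : ∀ i : Fin n, ∑ k : Fin n, N i (f k) * u k.castSucc + N i j * u (Fin.last n) = 0 := by
    intro i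
    have := congrFun hu0 i.castSucc
    simpa [Matrix.mulVec, dotProduct, Fin.sum_univ_castSucc] using this
  have hlast : ∑ k : Fin n, g (f k) * u k.castSucc + g j * u (Fin.last n) = 0 := by
    have := congrFun hu0 (Fin.last n)
    simpa [Matrix.mulVec, dotProduct, Fin.sum_univ_castSucc] using this
  have ht : u (Fin.last n) ≠ 0 := by
    intro ht
    apply hu
    have hx : M.mulVec (fun k => u k.castSucc) = 0 := by
      funext i
      have := hrow i
      rw [ht, mul_zero, add_zero] at this
      simpa [Matrix.mulVec, dotProduct, hM] using this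
    have hx0 := Matrix.eq_zero_of_mulVec_eq_zero hdet hx
    funext k
    refine Fin.lastCases ?_ (fun k => ?_) k
    · simpa using ht
    · simpa using congrFun hx0 k
  have hadj : ∀ k : Fin n, M.det * u k.castSucc = - (u (Fin.last n) * ∑ i, M.adjugate k i * N i j) := by
    intro k
    have h1 : M.mulVec (fun k => u k.castSucc) = fun i => - (N i j * u (Fin.last n)) := by
      funext i
      have := hrow i
      simp only [Matrix.mulVec, dotProduct, hM, Matrix.submatrix_apply, id]
      linarith
    have h2 : M.adjugate.mulVec (M.mulVec fun k => u k.castSucc) = fun k => M.det * u k.castSucc := by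
      rw [Matrix.mulVec_mulVec, Matrix.adjugate_mul, Matrix.smul_mulVec, Matrix.one_mulVec]
      rfl
    have h3 := congrFun h2 k
    rw [h1] at h3
    rw [← h3]
    simp only [Matrix.mulVec, dotProduct, Finset.mul_sum, ← Finset.sum_neg_distrib]
    exact Finset.sum_congr rfl fun i _ => by ring
  apply hj
  have h4 : u (Fin.last n) * (M.det * g j - ∑ i, (∑ k, g (f k) * M.adjugate k i) * N i j) = 0 := by
    have h5 : M.det * (∑ k : Fin n, g (f k) * u k.castSucc + g j * u (Fin.last n)) = 0 := by
      rw [hlast, mul_zero]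
    have h6 : M.det * ∑ k : Fin n, g (f k) * u k.castSucc
        = - (u (Fin.last n) * ∑ i, (∑ k, g (f k) * M.adjugate k i) * N i j) := by
      calc M.det * ∑ k : Fin n, g (f k) * u k.castSucc
          = ∑ k : Fin n, g (f k) * (M.det * u k.castSucc) := by
            rw [Finset.mul_sum]
            exact Finset.sum_congr rfl fun k _ => by ring
        _ = ∑ k : Fin n, g (f k) * (- (u (Fin.last n) * ∑ i, M.adjugate k i * N i j)) :=
            Finset.sum_congr rfl fun k _ => by rw [hadj k]
        _ = - (u (Fin.last n) * ∑ k, ∑ i, g (f k) * (M.adjugate k i * N i j)) := by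
            rw [Finset.mul_sum, ← Finset.sum_neg_distrib]
            refine Finset.sum_congr rfl fun k _ => ?_
            rw [← Finset.mul_sum]
            ring
        _ = - (u (Fin.last n) * ∑ i, (∑ k, g (f k) * M.adjugate k i) * N i j) := by
            rw [Finset.sum_comm]
            congr 2
            refine Finset.sum_congr rfl fun i _ => ?_
            rw [Finset.sum_mul]
            exact Finset.sum_congr rfl fun k _ => by ring
    rw [mul_add, h6] at h5
    linarith
  rcases mul_eq_zero.1 h4 with h | h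
  · exact absurd h ht
  · linarith

theorem la_supp {n v : ℕ} (N : Matrix (Fin n) (Fin v) ℤ) (f : Fin n → Fin v)
    (hdet : (N.submatrix id f).det ≠ 0) (g : Fin v → ℤ) (l : Fin n → ℤ)
    (hl : ∀ j, (N.submatrix id f).det * g j = ∑ i, l i * N i j) (h0 : ∀ i, g (f i) = 0) :
    g = 0 := by
  classical
  have hl0 : l = 0 := by
    refine Matrix.eq_zero_of_vecMul_eq_zero hdet ?_
    funext k
    have := hl (f k)
    rw [h0, mul_zero] at this
    simpa [Matrix.vecMul, dotProduct] using this.symm
  funext j
  have := hl j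
  simp only [hl0, Pi.zero_apply, zero_mul, Finset.sum_const_zero] at this
  simpa using (mul_eq_zero.1 this).resolve_left hdet

theorem la_perp {n v : ℕ} (N : Matrix (Fin n) (Fin v) ℤ) (f : Fin n → Fin v) (c : ℤ)
    (hc : c ≠ 0) (q : Fin n → Fin v → ℤ) (l : Fin n → Fin n → ℤ)
    (hl : ∀ i j, c * q i j = ∑ i', l i i' * N i' j) (h0 : ∀ i i', i' ≠ i → q i (f i') = 0)
    (h1 : ∀ i, q i (f i) ≠ 0) (w : Fin v → ℤ) (hw : ∀ i, ∑ j, q i j * w j = 0) :
    ∀ i, ∑ j, N i j * w j = 0 := by
  classical
  have hmul : Matrix.of l * N.submatrix id f = Matrix.diagonal fun i => c * q i (f i) := by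
    ext i k
    rw [Matrix.mul_apply, Matrix.diagonal_apply]
    simp only [Matrix.of_apply, Matrix.submatrix_apply, id]
    rw [← hl i (f k)]
    split_ifs with hik
    · rw [hik]
    · rw [h0 i k fun h => hik h.symm, mul_zero]
  have hdet : (Matrix.of l).det ≠ 0 := by
    have h2 := congrArg Matrix.det hmul
    rw [Matrix.det_mul, Matrix.det_diagonal] at h2
    intro h3
    rw [h3, zero_mul] at h2
    exact Finset.prod_ne_zero_iff.2 (fun i _ => mul_ne_zero hc (h1 i)) h2.symm
  have hz : (Matrix.of l).mulVec (fun i => ∑ j, N i j * w j) = 0 := by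
    funext i
    simp only [Matrix.mulVec, dotProduct, Matrix.of_apply, Pi.zero_apply]
    calc ∑ i', l i i' * ∑ j, N i' j * w j = ∑ j, (∑ i', l i i' * N i' j) * w j := by
          simp only [Finset.mul_sum, Finset.sum_mul]
          rw [Finset.sum_comm]
          exact Finset.sum_congr rfl fun j _ => Finset.sum_congr rfl fun i' _ => by ring
      _ = ∑ j, c * (q i j * w j) := Finset.sum_congr rfl fun j _ => by rw [← hl i j]; ring
      _ = 0 := by rw [← Finset.mul_sum, hw i, mul_zero]
  exact congrFun (Matrix.eq_zero_of_mulVec_eq_zero hdet hz)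

end Pool.MP_a95293_nt.GV
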