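import Pool.Agent.Lib_MP_a95293_gv.Van

/-!
# THEOREM G, piece Ratio: the ratio of two monomials is constant on the class modulo `p ^ (k0 + 1)`

`I = II p d`, `F_0 = aeval γ (∏ X_i ^ (u i)) = ∏ γ_i ^ (u i)`, `F_1` the same for `u1`, `Z = ∏ γ_i`, `Δ = aeval γ (Del Q f)`, `b_s = constantCoeff F_s`.
1. `van2` for `P = ∏ X_i ^ (u i)`, times `Z`, and `AA_mul`: `Z Δ ∂_k F_0 ≡ F_0 * aeval γ (AA u Q f (g k))` modulo `I ^ N`, the same for `F_1`, `u1`. So `Z Δ (∂_k F_0 * F_1 - F_0 * ∂_k F_1) ≡ F_0 F_1 * aeval γ (AA u Q f (g k) - AA u1 Q f (g k))` modulo `I ^ N`, and the right side is in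
`I ^ (k0 + 1)` by `van` with `j = k0 + 1`. `Z Δ` is a unit modulo `I` (`≡ C (∏ z_i * eval z Δ)`, prime to `p`), so `W_k = ∂_k F_0 * F_1 - F_0 * ∂_k F_1 ∈ I ^ (k0 + 1)` (`mem_of_unit_mul`).
2. `K = C b_1 * F_0 - C b_0 * F_1`, `constantCoeff K = 0`, `∂_k K * F_1 - K * ∂_k F_1 = C b_1 * W_k`. Induction on `j ≤ k0 + 1`: `K ∈ I ^ j` implies `∂_k K * F_1 ∈ I ^ j`, `F_1` is a unit modulo `I` (`≡ C (∏ z_i ^ (u1 i))`), so `∂_k K ∈ I ^ j`, so `K ∈ I ^ (j + 1)` by `mem_of_grad`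
(for `j ≤ k0`; `constantCoeff K = 0`). So `K ∈ I ^ (k0 + 1)`.
3. Evaluate at `T_k = z' (g k) - z (g k)` (`eval_mem_II`): `p ^ (k0 + 1) ∣ b_1 * eval T F_0 - b_0 * eval T F_1`, and `eval T F_0 = ∏ (eval T γ_i) ^ (u i) ≡ ∏ z'_i ^ (u i)`, `b_0 ≡ ∏ z_i ^ (u i)` modulo `p ^ (N + 1)`, the same for `u1`.
-/

namespace Pool.MP_a95293_nt.GV

open MvPolynomial

variable {v n d : ℕ}

private theorem Ratio_prod {M : ℤ} (a b : Fin v → ℤ) (u : Fin v → ℕ) (h : ∀ i, M ∣ a i - b i) :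
    M ∣ ∏ i, a i ^ u i - ∏ i, b i ^ u i := by
  have h1 : ∀ i, Ideal.Quotient.mk (Ideal.span {M}) (a i) =
      Ideal.Quotient.mk (Ideal.span {M}) (b i) := fun i =>
    Ideal.Quotient.eq.mpr (Ideal.mem_span_singleton.mpr (h i))
  refine Ideal.mem_span_singleton.mp (Ideal.Quotient.eq.mp ?_)
  rw [map_prod, map_prod]
  exact Finset.prod_congr rfl fun i _ => by rw [map_pow, map_pow, h1]

private theorem Ratio_alg (i1 i2 : Algebra ℤ (MvPolynomial (Fin d) ℤ))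
    (γ : Fin v → MvPolynomial (Fin d) ℤ) (P : MvPolynomial (Fin v) ℤ) :
    @aeval ℤ (MvPolynomial (Fin d) ℤ) (Fin v) _ _ i1 γ P =
      @aeval ℤ (MvPolynomial (Fin d) ℤ) (Fin v) _ _ i2 γ P := by
  rw [Subsingleton.elim i1 i2]

private theorem Ratio_ev (i1 : Algebra ℤ (MvPolynomial (Fin d) ℤ)) (z : Fin v → ℤ)
    (P : MvPolynomial (Fin v) ℤ) :
    @aeval ℤ (MvPolynomial (Fin d) ℤ) (Fin v) _ _ i1 (fun i => C (z i)) P = C (eval z P) := by
  induction P using MvPolynomial.induction_on with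
  | C a =>
    rw [aeval_C, eval_C]
    exact (eq_intCast (algebraMap ℤ (MvPolynomial (Fin d) ℤ)) a).trans (eq_intCast C a).symm
  | add p q hp hq => rw [map_add, map_add, map_add, hp, hq]
  | mul_X p i hp => rw [map_mul, map_mul, map_mul, hp, aeval_X, eval_X]

private theorem Ratio_red {p : ℕ} {z : Fin v → ℤ} {γ : Fin v → MvPolynomial (Fin d) ℤ}
    (hγ : ∀ j, γ j - C (z j) ∈ II p d) (P : MvPolynomial (Fin v) ℤ) :
    aeval γ P - C (eval z P) ∈ II p d := by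
  have h := taylor0 (II p d) P (fun i => C (z i)) (fun i => γ i - C (z i)) hγ
  have e1 : (fun i => C (z i) + (γ i - C (z i))) = γ := by
    funext i
    ring
  rw [e1, Ratio_ev] at h
  rw [Ratio_alg _ (Ring.toIntAlgebra _) γ P]
  exact h

private theorem Ratio_unit {p : ℕ} (hp : p.Prime) {z : Fin v → ℤ}
    {γ : Fin v → MvPolynomial (Fin d) ℤ} (hγ : ∀ j, γ j - C (z j) ∈ II p d)
    (P : MvPolynomial (Fin v) ℤ) (hP : ¬ (p : ℤ) ∣ eval z P) :
    ∃ U, U * aeval γ P - 1 ∈ II p d := by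
  have hc : IsCoprime (p : ℤ) (eval z P) :=
    (Prime.coprime_iff_not_dvd (Nat.prime_iff_prime_int.mp hp)).mpr hP
  obtain ⟨a, b, hab⟩ := hc
  refine ⟨C b, ?_⟩
  have e : C b * aeval γ P - 1 = C b * (aeval γ P - C (eval z P)) -
      C a * (C (p : ℤ) : MvPolynomial (Fin d) ℤ) := by
    have h1 : (C a : MvPolynomial (Fin d) ℤ) * C (p : ℤ) + C b * C (eval z P) = 1 := by
      rw [← C_mul, ← C_mul, ← C_add, hab, C_1]
    linear_combination h1
  rw [e]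
  refine Ideal.sub_mem _ (Ideal.mul_mem_left _ _ (Ratio_red hγ P)) (Ideal.mul_mem_left _ _ ?_)
  exact Ideal.subset_span (Or.inl rfl)

private theorem Ratio_mono {p a b : ℕ} (h : a ≤ b) {x : MvPolynomial (Fin d) ℤ}
    (hx : x ∈ II p d ^ b) : x ∈ II p d ^ a := Ideal.pow_le_pow_right h hx

private theorem Ratio_ndvd {p : ℕ} (hp : p.Prime) {z : Fin v → ℤ} (hz : ∀ i, ¬ (p : ℤ) ∣ z i)
    (u : Fin v → ℕ) : ¬ (p : ℤ) ∣ ∏ i, z i ^ u i := by
  have hpp : Prime (p : ℤ) := Nat.prime_iff_prime_int.mp hp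
  intro h
  obtain ⟨i, _, hi⟩ := (hpp.dvd_finsetProd_iff _).mp h
  exact hz i (hpp.dvd_of_dvd_pow hi)

private theorem Ratio_E {p N : ℕ} (Q : Fin n → MvPolynomial (Fin v) ℤ) (f : Fin n → Fin v)
    (g : Fin d → Fin v) (hf : Function.Injective f) (hg : Function.Injective g)
    (hfg : ∀ i k, f i ≠ g k) (hcov : ∀ j, (∃ i, f i = j) ∨ ∃ k, g k = j)
    (hs : ∀ i i', i ≠ i' → pderiv (f i') (Q i) = 0) (z : Fin v → ℤ)
    (γ : Fin v → MvPolynomial (Fin d) ℤ) (hγg : ∀ k, γ (g k) = C (z (g k)) + X k)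
    (hQ : ∀ i, aeval γ (Q i) ∈ II p d ^ (N + 1)) (k : Fin d) (u : Fin v → ℕ) :
    (∏ i, γ i) * aeval γ (Del Q f) * pderiv k (∏ i, γ i ^ u i) -
      (∏ i, γ i ^ u i) * aeval γ (AA u Q f (g k)) ∈ II p d ^ N := by
  have h := van2 Q f g hf hg hfg hcov hs z γ hγg hQ k (∏ i, X i ^ u i)
  have e1 : aeval γ (∏ i, X i ^ u i : MvPolynomial (Fin v) ℤ) = ∏ i, γ i ^ u i := by
    rw [map_prod]
    exact Finset.prod_congr rfl fun i _ => by rw [map_pow, aeval_X]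
  have e2 : aeval γ (∏ i, X i : MvPolynomial (Fin v) ℤ) = ∏ i, γ i := by
    rw [map_prod]
    exact Finset.prod_congr rfl fun i _ => aeval_X _ _
  have e3 : (∏ i, γ i) * aeval γ (Dd Q f (g k) (∏ i, X i ^ u i)) =
      (∏ i, γ i ^ u i) * aeval γ (AA u Q f (g k)) := by
    rw [← e1, ← e2, ← map_mul, ← map_mul, AA_mul]
  rw [e1] at h
  have h2 := Ideal.mul_mem_left _ (∏ i, γ i) h
  have e4 : (∏ i, γ i) * aeval γ (Del Q f) * pderiv k (∏ i, γ i ^ u i) -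
      (∏ i, γ i ^ u i) * aeval γ (AA u Q f (g k)) = (∏ i, γ i) *
      (aeval γ (Del Q f) * pderiv k (∏ i, γ i ^ u i) -
        aeval γ (Dd Q f (g k) (∏ i, X i ^ u i))) := by
    rw [← e3]
    ring
  rw [e4]
  exact h2

theorem con {p N k0 : ℕ} (hp : p.Prime) (hN : k0 + 1 ≤ N) (hkp : k0 + 1 ≤ p)
    (u u1 : Fin v → ℕ)
    (Q : Fin n → MvPolynomial (Fin v) ℤ) (f : Fin n → Fin v)
    (g : Fin d → Fin v) (hf : Function.Injective f) (hg : Function.Injective g)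
    (hfg : ∀ i k, f i ≠ g k) (hcov : ∀ j, (∃ i, f i = j) ∨ ∃ k, g k = j)
    (hs : ∀ i i', i ≠ i' → pderiv (f i') (Q i) = 0) (z : Fin v → ℤ)
    (hz : ∀ i, ¬ (p : ℤ) ∣ z i)
    (hΔ : ¬ (p : ℤ) ∣ eval z (Del Q f)) (γ : Fin v → MvPolynomial (Fin d) ℤ)
    (hγg : ∀ k, γ (g k) = C (z (g k)) + X k) (hγ : ∀ j, γ j - C (z j) ∈ II p d)
    (hγ0 : ∀ j, (p : ℤ) ^ (N + 1) ∣ constantCoeff (γ j) - z j)
    (hQ : ∀ i, aeval γ (Q i) ∈ II p d ^ (N + 1))
    (hR : ∀ (k : Fin d) (w : List (Fin d)), w.length ≤ k0 →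
      eval z (Dw Q f g w (AA u Q f (g k) - AA u1 Q f (g k))) = 0)
    (z' : Fin v → ℤ) (hz' : ∀ i, (p : ℤ) ∣ z' i - z i)
    (hγ' : ∀ j, (p : ℤ) ^ (N + 1) ∣ z' j - eval (fun k => z' (g k) - z (g k)) (γ j)) :
    (p : ℤ) ^ (k0 + 1) ∣ (∏ i, z' i ^ u i) * (∏ i, z i ^ u1 i) -
      (∏ i, z i ^ u i) * ∏ i, z' i ^ u1 i := by
  obtain ⟨F0, hF0⟩ : ∃ F, F = ∏ i, γ i ^ u i := ⟨_, rfl⟩
  obtain ⟨F1, hF1⟩ : ∃ F, F = ∏ i, γ i ^ u1 i := ⟨_, rfl⟩
  have hpp : Prime (p : ℤ) := Nat.prime_iff_prime_int.mp hp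
  -- step 1
  have hW : ∀ k, pderiv k F0 * F1 - F0 * pderiv k F1 ∈ II p d ^ (k0 + 1) := by
    intro k
    have h0 := Ratio_mono hN (Ratio_E Q f g hf hg hfg hcov hs z γ hγg hQ k u)
    have h1 := Ratio_mono hN (Ratio_E Q f g hf hg hfg hcov hs z γ hγg hQ k u1)
    rw [← hF0] at h0
    rw [← hF1] at h1
    have h2 := van hp Q f g hf hg hfg hcov hs z hΔ γ hγg hγ hγ0 hQ (k0 + 1) hN hkp
      (AA u Q f (g k) - AA u1 Q f (g k)) (fun w hw => hR k w (Nat.lt_succ_iff.mp hw))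
    rw [map_sub] at h2
    have e2 : aeval γ ((∏ i, X i) * Del Q f) = (∏ i, γ i) * aeval γ (Del Q f) := by
      rw [map_mul, map_prod]
      congr 1
      exact Finset.prod_congr rfl fun i _ => aeval_X _ _
    obtain ⟨U, hU⟩ := Ratio_unit hp hγ ((∏ i, X i) * Del Q f) (by
      rw [eval_mul]
      intro h
      rcases hpp.dvd_or_dvd h with h | h
      · rw [eval_prod] at h
        obtain ⟨i, _, hi⟩ := (hpp.dvd_finsetProd_iff _).mp h
        rw [eval_X] at hi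
        exact hz i hi
      · exact hΔ h)
    rw [e2] at hU
    refine mem_of_unit_mul _ hU (k0 + 1) ?_
    have e : (∏ i, γ i) * aeval γ (Del Q f) * (pderiv k F0 * F1 - F0 * pderiv k F1) =
        ((∏ i, γ i) * aeval γ (Del Q f) * pderiv k F0 - F0 * aeval γ (AA u Q f (g k))) * F1 -
        F0 * ((∏ i, γ i) * aeval γ (Del Q f) * pderiv k F1 - F1 * aeval γ (AA u1 Q f (g k))) +
        F0 * F1 * (aeval γ (AA u Q f (g k)) - aeval γ (AA u1 Q f (g k))) := by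
      ring
    rw [e]
    exact Ideal.add_mem _ (Ideal.sub_mem _ (Ideal.mul_mem_right _ _ h0)
      (Ideal.mul_mem_left _ _ h1)) (Ideal.mul_mem_left _ _ h2)
  -- step 2
  obtain ⟨b0, hb0⟩ : ∃ b, b = constantCoeff F0 := ⟨_, rfl⟩
  obtain ⟨b1, hb1⟩ : ∃ b, b = constantCoeff F1 := ⟨_, rfl⟩
  have hK : ∀ j, j ≤ k0 + 1 → C b1 * F0 - C b0 * F1 ∈ II p d ^ j := by
    intro j
    induction j with
    | zero => intro _; rw [pow_zero, Ideal.one_eq_top]; trivial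
    | succ j ih =>
      intro hj
      have hj' : j ≤ k0 + 1 := by omega
      refine mem_of_grad hp (by omega) _ ?_ fun k => ?_
      · have h0 : constantCoeff (C b1 * F0 - C b0 * F1) = 0 := by
          rw [map_sub, map_mul, map_mul, constantCoeff_C, constantCoeff_C, ← hb0, ← hb1]
          ring
        rw [h0]
        exact dvd_zero _
      · obtain ⟨U, hU⟩ := Ratio_unit hp hγ (∏ i, X i ^ u1 i) (by
          have h := Ratio_ndvd hp hz u1
          rw [eval_prod]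
          simpa only [eval_pow, eval_X] using h)
        have e1 : aeval γ (∏ i, X i ^ u1 i : MvPolynomial (Fin v) ℤ) = F1 := by
          rw [hF1, map_prod]
          exact Finset.prod_congr rfl fun i _ => by rw [map_pow, aeval_X]
        rw [e1] at hU
        refine mem_of_unit_mul _ hU j ?_
        have e : F1 * pderiv k (C b1 * F0 - C b0 * F1) =
            (C b1 * F0 - C b0 * F1) * pderiv k F1 +
              C b1 * (pderiv k F0 * F1 - F0 * pderiv k F1) := by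
          rw [map_sub, pderiv_C_mul, pderiv_C_mul]
          ring
        rw [e]
        exact Ideal.add_mem _ (Ideal.mul_mem_right _ _ (ih hj'))
          (Ideal.mul_mem_left _ _ (Ratio_mono hj' (hW k)))
  -- step 3
  obtain ⟨T, hT⟩ : ∃ T : Fin d → ℤ, T = fun k => z' (g k) - z (g k) := ⟨_, rfl⟩
  have h3 := eval_mem_II (hK (k0 + 1) le_rfl) (T := T) (fun k => by rw [hT]; exact hz' (g k))
  rw [eval_sub, eval_mul, eval_mul, eval_C, eval_C] at h3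
  have eb : ∀ u : Fin v → ℕ, constantCoeff (∏ i, γ i ^ u i) =
      ∏ i, (constantCoeff (γ i)) ^ u i := fun u => by
    rw [map_prod]
    exact Finset.prod_congr rfl fun i _ => map_pow _ _ _
  have eT : ∀ u : Fin v → ℕ, eval T (∏ i, γ i ^ u i) = ∏ i, (eval T (γ i)) ^ u i := fun u => by
    rw [eval_prod]
    exact Finset.prod_congr rfl fun i _ => map_pow _ _ _
  have hM : (p : ℤ) ^ (k0 + 1) ∣ (p : ℤ) ^ (N + 1) := pow_dvd_pow _ (by omega)
  have c1 : ∀ u : Fin v → ℕ, (p : ℤ) ^ (k0 + 1) ∣ ∏ i, z' i ^ u i -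
      eval T (∏ i, γ i ^ u i) := fun u => by
    rw [eT]
    exact Ratio_prod _ _ u fun i => hM.trans (by rw [hT]; exact hγ' i)
  have c2 : ∀ u : Fin v → ℕ, (p : ℤ) ^ (k0 + 1) ∣ ∏ i, z i ^ u i -
      constantCoeff (∏ i, γ i ^ u i) := fun u => by
    rw [eb]
    exact Ratio_prod _ _ u fun i => (dvd_sub_comm).mp (hM.trans (hγ0 i))
  have d1 := c1 u
  have d2 := c1 u1
  have d3 := c2 u
  have d4 := c2 u1
  rw [← hF0] at d1 d3
  rw [← hF1] at d2 d4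
  rw [← hb0] at d3
  rw [← hb1] at d4
  have e : (∏ i, z' i ^ u i) * (∏ i, z i ^ u1 i) - (∏ i, z i ^ u i) * ∏ i, z' i ^ u1 i =
      (∏ i, z' i ^ u i - eval T F0) * (∏ i, z i ^ u1 i) +
      eval T F0 * (∏ i, z i ^ u1 i - b1) + (b1 * eval T F0 - b0 * eval T F1) -
      (∏ i, z i ^ u i - b0) * (∏ i, z' i ^ u1 i) -
      b0 * (∏ i, z' i ^ u1 i - eval T F1) := by
    ring
  rw [e]
  exact dvd_sub (dvd_sub (dvd_add (dvd_add (d1.mul_right _) (d4.mul_left _)) h3)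
    (d3.mul_right _)) (d2.mul_left _)

end Pool.MP_a95293_nt.GV
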