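import Pool.Agent.Lib_MP_a95293_gv.Tri
import Pool.Agent.Lib_MP_a95293_gv.FinC
import Pool.Agent.Lib_MP_a95293_gv.BdB

/-!
# THEOREM G, piece Step: the points with given `f, g, Q`

`d = v - (m + 1)`. Constants: `ih` gives `h1`, `tri r v κ m d D c` gives `h2`, `h = max h1 h2`. Given `A, E, c'`: `fin_class r v κ (m+1) d D c E` gives `k0, C2, B2`; `bd_words r v (m+1) d D c E k0` gives `D1, c1, B3`; `c'' = c' + (c + 1 + κ D) + (c1 + 1 + κ D1)`;
`ih A E c''` gives `C1, B1`; `tri` for `E` gives `B4`; `B0 = max` of all, `D`, `D1`, `1`. `C = ((m + 1) + r * r * d * W) * C1 + C2`, `W` the number of the lists over `Fin d` of length `< k0` (`List.finite_length_lt` or `List.finite_length_le`).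
Proof. By `tri` (with `k0`) `S` is the union of the `S_i = {z ∈ S : ∃ f', det (jac (Fin.snoc H (Q i)) f' z) ≠ 0}`, the `S_(s,s',k,w)` (`w.length < k0`; `G = Dw Q f g w (RR u Q f s s' (g k))` vanishes at `z`, `∃ f'` for `Fin.snoc H G`) and the set `S_fin` of the third case (`Classical`).
`S_i` and `S_(s,s',k,w)`: `Claim r v κ (m+1)` for `Fin.snoc H (Q i)` resp. `Fin.snoc H G` (`Fin.snoc` at `0 = Fin.castSucc 0` is `H 0`; `Fin.lastCases` for the hypotheses; `Sm` of `pderiv i (Q i)` and `pderiv i G` by `Bd.pderiv`, `Bd.sm`, monotone in the exponent since `B ≥ 1`; `Pt` with threshold `h ≥ h1`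
implies `Pt` with `h1`): at most `C1 * B ^ (2 v (v - (m + 1)))` tuples. `S_fin`: `fin_class`: at most `C2 * B ^ v`. Sum (`Finset.image_union`, `Finset.card_union_le`, `Finset.card_biUnion_le`; or `(S.image G).card ≤` sum over a finite index type of the images of the parts of a cover).
-/

namespace Pool.MP_a95293_nt.GV

open MvPolynomial

theorem Pt.mono {r v : ℕ} {a : Fin r → ℤ} {u : Fin r → Fin v → ℕ} {B κ h h' : ℕ}
    {z : Fin v → ℤ} (hz : Pt a u B κ h z) (hB : 1 ≤ B) (hh : h' ≤ h) : Pt a u B κ h' z := by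
  refine ⟨hz.pos, hz.le, hz.sum, hz.prim, fun c hc h0 => hz.gp c (fun s => ?_) h0⟩
  exact (hc s).trans (pow_le_pow_right₀ (by exact_mod_cast hB) hh)

private theorem Step_sm_mono {v B κ c c' : ℕ} {P : MvPolynomial (Fin v) ℤ} (hB : 1 ≤ B)
    (hc : c ≤ c') (h : Sm B κ c P) : Sm B κ c' P := fun z hz =>
  (h z hz).trans (pow_le_pow_right₀ (by exact_mod_cast hB) hc)

private theorem Step_cover {α β ι : Type} [Finite ι] [DecidableEq α] [DecidableEq β]
    (S : Finset α) (F : α → β) (T : ι → Finset α) (R : Finset α)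
    (h : ∀ z ∈ S, (∃ i, z ∈ T i) ∨ z ∈ R) (N M : ℕ) (hT : ∀ i, ((T i).image F).card ≤ N)
    (hR : (R.image F).card ≤ M) : (S.image F).card ≤ Nat.card ι * N + M := by
  classical
  let _ : Fintype ι := Fintype.ofFinite ι
  have h1 : S.image F ⊆ (Finset.univ.biUnion fun i => (T i).image F) ∪ R.image F := by
    intro x hx
    obtain ⟨z, hz, rfl⟩ := Finset.mem_image.1 hx
    rw [Finset.mem_union]
    rcases h z hz with ⟨i, hi⟩ | hr
    · exact Or.inl (Finset.mem_biUnion.2 ⟨i, Finset.mem_univ i, Finset.mem_image_of_mem F hi⟩)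
    · exact Or.inr (Finset.mem_image_of_mem F hr)
  calc (S.image F).card ≤ ((Finset.univ.biUnion fun i => (T i).image F) ∪ R.image F).card :=
        Finset.card_le_card h1
    _ ≤ (Finset.univ.biUnion fun i => (T i).image F).card + (R.image F).card :=
        Finset.card_union_le _ _
    _ ≤ Nat.card ι * N + M := by
        refine Nat.add_le_add ?_ hR
        rw [Nat.card_eq_fintype_card]
        exact Finset.card_biUnion_le_card_mul _ _ _ fun i _ => hT i

theorem typ (r v κ m D c : ℕ) (hm : m < v) (ih : Claim r v κ (m + 1)) :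
    ∃ h : ℕ, ∀ A E c' : ℕ, ∃ C B0 : ℕ, ∀ B : ℕ, B0 ≤ B →
    ∀ (a : Fin r → ℤ) (u : Fin r → Fin v → ℕ) (H Q : Fin (m + 1) → MvPolynomial (Fin v) ℤ)
      (f : Fin (m + 1) → Fin v) (g : Fin (v - (m + 1)) → Fin v) (S : Finset (Fin v → ℤ)),
      (∀ s, a s ≠ 0) → (∀ s, |a s| ≤ (B : ℤ) ^ A) → (∀ s i, u s i ≤ E) →
      Function.Injective f → Function.Injective g → (∀ i k, f i ≠ g k) →
      (∀ j, (∃ i, f i = j) ∨ ∃ k, g k = j) →
      (∀ z ∈ S, Pt a u B κ h z) → H 0 = Fp a u → (∀ i j, Sm B κ c' (pderiv i (H j))) →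
      (∀ z ∈ S, ∀ j, eval z (H j) = 0) → (∀ z ∈ S, (jac H f z).det ≠ 0) →
      (∀ i, Bd B D c (Q i)) → (∀ i i', i ≠ i' → pderiv (f i') (Q i) = 0) →
      (∀ z ∈ S, ∀ i, eval z (Q i) = 0 ∧ ∃ j, eval z (pderiv j (Q i)) ≠ 0) →
      (S.image (U a u)).card ≤ C * B ^ (2 * v * (v - (m + 1)) + v) := by
  obtain ⟨h1, hih⟩ := ih
  obtain ⟨h2, htri⟩ := tri r v κ m (v - (m + 1)) D c
  refine ⟨max h1 h2, fun A E c' => ?_⟩
  obtain ⟨k0, C2, B2, hfin⟩ := fin_class r v κ (m + 1) (v - (m + 1)) D c E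
  obtain ⟨D1, c1, B3, hw⟩ := bd_words r v (m + 1) (v - (m + 1)) D c E k0
  obtain ⟨C1, B1, hcl⟩ := hih A E (c' + (c + 1 + κ * D) + (c1 + 1 + κ * D1))
  obtain ⟨B4, ht⟩ := htri E
  have hfinW : Finite {w : List (Fin (v - (m + 1))) // w.length < k0} :=
    (List.finite_length_lt (Fin (v - (m + 1))) k0).to_subtype
  refine ⟨Nat.card (Fin (m + 1) ⊕ (Fin r × Fin r × Fin (v - (m + 1)) ×
    {w : List (Fin (v - (m + 1))) // w.length < k0})) * C1 + C2,
    max B1 (max B2 (max B3 (max B4 (max D (max D1 1))))), fun B hB0 => ?_⟩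
  intro a u H Q f g S ha haA hu hf hg hfg hcov hPt hH0 hSm hHz hdet hBd hs hQz
  have hB1 : B1 ≤ B := by omega
  have hB2 : B2 ≤ B := by omega
  have hB3 : B3 ≤ B := by omega
  have hB4 : B4 ≤ B := by omega
  have hBD : D ≤ B := by omega
  have hBD1 : D1 ≤ B := by omega
  have hB : 1 ≤ B := by omega
  classical
  -- the new equation of every case
  obtain ⟨G, hG⟩ : ∃ G : Fin (m + 1) ⊕ (Fin r × Fin r × Fin (v - (m + 1)) ×
      {w : List (Fin (v - (m + 1))) // w.length < k0}) → MvPolynomial (Fin v) ℤ,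
      G = Sum.elim Q fun x => Dw Q f g x.2.2.2.1 (RR u Q f x.1 x.2.1 (g x.2.2.1)) := ⟨_, rfl⟩
  have hGSm : ∀ x i, Sm B κ (c' + (c + 1 + κ * D) + (c1 + 1 + κ * D1)) (pderiv i (G x)) := by
    rintro (i0 | ⟨s, s', k, w, hwl⟩) i
    · rw [hG]
      exact Step_sm_mono hB (by omega) (((hBd i0).pderiv hBD i).sm hB)
    · rw [hG]
      exact Step_sm_mono hB (by omega)
        (((hw B hB3 Q f g u s s' (g k) w hBd hu hwl.le).pderiv hBD1 i).sm hB)
  obtain ⟨T, hT⟩ : ∃ T : Fin (m + 1) ⊕ (Fin r × Fin r × Fin (v - (m + 1)) ×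
      {w : List (Fin (v - (m + 1))) // w.length < k0}) → Finset (Fin v → ℤ),
      T = fun x => S.filter fun z => eval z (G x) = 0 ∧
        ∃ f', (jac (Fin.snoc (α := fun _ => MvPolynomial (Fin v) ℤ) H (G x)) f' z).det ≠ 0 :=
    ⟨_, rfl⟩
  obtain ⟨R, hR⟩ : ∃ R : Finset (Fin v → ℤ), R = S.filter fun z =>
      (∀ i, eval z (pderiv (f i) (Q i)) ≠ 0) ∧ ∀ (s s' : Fin r) (k : Fin (v - (m + 1)))
        (w : List (Fin (v - (m + 1)))), w.length ≤ k0 →
        eval z (Dw Q f g w (RR u Q f s s' (g k))) = 0 := ⟨_, rfl⟩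
  have hcover : ∀ z ∈ S, (∃ x, z ∈ T x) ∨ z ∈ R := by
    intro z hz
    rcases ht B hB4 a u H Q f g k0 z hu hf hfg ((hPt z hz).mono hB (le_max_right _ _)) hH0
      (hdet z hz) hBd hs (fun i => (hQz z hz i).2) with
      ⟨i, f', h3⟩ | ⟨s, s', k, w, hwl, h3, f', h4⟩ | h3
    · refine Or.inl ⟨Sum.inl i, ?_⟩
      rw [hT, Finset.mem_filter, hG]
      exact ⟨hz, (hQz z hz i).1, f', h3⟩
    · refine Or.inl ⟨Sum.inr (s, s', k, ⟨w, hwl⟩), ?_⟩
      rw [hT, Finset.mem_filter, hG]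
      exact ⟨hz, h3, f', h4⟩
    · refine Or.inr ?_
      rw [hR, Finset.mem_filter]
      exact ⟨hz, h3⟩
  have hTc : ∀ x, ((T x).image (U a u)).card ≤ C1 * B ^ (2 * v * (v - (m + 1))) := by
    intro x
    have hsub : ∀ z ∈ T x, z ∈ S ∧ eval z (G x) = 0 ∧
        ∃ f', (jac (Fin.snoc (α := fun _ => MvPolynomial (Fin v) ℤ) H (G x)) f' z).det ≠ 0 := by
      intro z hz
      rw [hT] at hz
      exact Finset.mem_filter.1 hz
    refine hcl B hB1 a u (Fin.snoc (α := fun _ => MvPolynomial (Fin v) ℤ) H (G x)) (T x) ha haA hu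
      (fun z hz => (hPt z (hsub z hz).1).mono hB (le_max_left _ _)) ?_ ?_ ?_
      (fun z hz => (hsub z hz).2.2)
    · have e : (0 : Fin (m + 1 + 1)) = Fin.castSucc 0 := rfl
      rw [e, Fin.snoc_castSucc]
      exact hH0
    · intro i j
      refine Fin.lastCases ?_ (fun j => ?_) j
      · rw [Fin.snoc_last]
        exact hGSm x i
      · rw [Fin.snoc_castSucc]
        exact Step_sm_mono hB (by omega) (hSm i j)
    · intro z hz j
      refine Fin.lastCases ?_ (fun j => ?_) j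
      · rw [Fin.snoc_last]
        exact (hsub z hz).2.1
      · rw [Fin.snoc_castSucc]
        exact hHz z (hsub z hz).1 j
  have hRc : (R.image (U a u)).card ≤ C2 * B ^ v := by
    have hsub : ∀ z ∈ R, z ∈ S ∧ (∀ i, eval z (pderiv (f i) (Q i)) ≠ 0) ∧
        ∀ (s s' : Fin r) (k : Fin (v - (m + 1)))
        (w : List (Fin (v - (m + 1)))), w.length ≤ k0 →
        eval z (Dw Q f g w (RR u Q f s s' (g k))) = 0 := by
      intro z hz
      rw [hR] at hz
      exact Finset.mem_filter.1 hz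
    exact hfin B hB2 a u Q f g R (max h1 h2) ha hu hf hg hfg hcov
      (fun z hz => hPt z (hsub z hz).1) hBd hs
      (fun z hz i => ⟨(hQz z (hsub z hz).1 i).1, (hsub z hz).2.1 i⟩)
      (fun z hz => (hsub z hz).2.2)
  have hfinal := Step_cover S (U a u) T R hcover _ _ hTc hRc
  refine hfinal.trans ?_
  rw [add_mul]
  have e1 : B ^ (2 * v * (v - (m + 1))) ≤ B ^ (2 * v * (v - (m + 1)) + v) :=
    Nat.pow_le_pow_right hB (by omega)
  have e2 : B ^ v ≤ B ^ (2 * v * (v - (m + 1)) + v) := Nat.pow_le_pow_right hB (by omega)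
  refine Nat.add_le_add ?_ (Nat.mul_le_mul_left _ e2)
  rw [← mul_assoc]
  exact Nat.mul_le_mul_left _ e1

end Pool.MP_a95293_nt.GV
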