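import Pool.Agent.Lib_MP_a95293_gv.Ind

/-!
# THEOREM G (final form)

Let `q ≥ 1` be a natural number with `2 v v / q ≤ τ`. `start r v (2 q κ)` gives `h`. Given `A, E`: `start` for `2 q A`, `E` gives `C'`. Let `B` be the largest natural number with `B ^ q ≤ X` (`Nat.findGreatest`, or
`Nat.floor` of `X ^ (1/q)`), `1 ≤ B`. If `B ≥ 2`: `X < (B + 1) ^ q ≤ (B ^ 2) ^ q`, so `Pt a u X κ h z` gives `Pt a u B (2 q κ) h z` (`X ^ κ ≤ B ^ (2 q κ)`; `B ≤ X` for `gp`), `|a_s| ≤ X ^ A ≤ B ^ (2 q A)`; hence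
the number is `≤ C' B ^ (2 v v) ≤ C' X ^ (2 v v / q) ≤ C' X ^ τ`. If `B = 1`: `X < 2 ^ q`, `S` is in the box, `|S| ≤ X ^ (κ v) ≤ 2 ^ (q κ v)`.
-/

namespace Pool.MP_a95293_nt.GV

private theorem sf_root (q X : ℕ) (hq : 1 ≤ q) (hX : 1 ≤ X) : ∃ B : ℕ, 1 ≤ B ∧ B ^ q ≤ X ∧ X < (B + 1) ^ q := by
  classical
  have hex : ∃ b : ℕ, X < b ^ q := ⟨X + 1, lt_of_lt_of_le (Nat.lt_succ_self X) (Nat.le_self_pow (by omega) _)⟩
  have h1 := Nat.find_spec hex
  have h2 : ∀ b, b < Nat.find hex → b ^ q ≤ X := fun b hb => not_lt.1 (Nat.find_min hex hb)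
  set b := Nat.find hex with hb
  have hb2 : 2 ≤ b := by
    by_contra hcon
    have : b = 0 ∨ b = 1 := by omega
    rcases this with h | h
    · rw [h, zero_pow (by omega)] at h1; omega
    · rw [h, one_pow] at h1; omega
  refine ⟨b - 1, by omega, h2 _ (by omega), ?_⟩
  rw [Nat.sub_add_cancel (by omega)]
  exact h1

theorem gsurf (r v κ : ℕ) (τ : ℝ) (hτ : 0 < τ) : ∃ h : ℕ, ∀ A E : ℕ, ∃ C : ℝ, ∀ X : ℕ, 1 ≤ X →
    ∀ (a : Fin r → ℤ) (u : Fin r → Fin v → ℕ) (S : Finset (Fin v → ℤ)),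
      (∀ s, a s ≠ 0) → (∀ s, |a s| ≤ (X : ℤ) ^ A) → (∀ s i, u s i ≤ E) →
      (∀ z ∈ S, Pt a u X κ h z) → ((S.image (U a u)).card : ℝ) ≤ C * (X : ℝ) ^ τ := by
  classical
  obtain ⟨q0, hq0⟩ := exists_nat_ge (2 * (v : ℝ) * v / τ)
  set q : ℕ := q0 + 1 with hq
  have hq1 : 1 ≤ q := by omega
  have hqR : (0 : ℝ) < q := by exact_mod_cast hq1
  have hqτ : 2 * (v : ℝ) * v / q ≤ τ := by
    rw [div_le_iff₀ hqR]
    have h1 : 2 * (v : ℝ) * v / τ ≤ q := hq0.trans (by rw [hq]; push_cast; linarith)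
    rw [div_le_iff₀ hτ] at h1
    linarith
  obtain ⟨h, hh⟩ := start r v (2 * q * κ)
  refine ⟨h, fun A E => ?_⟩
  obtain ⟨C', hC'⟩ := hh (2 * q * A) E
  refine ⟨(C' : ℝ) + 2 ^ (q * κ * v), fun X hX a u S ha haA hu hS => ?_⟩
  obtain ⟨B, hB1, hBq, hXB⟩ := sf_root q X hq1 hX
  have hXR : (1 : ℝ) ≤ X := by exact_mod_cast hX
  have hXτ : (1 : ℝ) ≤ (X : ℝ) ^ τ := Real.one_le_rpow hXR hτ.le
  by_cases hB : B = 1
  · have hX2 : X ≤ 2 ^ q := by rw [hB] at hXB; exact hXB.le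
    have hsub : S ⊆ Fintype.piFinset fun _ : Fin v => Finset.Icc (1 : ℤ) (((2 ^ q) ^ κ : ℕ) : ℤ) := by
      intro z hz
      have hp := hS z hz
      rw [Fintype.mem_piFinset]
      intro i
      rw [Finset.mem_Icc]
      refine ⟨hp.pos i, (hp.le i).trans ?_⟩
      have : X ^ κ ≤ (2 ^ q) ^ κ := Nat.pow_le_pow_left hX2 κ
      exact_mod_cast this
    have hcard : (S.image (U a u)).card ≤ 2 ^ (q * κ * v) := by
      calc (S.image (U a u)).card ≤ S.card := Finset.card_image_le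
        _ ≤ _ := Finset.card_le_card hsub
        _ = 2 ^ (q * κ * v) := by
            rw [Fintype.card_piFinset]
            simp only [Int.card_Icc, Finset.prod_const, Finset.card_univ, Fintype.card_fin]
            rw [add_sub_cancel_right, Int.toNat_natCast, ← pow_mul, ← pow_mul, mul_assoc]
    calc ((S.image (U a u)).card : ℝ) ≤ ((2 ^ (q * κ * v) : ℕ) : ℝ) := by exact_mod_cast hcard
      _ = 2 ^ (q * κ * v) * 1 := by push_cast; ring
      _ ≤ ((C' : ℝ) + 2 ^ (q * κ * v)) * (X : ℝ) ^ τ := by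
          gcongr
          have : (0 : ℝ) ≤ C' := Nat.cast_nonneg _
          linarith
  · have hB2 : 2 ≤ B := by omega
    have hXB2 : X ≤ B ^ (2 * q) := by
      calc X ≤ (B + 1) ^ q := hXB.le
        _ ≤ (B ^ 2) ^ q := Nat.pow_le_pow_left (by nlinarith) q
        _ = B ^ (2 * q) := by rw [← pow_mul]
    have hBX : B ≤ X := (Nat.le_self_pow (by omega) B).trans hBq
    have hXk : ∀ e : ℕ, (X : ℤ) ^ e ≤ (B : ℤ) ^ (2 * q * e) := by
      intro e
      have : X ^ e ≤ B ^ (2 * q * e) := by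
        rw [pow_mul]
        exact Nat.pow_le_pow_left hXB2 e
      exact_mod_cast this
    have hPt : ∀ z ∈ S, Pt a u B (2 * q * κ) h z := by
      intro z hz
      have hp := hS z hz
      refine ⟨hp.pos, fun i => (hp.le i).trans (hXk κ), hp.sum, hp.prim, fun c hc hs => hp.gp c (fun s => (hc s).trans ?_) hs⟩
      have : B ^ h ≤ X ^ h := Nat.pow_le_pow_left hBX h
      exact_mod_cast this
    have hfin := hC' B hB1 a u S ha (fun s => (haA s).trans (hXk A)) hu hPt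
    have hpow : (B : ℝ) ^ (2 * v * v) ≤ (X : ℝ) ^ τ := by
      have hB0 : (0 : ℝ) ≤ B := Nat.cast_nonneg _
      have h1 : (B : ℝ) ^ (2 * v * v) = ((B : ℝ) ^ (q : ℝ)) ^ (2 * (v : ℝ) * v / q) := by
        rw [← Real.rpow_mul hB0, mul_div_cancel₀ _ hqR.ne', ← Real.rpow_natCast]
        congr 1
        push_cast; ring
      rw [h1]
      calc ((B : ℝ) ^ (q : ℝ)) ^ (2 * (v : ℝ) * v / q) ≤ (X : ℝ) ^ (2 * (v : ℝ) * v / q) := by
            apply Real.rpow_le_rpow (by positivity) _ (by positivity)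
            rw [Real.rpow_natCast]
            exact_mod_cast hBq
        _ ≤ (X : ℝ) ^ τ := Real.rpow_le_rpow_of_exponent_le hXR hqτ
    calc ((S.image (U a u)).card : ℝ) ≤ ((C' * B ^ (2 * v * v) : ℕ) : ℝ) := by exact_mod_cast hfin
      _ = (C' : ℝ) * (B : ℝ) ^ (2 * v * v) := by push_cast; ring
      _ ≤ ((C' : ℝ) + 2 ^ (q * κ * v)) * (X : ℝ) ^ τ := by
          gcongr
          have : (0 : ℝ) ≤ 2 ^ (q * κ * v) := by positivity
          linarith

end Pool.MP_a95293_nt.GV
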