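import Pool.Agent.Lib_MP_a95293_gv.Ids
import Pool.Agent.Lib_MP_a95293_gv.BdB
import Pool.Agent.Lib_MP_a95293_gv.LA
import Pool.Agent.Lib_MP_a95293_gv.Cop

/-!
# THEOREM G, piece Tri: cut with `Q_i`, cut with a word, or all words vanish

Constants: `bd_AA v (n+1) D c` gives `D1, c1`; `h = c1 + κ D1`; `B0 = max` of its `B0` and `1`.
Proof. Let `N` be the matrix of the gradients `N i j = eval z (pderiv j (H i))`, so `N.submatrix id f = jac H f z`, and `q_i j = eval z (pderiv j (Q i))`.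
(a) `la_cut` for `g = q_i`. If for some `i` the first alternative holds: first case (`jac (Fin.snoc H (Q i)) f' z` is the matrix of `la_cut`: `Fin.snoc` of the functions composed with the map `P ↦ (j ↦ eval z (pderiv j P))`). Otherwise there are `λ_i`.
(b) `q_i (f i') = 0` for `i' ≠ i` (support), `q_i ≠ 0`, so `q_i (f i) ≠ 0` by `la_supp`.
(c) For `k : Fin d` let `w_j = eval z (vf Q f (g k) j)`. `∑_j q_i j * w_j = eval z (Dd Q f (g k) (Q i)) = 0` (`Dd_self`). `la_perp` (with `c = det`): `∑_j N i j * w_j = 0` for all `i`, in particular (`H 0 = Fp a u`) `eval z (Dd Q f (g k) (Fp a u)) = 0`.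
By `Dd_Fp`: `∑_s U_s * eval z (AA (u s)) = 0`; `|eval z (AA (u s))| ≤ B ^ (c1 + κ D1) = B ^ h` (`Bd.sm`; `|z i| ≤ B ^ κ`), so `Pt.gp` gives `eval z (AA (u s) ..) = eval z (AA (u s') ..)`, i.e. `eval z (RR u Q f s s' (g k)) = 0`, for all `s, s', k`.
(d) If all words of length `≤ k0` vanish: third case. Otherwise take a word `w` of minimal length such that `eval z (Dw Q f g w (RR u Q f s s' (g k))) ≠ 0` for some `s, s', k`; by (c) `w = k' :: w'`, by minimality `G = Dw Q f g w' (RR u Q f s s' (g k))` vanishes at `z`, and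
`eval z (Dd Q f (g k') G) = ∑_j eval z (pderiv j G) * w_j ≠ 0` (`w_j` for `k'`). `la_cut` for `g = ` gradient of `G`: the second alternative would give `det * ∑_j g_j w_j = ∑_i λ_i ∑_j N i j w_j = 0` by (c). So the first alternative holds: second case, `w'.length < k0`.
-/

namespace Pool.MP_a95293_nt.GV

open MvPolynomial

private theorem Tri_cut {m v : ℕ} (H : Fin m → MvPolynomial (Fin v) ℤ) (f : Fin m → Fin v)
    (z : Fin v → ℤ) (hdet : (jac H f z).det ≠ 0) (P : MvPolynomial (Fin v) ℤ) :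
    (∃ f', (jac (Fin.snoc (α := fun _ => MvPolynomial (Fin v) ℤ) H P) f' z).det ≠ 0) ∨
    ∃ l : Fin m → ℤ, ∀ j, (jac H f z).det * eval z (pderiv j P) =
      ∑ i, l i * eval z (pderiv j (H i)) := by
  rcases la_cut (Matrix.of fun i j => eval z (pderiv j (H i))) f hdet
    (fun j => eval z (pderiv j P)) with ⟨f', h⟩ | ⟨l, h⟩
  · left
    refine ⟨f', ?_⟩
    have e : jac (Fin.snoc (α := fun _ => MvPolynomial (Fin v) ℤ) H P) f' z =
        Matrix.of fun i j => (Fin.snoc (α := fun _ => Fin v → ℤ)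
          (fun i => (Matrix.of fun i j => eval z (pderiv j (H i)) : Matrix (Fin m) (Fin v) ℤ) i)
          (fun j => eval z (pderiv j P)) : Fin (m + 1) → Fin v → ℤ) i (f' j) := by
      ext i j
      unfold jac
      rw [Matrix.of_apply, Matrix.of_apply]
      refine Fin.lastCases ?_ (fun i => ?_) i
      · rw [Fin.snoc_last, Fin.snoc_last]
      · rw [Fin.snoc_castSucc, Fin.snoc_castSucc]
        rfl
    rw [e]
    exact h
  · exact Or.inr ⟨l, h⟩

private theorem Tri_Dd {m v : ℕ} (Q : Fin m → MvPolynomial (Fin v) ℤ) (f : Fin m → Fin v)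
    (k : Fin v) (z : Fin v → ℤ) (P : MvPolynomial (Fin v) ℤ) :
    eval z (Dd Q f k P) = ∑ j, eval z (pderiv j P) * eval z (vf Q f k j) := by
  unfold Dd
  rw [map_sum]
  refine Finset.sum_congr rfl fun j _ => ?_
  rw [map_mul, mul_comm]

private theorem Tri_word {m v d : ℕ} (Q : Fin m → MvPolynomial (Fin v) ℤ) (f : Fin m → Fin v)
    (g : Fin d → Fin v) (z : Fin v → ℤ) (R : MvPolynomial (Fin v) ℤ) (hR : eval z R = 0) (k0 : ℕ)
    (w : List (Fin d)) (hw : w.length ≤ k0) (h : eval z (Dw Q f g w R) ≠ 0) :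
    ∃ (k' : Fin d) (w' : List (Fin d)), w'.length < k0 ∧ eval z (Dw Q f g w' R) = 0 ∧
      eval z (Dd Q f (g k') (Dw Q f g w' R)) ≠ 0 := by
  induction w with
  | nil => exact absurd hR h
  | cons k' w' ih =>
    by_cases h0 : eval z (Dw Q f g w' R) = 0
    · refine ⟨k', w', ?_, h0, h⟩
      rw [List.length_cons] at hw
      omega
    · refine ih ?_ h0
      rw [List.length_cons] at hw
      omega

theorem tri (r v κ n d D c : ℕ) : ∃ h : ℕ, ∀ E : ℕ, ∃ B0 : ℕ, ∀ B : ℕ, B0 ≤ B →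
    ∀ (a : Fin r → ℤ) (u : Fin r → Fin v → ℕ) (H Q : Fin (n + 1) → MvPolynomial (Fin v) ℤ)
      (f : Fin (n + 1) → Fin v) (g : Fin d → Fin v) (k0 : ℕ) (z : Fin v → ℤ),
      (∀ s i, u s i ≤ E) → Function.Injective f → (∀ i k, f i ≠ g k) →
      Pt a u B κ h z → H 0 = Fp a u → (jac H f z).det ≠ 0 → (∀ i, Bd B D c (Q i)) →
      (∀ i i', i ≠ i' → pderiv (f i') (Q i) = 0) → (∀ i, ∃ j, eval z (pderiv j (Q i)) ≠ 0) →
      (∃ i, ∃ f', (jac (Fin.snoc (α := fun _ => MvPolynomial (Fin v) ℤ) H (Q i)) f' z).det ≠ 0) ∨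
      (∃ (s s' : Fin r) (k : Fin d) (w : List (Fin d)), w.length < k0 ∧
        eval z (Dw Q f g w (RR u Q f s s' (g k))) = 0 ∧
        ∃ f', (jac (Fin.snoc (α := fun _ => MvPolynomial (Fin v) ℤ) H
          (Dw Q f g w (RR u Q f s s' (g k)))) f' z).det ≠ 0) ∨
      ((∀ i, eval z (pderiv (f i) (Q i)) ≠ 0) ∧ ∀ (s s' : Fin r) (k : Fin d)
        (w : List (Fin d)), w.length ≤ k0 → eval z (Dw Q f g w (RR u Q f s s' (g k))) = 0) := by
  obtain ⟨D1, c1, hb⟩ := bd_AA v (n + 1) D c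
  refine ⟨c1 + κ * D1, fun E => ?_⟩
  obtain ⟨B0, hb0⟩ := hb E
  refine ⟨max B0 1, fun B hB a u H Q f g k0 z hu hf hfg hpt hH0 hdet hQ hs hne => ?_⟩
  have hB1 : 1 ≤ B := (le_max_right _ _).trans hB
  by_cases h1 : ∃ i, ∃ f', (jac (Fin.snoc (α := fun _ => MvPolynomial (Fin v) ℤ) H (Q i)) f' z).det ≠ 0
  · exact Or.inl h1
  right
  have hl : ∀ i, ∃ l : Fin (n + 1) → ℤ, ∀ j, (jac H f z).det * eval z (pderiv j (Q i)) =
      ∑ i', l i' * eval z (pderiv j (H i')) := fun i =>
    (Tri_cut H f z hdet (Q i)).resolve_left fun h => h1 ⟨i, h⟩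
  choose l hl using hl
  have h0 : ∀ i i', i' ≠ i → eval z (pderiv (f i') (Q i)) = 0 := fun i i' hi => by
    rw [hs i i' (Ne.symm hi), map_zero]
  have hq : ∀ i, eval z (pderiv (f i) (Q i)) ≠ 0 := by
    intro i hi
    obtain ⟨j, hj⟩ := hne i
    have h2 := la_supp (Matrix.of fun i j => eval z (pderiv j (H i))) f hdet
      (fun j => eval z (pderiv j (Q i))) (l i) (hl i) (fun i' => by
        by_cases h3 : i' = i
        · rw [h3]
          exact hi
        · exact h0 i i' h3)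
    exact hj (congrFun h2 j)
  have hperp : ∀ (k : Fin d) (i : Fin (n + 1)),
      ∑ j, eval z (pderiv j (H i)) * eval z (vf Q f (g k) j) = 0 := by
    intro k
    exact la_perp (Matrix.of fun i j => eval z (pderiv j (H i))) f (jac H f z).det hdet
      (fun i j => eval z (pderiv j (Q i))) l hl h0 hq (fun j => eval z (vf Q f (g k) j)) (fun i => by
        rw [← Tri_Dd, Dd_self Q f hf hs (fun i' => hfg i' k) i, map_zero])
  have hz : ∀ i, |z i| ≤ (B : ℤ) ^ κ := fun i => by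
    rw [abs_of_nonneg (by have := hpt.pos i; omega)]
    exact hpt.le i
  have hR : ∀ (s s' : Fin r) (k : Fin d), eval z (RR u Q f s s' (g k)) = 0 := by
    intro s s' k
    have h2 := Dd_Fp a u Q f (g k) z
    rw [← hH0, Tri_Dd, hperp k 0, mul_zero] at h2
    have h3 := hpt.gp (fun s => eval z (AA (u s) Q f (g k))) (fun s =>
      (hb0 B ((le_max_left _ _).trans hB) Q f (u s) (g k) hQ (hu s)).sm hB1 z hz) (by
        rw [h2]
        exact Finset.sum_congr rfl fun s _ => mul_comm _ _) s s'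
    unfold RR
    rw [map_sub, sub_eq_zero]
    exact h3
  by_cases h2 : ∀ (s s' : Fin r) (k : Fin d) (w : List (Fin d)), w.length ≤ k0 →
      eval z (Dw Q f g w (RR u Q f s s' (g k))) = 0
  · exact Or.inr ⟨hq, h2⟩
  left
  push Not at h2
  obtain ⟨s, s', k, w, hw, hwne⟩ := h2
  obtain ⟨k', w', hw', hz', hne'⟩ := Tri_word Q f g z _ (hR s s' k) k0 w hw hwne
  refine ⟨s, s', k, w', hw', hz', ?_⟩
  refine (Tri_cut H f z hdet _).resolve_right ?_
  rintro ⟨l', hl'⟩
  apply hne'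
  rw [Tri_Dd]
  have h3 : (jac H f z).det * ∑ j, eval z (pderiv j (Dw Q f g w' (RR u Q f s s' (g k)))) *
      eval z (vf Q f (g k') j) = 0 := by
    rw [Finset.mul_sum]
    have h4 : ∀ j, (jac H f z).det * (eval z (pderiv j (Dw Q f g w' (RR u Q f s s' (g k)))) *
        eval z (vf Q f (g k') j)) =
        ∑ i, l' i * (eval z (pderiv j (H i)) * eval z (vf Q f (g k') j)) := by
      intro j
      rw [← mul_assoc, hl' j, Finset.sum_mul]
      exact Finset.sum_congr rfl fun i _ => by ring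
    rw [Finset.sum_congr rfl fun j _ => h4 j, Finset.sum_comm]
    refine Finset.sum_eq_zero fun i _ => ?_
    rw [← Finset.mul_sum, hperp k' i, mul_zero]
  exact (mul_eq_zero.1 h3).resolve_left hdet

end Pool.MP_a95293_nt.GV
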