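import Pool.Agent.Lib_MP_a95293_gv.Idl
import Pool.Agent.Lib_MP_a95293_gv.Hens
import Pool.Agent.Lib_MP_a95293_gv.Ids

/-!
# THEOREM G, piece Van: if all short words vanish at `z`, the polynomial vanishes to high order along the chart

`I = II p d`. `chain`: by `MvPolynomial.induction_on`.
`van1`: `Δ(γ) ∂_k γ_j ≡ vf(γ)` modulo `I ^ N`, `Δ = Del Q f`: for `j = g k`: `γ_(g k) = C _ + X k`, `vf_self`. For `j = g k'`, `k' ≠ k`: both sides `0` (`vf_ne`, `g` injective). For `j = f i`: by `chain` for `P = Q i`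
(only the terms `j = g k` and `j = f i` of `∑_j aeval γ (pderiv j (Q i)) * pderiv k (γ j)` survive: `pderiv (f i') (Q i) = 0`, `pderiv k (γ (g k')) = 0`) `aeval γ (pderiv (g k) (Q i)) + aeval γ (pderiv (f i) (Q i)) * pderiv k (γ (f i)) = pderiv k (aeval γ (Q i)) ∈ I ^ N`
(`pderiv_mem_II`); multiply by `aeval γ (∏_(i' ≠ i) ∂_(f i') Q_i')` and use `vf_f`.
`van2`: `chain` and `van1`.
`van`: induction on `j` for all `P`. `j = 0` trivial. `j + 1 ≤ N`: `h = aeval γ P`. `constantCoeff h = eval (fun i => constantCoeff (γ i)) P ≡ eval z P = 0` modulo `p ^ (N + 1)` (word `[]`; `taylor0` in `ℤ` with `J = (p ^ (N+1))`). For `k`: by `van2` and the induction hypothesis for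
`Dd Q f (g k) P` (`Dw_append`): `Δ(γ) * pderiv k h ∈ I ^ j`. `Δ(γ) - C (eval z Δ) ∈ I` (`taylor0`), and `p ∤ eval z Δ`, so there is `u` with `C u * Δ(γ) - 1 ∈ I`; `mem_of_unit_mul`, then `mem_of_grad`.
-/

namespace Pool.MP_a95293_nt.GV

open MvPolynomial

variable {v n d : ℕ}

theorem chain (γ : Fin v → MvPolynomial (Fin d) ℤ) (k : Fin d) (P : MvPolynomial (Fin v) ℤ) :
    pderiv k (aeval γ P) = ∑ j, aeval γ (pderiv j P) * pderiv k (γ j) := by
  classical
  induction P using MvPolynomial.induction_on with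
  | C a =>
    simp only [pderiv_C, map_zero, zero_mul, Finset.sum_const_zero]
    rw [aeval_C, MvPolynomial.algebraMap_eq, pderiv_C]
  | add P R hP hR =>
    simp only [map_add, hP, hR, add_mul, Finset.sum_add_distrib]
  | mul_X P i hP =>
    have h1 : ∀ j, aeval γ (pderiv j (P * X i)) * pderiv k (γ j) =
        (aeval γ (pderiv j P) * pderiv k (γ j)) * γ i +
          (if j = i then aeval γ P * pderiv k (γ i) else 0) := by
      intro j
      rw [pderiv_mul, map_add, map_mul, map_mul, aeval_X, pderiv_X]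
      by_cases h : j = i
      · subst h
        simp only [Pi.single_eq_same, map_one, if_true]
        ring
      · rw [if_neg h, Pi.single_eq_of_ne (Ne.symm h), map_zero]
        ring
    rw [Finset.sum_congr rfl fun j _ => h1 j, Finset.sum_add_distrib, Finset.sum_ite_eq',
      if_pos (Finset.mem_univ _), ← Finset.sum_mul, ← hP, map_mul, aeval_X, pderiv_mul]

private theorem aeval_C_eq (z : Fin v → ℤ) (P : MvPolynomial (Fin v) ℤ) :
    aeval (fun i => (C (z i) : MvPolynomial (Fin d) ℤ)) P = C (eval z P) := by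
  induction P using MvPolynomial.induction_on with
  | C a => rw [aeval_C, eval_C, MvPolynomial.algebraMap_eq]
  | add P R hP hR => rw [map_add, hP, hR, map_add, map_add]
  | mul_X P i hP => rw [map_mul, hP, aeval_X, map_mul, eval_X, map_mul]

private theorem cc_aeval (γ : Fin v → MvPolynomial (Fin d) ℤ) (P : MvPolynomial (Fin v) ℤ) :
    constantCoeff (aeval γ P) = eval (fun i => constantCoeff (γ i)) P := by
  induction P using MvPolynomial.induction_on with
  | C a => rw [aeval_C, eval_C, MvPolynomial.algebraMap_eq, constantCoeff_C]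
  | add P R hP hR => rw [map_add, map_add, hP, hR, map_add]
  | mul_X P i hP => rw [map_mul, map_mul, hP, aeval_X, map_mul, eval_X]

private theorem aeval_int (y : Fin v → ℤ) (P : MvPolynomial (Fin v) ℤ) :
    aeval y P = eval y P := by
  induction P using MvPolynomial.induction_on with
  | C a => rw [aeval_C, eval_C, Algebra.algebraMap_self_apply]
  | add P R hP hR => rw [map_add, hP, hR, map_add]
  | mul_X P i hP => rw [map_mul, hP, aeval_X, map_mul, eval_X]

private theorem tay (J : Ideal (MvPolynomial (Fin d) ℤ)) (P : MvPolynomial (Fin v) ℤ)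
    (z δ : Fin v → MvPolynomial (Fin d) ℤ) (hδ : ∀ i, δ i ∈ J) :
    aeval (fun i => z i + δ i) P - aeval z P ∈ J := by
  have key : ∀ (i1 i2 : Algebra ℤ (MvPolynomial (Fin d) ℤ)) (y : Fin v → MvPolynomial (Fin d) ℤ),
      (@MvPolynomial.aeval ℤ (MvPolynomial (Fin d) ℤ) (Fin v) _ _ i1 y) P =
        (@MvPolynomial.aeval ℤ (MvPolynomial (Fin d) ℤ) (Fin v) _ _ i2 y) P := by
    intro i1 i2 y
    obtain rfl : i1 = i2 := Subsingleton.elim _ _
    rfl
  have h := taylor0 J P z δ hδ
  have e1 := key (Ring.toIntAlgebra _) inferInstance (fun i => z i + δ i)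
  have e2 := key (Ring.toIntAlgebra _) inferInstance z
  have h1 : ∀ a b c e : MvPolynomial (Fin d) ℤ, a = b → c = e → a - c ∈ J → b - e ∈ J := by
    rintro a b c e rfl rfl h
    exact h
  exact h1 _ _ _ _ e1 e2 h

private theorem pderiv_param (c : ℤ) (k k' : Fin d) :
    pderiv k (C c + X k' : MvPolynomial (Fin d) ℤ) = if k' = k then 1 else 0 := by
  classical
  rw [map_add, pderiv_C, zero_add, pderiv_X]
  by_cases h : k' = k
  · subst h
    rw [if_pos rfl, Pi.single_eq_same]
  · rw [if_neg h, Pi.single_eq_of_ne h]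

private theorem van1 {p N : ℕ} (Q : Fin n → MvPolynomial (Fin v) ℤ) (f : Fin n → Fin v)
    (g : Fin d → Fin v) (hf : Function.Injective f) (hg : Function.Injective g)
    (hfg : ∀ i k, f i ≠ g k) (hcov : ∀ j, (∃ i, f i = j) ∨ ∃ k, g k = j)
    (hs : ∀ i i', i ≠ i' → pderiv (f i') (Q i) = 0) (z : Fin v → ℤ)
    (γ : Fin v → MvPolynomial (Fin d) ℤ) (hγg : ∀ k, γ (g k) = C (z (g k)) + X k)
    (hQ : ∀ i, aeval γ (Q i) ∈ II p d ^ (N + 1)) (k : Fin d) (j : Fin v) :
    aeval γ (Del Q f) * pderiv k (γ j) - aeval γ (vf Q f (g k) j) ∈ II p d ^ N := by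
  classical
  rcases hcov j with ⟨i, rfl⟩ | ⟨k', rfl⟩
  · have h1 : pderiv k (aeval γ (Q i)) = aeval γ (pderiv (g k) (Q i)) +
        aeval γ (pderiv (f i) (Q i)) * pderiv k (γ (f i)) := by
      rw [chain]
      have h2 : ∀ j ∈ (Finset.univ : Finset (Fin v)), j ∉ ({g k, f i} : Finset (Fin v)) →
          aeval γ (pderiv j (Q i)) * pderiv k (γ j) = 0 := by
        intro j _ hj
        rw [Finset.mem_insert, Finset.mem_singleton, not_or] at hj
        rcases hcov j with ⟨i', rfl⟩ | ⟨k', rfl⟩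
        · have : i ≠ i' := by
            rintro rfl
            exact hj.2 rfl
          rw [hs i i' this, map_zero, zero_mul]
        · have : k' ≠ k := by
            rintro rfl
            exact hj.1 rfl
          rw [hγg, pderiv_param, if_neg this, mul_zero]
      rw [← Finset.sum_subset (Finset.subset_univ _) h2, Finset.sum_pair (hfg i k).symm, hγg k,
        pderiv_param, if_pos rfl, mul_one]
    have h2 : pderiv k (aeval γ (Q i)) ∈ II p d ^ N := pderiv_mem_II (hQ i) k
    rw [h1] at h2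
    have h3 : Del Q f = pderiv (f i) (Q i) * ∏ i' ∈ Finset.univ.erase i, pderiv (f i') (Q i') := by
      unfold Del
      rw [Finset.mul_prod_erase Finset.univ (fun i' => pderiv (f i') (Q i')) (Finset.mem_univ i)]
    rw [vf_f Q f hf (fun i' => hfg i' k) i, h3]
    have h4 := (II p d ^ N).mul_mem_left
      (aeval γ (∏ i' ∈ Finset.univ.erase i, pderiv (f i') (Q i'))) h2
    convert h4 using 1
    rw [map_neg, map_mul, map_mul]
    ring
  · by_cases h : k' = k
    · subst h
      rw [vf_self Q f (fun i => hfg i k'), hγg, pderiv_param, if_pos rfl, mul_one, sub_self]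
      exact Ideal.zero_mem _
    · rw [vf_ne Q f (fun i => hfg i k') (fun h' => h (hg h')), hγg, pderiv_param, if_neg h, mul_zero,
        map_zero, sub_self]
      exact Ideal.zero_mem _

theorem van2 {p N : ℕ} (Q : Fin n → MvPolynomial (Fin v) ℤ) (f : Fin n → Fin v)
    (g : Fin d → Fin v) (hf : Function.Injective f) (hg : Function.Injective g)
    (hfg : ∀ i k, f i ≠ g k) (hcov : ∀ j, (∃ i, f i = j) ∨ ∃ k, g k = j)
    (hs : ∀ i i', i ≠ i' → pderiv (f i') (Q i) = 0) (z : Fin v → ℤ)
    (γ : Fin v → MvPolynomial (Fin d) ℤ) (hγg : ∀ k, γ (g k) = C (z (g k)) + X k)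
    (hQ : ∀ i, aeval γ (Q i) ∈ II p d ^ (N + 1)) (k : Fin d) (P : MvPolynomial (Fin v) ℤ) :
    aeval γ (Del Q f) * pderiv k (aeval γ P) - aeval γ (Dd Q f (g k) P) ∈ II p d ^ N := by
  have h1 : aeval γ (Del Q f) * pderiv k (aeval γ P) - aeval γ (Dd Q f (g k) P) =
      ∑ j, aeval γ (pderiv j P) *
        (aeval γ (Del Q f) * pderiv k (γ j) - aeval γ (vf Q f (g k) j)) := by
    rw [chain]
    unfold Dd
    rw [map_sum, Finset.mul_sum, ← Finset.sum_sub_distrib]
    refine Finset.sum_congr rfl fun j _ => ?_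
    rw [map_mul]
    ring
  rw [h1]
  exact Ideal.sum_mem _ fun j _ => Ideal.mul_mem_left _ _
    (van1 Q f g hf hg hfg hcov hs z γ hγg hQ k j)

theorem van {p N : ℕ} (hp : p.Prime) (Q : Fin n → MvPolynomial (Fin v) ℤ) (f : Fin n → Fin v)
    (g : Fin d → Fin v) (hf : Function.Injective f) (hg : Function.Injective g)
    (hfg : ∀ i k, f i ≠ g k) (hcov : ∀ j, (∃ i, f i = j) ∨ ∃ k, g k = j)
    (hs : ∀ i i', i ≠ i' → pderiv (f i') (Q i) = 0) (z : Fin v → ℤ)
    (hΔ : ¬ (p : ℤ) ∣ eval z (Del Q f)) (γ : Fin v → MvPolynomial (Fin d) ℤ)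
    (hγg : ∀ k, γ (g k) = C (z (g k)) + X k) (hγ : ∀ j, γ j - C (z j) ∈ II p d)
    (hγ0 : ∀ j, (p : ℤ) ^ (N + 1) ∣ constantCoeff (γ j) - z j)
    (hQ : ∀ i, aeval γ (Q i) ∈ II p d ^ (N + 1)) :
    ∀ j, j ≤ N → j ≤ p → ∀ P : MvPolynomial (Fin v) ℤ,
      (∀ w : List (Fin d), w.length < j → eval z (Dw Q f g w P) = 0) →
      aeval γ P ∈ II p d ^ j := by
  -- the unit
  obtain ⟨u, hu⟩ : ∃ u : MvPolynomial (Fin d) ℤ, u * aeval γ (Del Q f) - 1 ∈ II p d := by
    have h1 : IsCoprime (p : ℤ) (eval z (Del Q f)) :=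
      (Prime.coprime_iff_not_dvd (Nat.prime_iff_prime_int.1 hp)).2 hΔ
    obtain ⟨a, b, hab⟩ := h1
    refine ⟨C b, ?_⟩
    have h2 := tay (II p d) (Del Q f) (fun i => (C (z i) : MvPolynomial (Fin d) ℤ))
      (fun i => γ i - C (z i)) hγ
    have h3 : (fun i => (C (z i) : MvPolynomial (Fin d) ℤ) + (γ i - C (z i))) = γ := by
      funext i
      ring
    rw [h3] at h2
    have h4 : aeval (fun i => (C (z i) : MvPolynomial (Fin d) ℤ)) (Del Q f) =
        C (eval z (Del Q f)) := by
      exact aeval_C_eq z _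
    rw [h4] at h2
    have h5 : (C (p : ℤ) : MvPolynomial (Fin d) ℤ) ∈ II p d := by
      unfold II
      exact Ideal.subset_span (Or.inl rfl)
    have h6 : C b * aeval γ (Del Q f) - 1 =
        C b * (aeval γ (Del Q f) - C (eval z (Del Q f))) - C a * C (p : ℤ) := by
      have h7 : (C a * C (p : ℤ) + C b * C (eval z (Del Q f)) : MvPolynomial (Fin d) ℤ) = 1 := by
        rw [← C_mul, ← C_mul, ← C_add, hab, C_1]
      linear_combination h7
    rw [h6]
    exact Ideal.sub_mem _ (Ideal.mul_mem_left _ _ h2) (Ideal.mul_mem_left _ _ h5)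
  intro j
  induction j with
  | zero =>
    intro _ _ P _
    rw [pow_zero, Ideal.one_eq_top]
    exact Submodule.mem_top
  | succ j ih =>
    intro hjN hjp P hw
    refine mem_of_grad hp (by omega) _ ?_ fun k => ?_
    · have h1 := cc_aeval γ P
      have h2 := taylor0 (Ideal.span {(p : ℤ) ^ (N + 1)}) P z
        (fun i => constantCoeff (γ i) - z i) (fun i => Ideal.mem_span_singleton.2 (hγ0 i))
      have h3 : (fun i => z i + (constantCoeff (γ i) - z i)) = fun i => constantCoeff (γ i) := by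
        funext i
        ring
      rw [h3, Ideal.mem_span_singleton] at h2
      rw [aeval_int, aeval_int] at h2
      have h5 := hw [] (by simp)
      rw [Dw_nil] at h5
      rw [h5, sub_zero, ← h1] at h2
      exact (pow_dvd_pow _ (by omega)).trans h2
    · have h1 := van2 Q f g hf hg hfg hcov hs z γ hγg hQ k P
      have h2 : aeval γ (Dd Q f (g k) P) ∈ II p d ^ j := by
        refine ih (by omega) (by omega) _ fun w hwl => ?_
        rw [← Dw_append]
        refine hw _ ?_
        rw [List.length_append, List.length_singleton]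
        omega
      have h3 : aeval γ (Del Q f) * pderiv k (aeval γ P) ∈ II p d ^ j := by
        have h4 := Ideal.add_mem _ (Ideal.pow_le_pow_right (by omega : j ≤ N) h1) h2
        rwa [sub_add_cancel] at h4
      exact mem_of_unit_mul (II p d) hu j h3

end Pool.MP_a95293_nt.GV
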